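import Pool.Agent.Lib.MP_60077b_lc.Pos

/-! Layer D, part 1: the sets `X` and `Y` can be listed by primitive recursive functions. -/

namespace Pool.Agent.Lib.MP_60077b_lc

/-- A family of finite sets listed by a primitive recursive function. -/
def Fam {α : Type} [Primcodable α] (F : ℕ → Set α) : Prop :=
  ∃ f : ℕ → List α, Primrec f ∧ ∀ n w, w ∈ f n ↔ w ∈ F n

namespace Fam

variable {α β : Type} [Primcodable α] [Primcodable β]

lemma of_iff {F F' : ℕ → Set α} (h : Fam F) (e : ∀ n w, w ∈ F n ↔ w ∈ F' n) : Fam F' := by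
  obtain ⟨f, h1, h2⟩ := h
  exact ⟨f, h1, fun n w => (h2 n w).trans (e n w)⟩

lemma const {s : Set α} (h : s.Finite) : Fam fun _ => s :=
  ⟨fun _ => h.toFinset.toList, Primrec.const _, by simp⟩

lemma univ [Finite α] : Fam fun _ => (Set.univ : Set α) := const Set.finite_univ

lemma union {F F' : ℕ → Set α} (h : Fam F) (h' : Fam F') : Fam fun n => F n ∪ F' n := by
  obtain ⟨f, h1, h2⟩ := h
  obtain ⟨f', h1', h2'⟩ := h'
  exact ⟨fun n => f n ++ f' n, Primrec.list_append.comp h1 h1', by simp [h2, h2']⟩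

lemma image {F : ℕ → Set α} (h : Fam F) {g : ℕ → α → β} (hg : Primrec₂ g) :
    Fam fun n => g n '' F n := by
  obtain ⟨f, h1, h2⟩ := h
  exact ⟨fun n => (f n).map (g n), Primrec.list_map h1 hg, by simp [h2]⟩

lemma prod {F : ℕ → Set α} {F' : ℕ → Set β} (h : Fam F) (h' : Fam F') :
    Fam fun n => F n ×ˢ F' n := by
  obtain ⟨f, h1, h2⟩ := h
  obtain ⟨f', h1', h2'⟩ := h'
  refine ⟨fun n => (f n).flatMap fun a => (f' n).map fun b => (a, b),
    Primrec.list_flatMap h1 (Primrec.list_map (h1'.comp Primrec.fst)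
      ((Primrec.snd.comp Primrec.fst).pair Primrec.snd).to₂).to₂, ?_⟩
  rintro n ⟨a, b⟩
  simp [h2, h2']

lemma sep {F : ℕ → Set α} (h : Fam F) {R : ℕ → α → Prop}
    (hR : PrimrecPred fun x : ℕ × α => R x.1 x.2) : Fam fun n => {w | w ∈ F n ∧ R n w} := by
  classical
  obtain ⟨f, h1, h2⟩ := h
  refine ⟨fun n => (f n).flatMap fun a => if R n a then [a] else [],
    Primrec.list_flatMap h1 (Primrec.ite hR
      (Primrec.list_cons.comp Primrec.snd (Primrec.const [])) (Primrec.const [])).to₂, ?_⟩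
  intro n w
  simp only [List.mem_flatMap, h2, Set.mem_ofPred_eq]
  constructor
  · rintro ⟨a, ha, hw⟩
    split_ifs at hw with h
    · rw [List.mem_singleton.mp hw]; exact ⟨ha, h⟩
    · simp at hw
  · rintro ⟨h3, h4⟩
    exact ⟨w, h3, by simp [h4]⟩

lemma le {s : ℕ → ℕ} (hs : Primrec s) : Fam fun n => {i | i ≤ s n} :=
  ⟨fun n => List.range (s n + 1), Primrec.list_range.comp (Primrec.succ.comp hs), by
    simp⟩

lemma finite {F : ℕ → Set α} (h : Fam F) (n : ℕ) : (F n).Finite := by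
  obtain ⟨f, -, h2⟩ := h
  exact (List.finite_toSet (f n)).subset fun w hw => (h2 n w).mpr hw

end Fam

lemma prim_replicate {α : Type} [Primcodable α] :
    Primrec₂ (List.replicate : ℕ → α → List α) :=
  (Primrec.list_map (Primrec.list_range.comp Primrec.fst)
    (Primrec.snd.comp Primrec.fst).to₂).of_eq fun x => by simp

lemma pred_finite {α : Type} [Primcodable α] [Finite α] (p : α → Prop) : PrimrecPred p := by
  classical
  exact Primrec.primrecPred (Primrec.dom_finite _)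

lemma prim_chain {α : Type} [Primcodable α] [Finite α] (R : α → α → Prop) :
    PrimrecPred fun l : List α => l.IsChain R := by
  classical
  have h := Primrec.list_rec (f := fun l : List α => l) (g := fun _ => true)
    (h := fun _ x => x.2.2 && decide (∀ b ∈ x.2.1.head?, R x.1 b)) Primrec.id (Primrec.const _)
    (Primrec.and.comp (Primrec.snd.comp (Primrec.snd.comp Primrec.snd))
      ((Primrec.dom_finite fun y : α × Option α => decide (∀ b ∈ y.2, R y.1 b)).comp
        ((Primrec.fst.comp Primrec.snd).pair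
          (Primrec.list_head?.comp (Primrec.fst.comp (Primrec.snd.comp Primrec.snd)))))).to₂
  refine Primrec.primrecPred (h.of_eq fun l => ?_)
  induction l with
  | nil => simp
  | cons a l ih =>
    simp only [ih]
    rw [← Bool.decide_and]
    exact decide_eq_decide.mpr (by rw [List.isChain_cons, and_comm])

variable {S G : Type}

instance [Finite S] [Finite G] : Finite (Ltr S G) := by
  refine Finite.of_surjective (α := Option (S ⊕ S × G ⊕ S × G ⊕ S ⊕ S))
    (fun o => o.elim Ltr.t (Sum.elim Ltr.a (Sum.elim (fun x => Ltr.run x.1 x.2)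
      (Sum.elim (fun x => Ltr.sep x.1 x.2) (Sum.elim Ltr.z Ltr.b))))) ?_
  rintro (_ | x | ⟨x, y⟩ | ⟨x, y⟩ | x | x)
  · exact ⟨none, rfl⟩
  · exact ⟨some (Sum.inl x), rfl⟩
  · exact ⟨some (Sum.inr (Sum.inl (x, y))), rfl⟩
  · exact ⟨some (Sum.inr (Sum.inr (Sum.inl (x, y)))), rfl⟩
  · exact ⟨some (Sum.inr (Sum.inr (Sum.inr (Sum.inl x)))), rfl⟩
  · exact ⟨some (Sum.inr (Sum.inr (Sum.inr (Sum.inr x)))), rfl⟩

variable [Finite S] [Finite G] [Primcodable S] [Primcodable G] [Primcodable (Ltr S G)]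

/-- An effective family of checking automata. -/
structure Eff (D : ℕ → Sys S G) : Prop where
  R : Primrec fun n => (D n).R
  nu : ∀ n, (D n).nu = (D 0).nu
  ok : ∀ n, (D n).ok = (D 0).ok
  Sw : ∀ n, (D n).Sw = (D 0).Sw
  Fn : ∀ n, (D n).Fn = (D 0).Fn
  gl : ∀ n, (D n).gl = (D 0).gl
  bef : ∀ n, (D n).bef = (D 0).bef
  aft : ∀ n, (D n).aft = (D 0).aft
  Tr : Fam fun n => {x : (G × S × G) × List S × ℕ | (D n).Tr x.1.1 x.1.2.1 x.2.1 x.2.2 x.1.2.2}

namespace Eff

open Primrec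

variable {D : ℕ → Sys S G} (h : Eff D) {α : Type} [Primcodable α]
include h

lemma pieces {n : α → ℕ} {σ : α → S} {l : α → List G} (hn : Primrec n) (hσ : Primrec σ)
    (hl : Primrec l) : Primrec fun a => (D (n a)).pieces (σ a) (l a) := by
  refine list_flatMap hl (list_append.comp (prim_replicate.comp (h.R.comp (hn.comp fst))
    ((dom_finite fun x : S × G => Ltr.run x.1 x.2).comp ((hσ.comp fst).pair snd)))
    ((dom_finite fun x : S × G => [Ltr.sep x.1 x.2]).comp ((hσ.comp fst).pair snd))).to₂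

lemma P {n : α → ℕ} {σ : α → S} (hn : Primrec n) (hσ : Primrec σ) :
    Primrec fun a => (D (n a)).P (σ a) :=
  (list_cons.comp ((dom_finite Ltr.a).comp hσ) (list_append.comp
    (h.pieces hn hσ (const (D 0).gl)) ((dom_finite fun x : S => [Ltr.z x]).comp hσ))).of_eq
    fun a => by rw [Sys.P, h.gl (n a)]

lemma pre {n : α → ℕ} {σ : α → S} {g : α → G} (hn : Primrec n) (hσ : Primrec σ)
    (hg : Primrec g) : Primrec fun a => (D (n a)).pre (σ a) (g a) :=
  (list_cons.comp ((dom_finite Ltr.a).comp hσ)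
    (h.pieces hn hσ ((dom_finite (D 0).bef).comp hg))).of_eq fun a => by rw [Sys.pre, h.bef (n a)]

lemma suf {n s : α → ℕ} {σ : α → S} {g : α → G} (hn : Primrec n) (hσ : Primrec σ)
    (hg : Primrec g) (hs : Primrec s) : Primrec fun a => (D (n a)).suf (σ a) (g a) (s a) :=
  (list_append.comp (prim_replicate.comp (nat_sub.comp (h.R.comp hn) hs)
    ((dom_finite fun x : S × G => Ltr.run x.1 x.2).comp (hσ.pair hg)))
    (list_cons.comp ((dom_finite fun x : S × G => Ltr.sep x.1 x.2).comp (hσ.pair hg))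
      (list_append.comp (h.pieces hn hσ ((dom_finite (D 0).aft).comp hg))
        ((dom_finite fun x : S => [Ltr.z x]).comp hσ)))).of_eq
    fun a => by rw [Sys.suf, h.aft (n a)]

lemma through {n : α → ℕ} {σ : α → S} {w : α → List S} {u : α → List (Ltr S G)} (hn : Primrec n)
    (hσ : Primrec σ) (hw : Primrec w) (hu : Primrec u) :
    Primrec fun a => (D (n a)).through (σ a) (w a) (u a) := by
  refine (list_cons.comp ((dom_finite Ltr.b).comp hσ) (list_append.comp (list_flatMap hw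
    (list_append.comp (h.P (hn.comp fst) snd)
      ((dom_finite fun x : S => [Ltr.b x]).comp snd)).to₂) hu)).of_eq fun a => ?_
  generalize σ a = ρ
  induction w a generalizing ρ with
  | nil => rfl
  | cons τ l ih => simp [Sys.through, ← ih τ]

lemma Ps {n : α → ℕ} {w : α → List S} (hn : Primrec n) (hw : Primrec w) :
    Primrec fun a => (D (n a)).Ps (w a) :=
  list_flatMap hw (h.P (hn.comp fst) snd).to₂

lemma endW : Fam fun n => {x : G × List (Ltr S G) | (D n).EndW x.1 x.2} := by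
  refine ((Fam.univ.image (g := fun n (x : G × S) => (x.1, (D n).pre x.2 x.1))
    ((fst.comp snd).pair (h.pre fst (snd.comp snd) (fst.comp snd))).to₂).union
    ((Fam.const (Set.toFinite {x : G × S | (D 0).Fn x.1 x.2})).image
      (g := fun n (x : G × S) => (x.1, (D n).P x.2))
      ((fst.comp snd).pair (h.P fst (snd.comp snd))).to₂)).of_iff ?_
  rintro n ⟨g, u⟩
  simp only [Set.mem_union, Set.mem_image, Set.mem_univ, true_and, Prod.mk.injEq, Prod.exists,
    Set.mem_ofPred_eq, Sys.EndW, h.Fn n]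
  constructor
  · rintro (⟨g', τ, rfl, rfl⟩ | ⟨g', τ, h1, rfl, rfl⟩)
    · exact ⟨τ, Or.inl rfl⟩
    · exact ⟨τ, Or.inr ⟨h1, rfl⟩⟩
  · rintro ⟨τ, rfl | ⟨h1, rfl⟩⟩
    · exact Or.inl ⟨g, τ, rfl, rfl⟩
    · exact Or.inr ⟨g, τ, h1, rfl, rfl⟩

lemma basic : Fam fun n => {w | (D n).Basic w} := by
  classical
  have h1 : Fam fun _ => {[Ltr.t], [Ltr.b (D 0).nu]} ∪
      Set.range fun x : S × G => [Ltr.run x.1 x.2] :=
    Fam.const ((Set.toFinite _).union (Set.finite_range _))
  have h2 := (Fam.const (Set.toFinite {σ | (D 0).ok σ})).image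
    (g := fun n σ => (D n).P σ ++ [Ltr.b σ])
    (list_append.comp (h.P fst snd) ((dom_finite fun x : S => [Ltr.b x]).comp snd)).to₂
  have h3 := Fam.univ.image (g := fun n (x : S × S) => Ltr.b x.1 :: (D n).P x.2)
    (list_cons.comp ((dom_finite Ltr.b).comp (fst.comp snd)) (h.P fst (snd.comp snd))).to₂
  have h4 := (((Fam.univ (α := S)).prod h.endW).sep (R := fun _ x => (D 0).Sw x.1 x.2.1)
    ((pred_finite fun y : S × G => (D 0).Sw y.1 y.2).comp
      ((fst.comp snd).pair (fst.comp (snd.comp snd))))).image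
    (g := fun n x => (D n).P x.1 ++ Ltr.b x.1 :: x.2.2)
    (list_append.comp (h.P fst (fst.comp snd)) (list_cons.comp
      ((dom_finite Ltr.b).comp (fst.comp snd)) (snd.comp (snd.comp snd)))).to₂
  have h5 := ((h.Tr.prod ((Fam.le h.R).prod h.endW)).sep
    (R := fun _ x => x.2.1 ≤ x.1.2.2 ∧ x.1.1.2.2 = x.2.2.1)
    (PrimrecPred.and
      (nat_le.comp (fst.comp (snd.comp snd)) (snd.comp (snd.comp (fst.comp snd))))
      (Primrec.eq.comp (snd.comp (snd.comp (fst.comp (fst.comp snd))))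
        (fst.comp (snd.comp (snd.comp snd)))))).image
    (g := fun n x => (D n).suf x.1.1.2.1 x.1.1.1 x.2.1 ++ (D n).through x.1.1.2.1 x.1.2.1 x.2.2.2)
    (list_append.comp
      (h.suf fst (fst.comp (snd.comp (fst.comp (fst.comp snd))))
        (fst.comp (fst.comp (fst.comp snd))) (fst.comp (snd.comp snd)))
      (h.through fst (fst.comp (snd.comp (fst.comp (fst.comp snd))))
        (fst.comp (snd.comp (fst.comp snd))) (snd.comp (snd.comp (snd.comp snd))))).to₂
  refine (h1.union (h2.union (h3.union (h4.union h5)))).of_iff fun n w => ?_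
  constructor
  · rintro (((rfl | rfl) | ⟨x, rfl⟩) | ⟨σ, a1, rfl⟩ | ⟨x, -, rfl⟩ | ⟨x, ⟨⟨-, a1⟩, a2⟩, rfl⟩ |
      ⟨x, ⟨⟨a1, -, a2⟩, a3, a4⟩, rfl⟩)
    · exact Sys.Basic.t
    · rw [← h.nu n]; exact Sys.Basic.q
    · exact Sys.Basic.run _ _
    · exact Sys.Basic.alpha _ (by rw [h.ok n]; exact a1)
    · exact Sys.Basic.beta _ _
    · exact Sys.Basic.sw _ _ _ (by rw [h.Sw n]; exact a2) a1
    · exact Sys.Basic.tr _ _ _ _ _ _ _ a1 a3 (by rw [a4]; exact a2)
  · intro hw
    cases hw with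
    | t => exact Or.inl (Or.inl (Or.inl rfl))
    | run σ g => exact Or.inl (Or.inr ⟨(σ, g), rfl⟩)
    | alpha σ a1 => exact Or.inr (Or.inl ⟨σ, by rw [h.ok n] at a1; exact a1, rfl⟩)
    | beta σ τ => exact Or.inr (Or.inr (Or.inl ⟨(σ, τ), trivial, rfl⟩))
    | q => exact Or.inl (Or.inl (Or.inr (by rw [h.nu n]; rfl)))
    | sw σ g u a1 a2 =>
      exact Or.inr (Or.inr (Or.inr (Or.inl
        ⟨(σ, g, u), ⟨⟨trivial, a2⟩, by rw [h.Sw n] at a1; exact a1⟩, rfl⟩)))
    | tr g σ w s g' s' u a1 a2 a3 =>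
      exact Or.inr (Or.inr (Or.inr (Or.inr ⟨(((g, σ, g'), w, s), s', g', u),
        ⟨⟨a1, a2.trans ((D n).le_R _ _ _ _ _ a1), a3⟩, a2, rfl⟩, rfl⟩)))

lemma junk : Fam fun n => {w | (D n).Junk w} := by
  have h1 := Fam.const (List.finite_length_le S 3)
  refine (((h1.prod (h1.prod ((Fam.const (Set.finite_singleton [])).union h.basic))).image
    (g := fun n x => (D n).Ps x.1 ++ x.2.2 ++ (D n).Ps x.2.1)
    (list_append.comp (list_append.comp (h.Ps fst (fst.comp snd)) (snd.comp (snd.comp snd)))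
      (h.Ps fst (fst.comp (snd.comp snd)))).to₂).sep (R := fun _ w => ¬ w.IsChain Sys.Adj)
    ((prim_chain Sys.Adj).comp snd).not).of_iff fun n w => ?_
  constructor
  · rintro ⟨⟨x, ⟨a1, a2, a3⟩, rfl⟩, a4⟩
    exact ⟨x.1, x.2.1, x.2.2, a1, a2, a3, rfl, a4⟩
  · rintro ⟨u, v, y, a1, a2, a3, rfl, a4⟩
    exact ⟨⟨(u, v, y), ⟨a1, a2, a3⟩, rfl⟩, a4⟩

theorem famY : Fam fun n => (D n).Y := h.basic.union h.junk

theorem famX : Fam fun n => (D n).X := by
  classical
  refine (h.famY.sep (R := fun n w => ¬ w = Ltr.b (D 0).nu :: (D n).P (D 0).nu)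
    (Primrec.eq.comp snd (list_cons.comp (const _) (h.P fst (const _)))).not).of_iff
    fun n w => ?_
  rw [← h.nu n]
  rfl

end Eff

end Pool.Agent.Lib.MP_60077b_lc
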