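import Pool.Agent.Lib.MP_60077b_lc.Sim
import Pool.Agent.Lib.MP_60077b_lc.Eff

/-! Layer D, part 2: the reduction from the halting problem. -/

namespace Pool.Agent.Lib.MP_60077b_lc

variable {Z : Type} {n : ℕ}

lemma QM.E.congr {Q Q' : QM Z n} (h1 : Q.z0 = Q'.z0) (h2 : Q.nxt = Q'.nxt) {σ τ : Sy Z}
    (h : Q.E σ τ) : Q'.E σ τ := by
  cases h with
  | nn => exact QM.E.nn
  | nM b => rw [h1]; exact QM.E.nM b
  | hh => exact QM.E.hh
  | MA z => exact QM.E.MA z
  | AB x => exact QM.E.AB x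
  | BA x => exact QM.E.BA x
  | MM z b => rw [h2]; exact QM.E.MM z b
  | BM x b => rw [h2]; exact QM.E.BM x b
  | Bh x => exact QM.E.Bh x

lemma QM.Sw.congr {Q Q' : QM Z n} (h1 : ∀ x, 2 - Q.d x = 2 - Q'.d x) {σ : Sy Z} {g : St Z n}
    (h : Q.Sw σ g) : Q'.Sw σ g := by
  cases h with
  | last => exact QM.Sw.last _
  | G x => exact QM.Sw.G x
  | L x e he => exact QM.Sw.L x e (he.trans (h1 x))
  | LB x => exact QM.Sw.LB x
  | I k => exact QM.Sw.I k
  | H x => exact QM.Sw.H x

lemma Us_eq (x : Z × Bool) (i : ℕ) : Us x i = (List.replicate i [Sy.A x, Sy.B x]).flatten := by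
  induction i with
  | zero => rfl
  | succ i ih => simp [Us, ih, List.replicate_succ]

@[instance_reducible] noncomputable def primFin (α : Type) [Finite α] : Primcodable α :=
  Primcodable.ofEquiv _ (Finite.equivFin α)

open Primrec in
lemma eff_of [Finite Z] [Primcodable (Sy Z)] [Primcodable (St Z n)]
    [Primcodable (Ltr (Sy Z) (St Z n))] (Q : ℕ → QM Z n) (h1 : ∀ a, (Q a).z0 = (Q 0).z0)
    (h2 : ∀ a, (Q a).nxt = (Q 0).nxt) (h3 : ∀ a x, 2 - (Q a).d x = 2 - (Q 0).d x)
    (h4 : Primrec fun a => (Q a).Dm) (h5 : ∀ x, ∃ c0 c1, ∀ a, (Q a).d x = c0 + c1 * a) :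
    Eff fun a => (Q a).sys where
  R := nat_add.comp (nat_mul.comp (const 2) h4) (const 2)
  nu := fun _ => rfl
  ok := fun _ => rfl
  gl := fun _ => rfl
  bef := fun _ => rfl
  aft := fun _ => rfl
  Sw := fun a => by
    funext σ g
    exact propext ⟨QM.Sw.congr (h3 a), QM.Sw.congr fun x => (h3 a x).symm⟩
  Fn := fun a => by
    funext g τ
    cases g with
    | last σ =>
      exact propext (not_congr ⟨QM.E.congr (h1 a) (h2 a), QM.E.congr (h1 a).symm (h2 a).symm⟩)
    | _ => rfl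
  Tr := by
    let := primFin (Option (Z × Bool) × Bool × (Z × Bool))
    have h6 : ∀ o, ∃ c0 c1, ∀ a, (Q a).dd o = c0 + c1 * a := by
      rintro (_ | x)
      · exact ⟨1, 0, fun a => by simp [QM.dd]⟩
      · exact h5 x
    choose c0 c1 h6 using h6
    have hd : Primrec fun x : ℕ × (Option (Z × Bool) × Bool × (Z × Bool)) => (Q x.1).dd x.2.1 :=
      (nat_add.comp ((dom_finite fun y : Option (Z × Bool) × Bool × (Z × Bool) => c0 y.1).comp snd)
        (nat_mul.comp ((dom_finite fun y : Option (Z × Bool) × Bool × (Z × Bool) =>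
          c1 y.1).comp snd) fst)).of_eq fun x => (h6 _ _).symm
    have a1 : Fam fun _ => {x : (St Z n × Sy Z × St Z n) × List (Sy Z) × ℕ |
        (Q 0).Tr x.1.1 x.1.2.1 x.2.1 x.2.2 x.1.2.2 ∧ ∀ b, x.1.2.2 = St.F b → x.1.1 = St.F b} := by
      refine Fam.const ((Set.finite_univ.prod ((List.finite_length_le (Sy Z) 1).prod
        (Set.finite_le_nat 2))).subset ?_)
      rintro ⟨⟨g, σ, g'⟩, w, s⟩ ⟨b1, b2⟩
      dsimp only at b1 b2
      cases b1 with
      | finG => simp at b2
      | finL => simp at b2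
      | unit g o f => exact ⟨trivial, by simp, by cases g <;> cases f <;> simp [wt]⟩
      | fu g => exact ⟨trivial, by simp, by cases g <;> simp⟩
      | _ => simp
    have a2 := Fam.univ.image (g := fun a (y : Option (Z × Bool) × Bool × (Z × Bool)) =>
      (((St.C true y.1 0 y.2.1 0 : St Z n), Sy.M y.2.2, (St.F true : St Z n)),
        Us y.2.2 ((Q a).dd y.1), 2 * (Q a).dd y.1))
      (((dom_finite fun y : Option (Z × Bool) × Bool × (Z × Bool) =>
        ((St.C true y.1 0 y.2.1 0 : St Z n), Sy.M y.2.2, (St.F true : St Z n))).comp snd).pair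
        (((list_flatten.comp (prim_replicate.comp hd ((dom_finite
          fun y : Option (Z × Bool) × Bool × (Z × Bool) => [Sy.A y.2.2, Sy.B y.2.2]).comp
            snd))).of_eq fun x => (Us_eq _ _).symm).pair (nat_mul.comp (const 2) hd))).to₂
    have a3 := Fam.univ.image (g := fun a (y : Option (Z × Bool) × Bool × (Z × Bool)) =>
      (((St.C false y.1 0 y.2.1 0 : St Z n), Sy.M y.2.2, (St.F false : St Z n)),
        ([] : List (Sy Z)), (Q a).dd y.1 - 2))
      (((dom_finite fun y : Option (Z × Bool) × Bool × (Z × Bool) =>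
        ((St.C false y.1 0 y.2.1 0 : St Z n), Sy.M y.2.2, (St.F false : St Z n))).comp snd).pair
        ((const []).pair (nat_sub.comp hd (const 2)))).to₂
    refine (a1.union (a2.union a3)).of_iff ?_
    rintro a ⟨⟨g, σ, g'⟩, w, s⟩
    constructor
    · rintro (⟨b1, b2⟩ | ⟨y, -, b1⟩ | ⟨y, -, b1⟩)
      · cases b1 with
        | skip g o e e' f k y he => exact QM.Tr.skip g o e e' f k y he
        | unit g o f k y => exact QM.Tr.unit g o f k y
        | mark g o f k k' y hk => exact QM.Tr.mark g o f k k' y hk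
        | finG => simp at b2
        | finL => simp at b2
        | fu g y => exact QM.Tr.fu g y
        | hu y => exact QM.Tr.hu y
      · cases b1
        exact QM.Tr.finG _ _ _
      · cases b1
        exact QM.Tr.finL _ _ _
    · intro b1
      cases b1 with
      | skip g o e e' f k y he => exact Or.inl ⟨QM.Tr.skip g o e e' f k y he, by simp⟩
      | unit g o f k y => exact Or.inl ⟨QM.Tr.unit g o f k y, by simp⟩
      | mark g o f k k' y hk => exact Or.inl ⟨QM.Tr.mark g o f k k' y hk, by simp⟩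
      | finG o f y => exact Or.inr (Or.inl ⟨(o, f, y), trivial, rfl⟩)
      | finL o f y => exact Or.inr (Or.inr ⟨(o, f, y), trivial, rfl⟩)
      | fu g y => exact Or.inl ⟨QM.Tr.fu g y, by simp⟩
      | hu y => exact Or.inl ⟨QM.Tr.hu y, by simp⟩

lemma Prog.dl_aff (k : List Prog) (b : Bool) :
    (∃ c, ∀ a, Prog.dl a k b = c) ∨ ∀ a, Prog.dl a k b = a + 2 := by
  rcases k with _ | ⟨_ | _ | _ | _ | _, k⟩
  · exact Or.inl ⟨_, fun _ => rfl⟩
  · exact Or.inl ⟨_, fun _ => rfl⟩
  · exact Or.inl ⟨_, fun _ => rfl⟩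
  · exact Or.inr fun _ => rfl
  · exact Or.inl ⟨_, fun _ => rfl⟩
  · exact Or.inl ⟨_, fun _ => rfl⟩

lemma Prog.qd_aff (P : Prog) (x : Prog.QZ P × Bool) :
    (∃ c, ∀ a, Prog.qd P a x = c) ∨ ∀ a, Prog.qd P a x = a + 2 := by
  unfold Prog.qd
  split_ifs
  · exact Or.inl ⟨_, fun _ => rfl⟩
  · exact Or.inl ⟨_, fun _ => rfl⟩
  · exact Prog.dl_aff _ _
  · exact Or.inl ⟨_, fun _ => rfl⟩

lemma image2_map {L L' : Type} (e : L → L') (X Z : Set (List L)) :
    Set.image2 (· ++ ·) (List.map e '' X) (List.map e '' Z) =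
      List.map e '' Set.image2 (· ++ ·) X Z :=
  (Set.image_image2_distrib fun _ _ => List.map_append).symm

open Nat.Partrec (Code) in
open Nat.Partrec.Code in
/-- The reduction: a finite solution if the machine halts, no solution otherwise. -/
theorem reduction : ∃ (m : ℕ) (fX fY : ℕ → List (List (Fin m))), Primrec fX ∧ Primrec fY ∧
    (∀ a, ∀ w ∈ fX a ++ fY a, w ≠ []) ∧ ∀ c : Code,
      ((eval c 0).Dom → ∃ Z : Set (List (Fin m)), Z.Finite ∧ Z.Nonempty ∧
        Set.image2 (· ++ ·) {w | w ∈ fX (Encodable.encode c)} Z =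
          Set.image2 (· ++ ·) Z {w | w ∈ fY (Encodable.encode c)}) ∧
      ((∃ Z : Set (List (Fin m)), Z.Nonempty ∧
        Set.image2 (· ++ ·) {w | w ∈ fX (Encodable.encode c)} Z =
          Set.image2 (· ++ ·) Z {w | w ∈ fY (Encodable.encode c)}) → (eval c 0).Dom) := by
  have hg : Primrec₂ fun a k : ℕ =>
      cond (evaln k (Denumerable.ofNat Code a) 0).isSome 0 1 :=
    (Primrec.cond (Primrec.option_isSome.comp (primrec_evaln.comp
      ((Primrec.snd.pair ((Primrec.ofNat Code).comp Primrec.fst)).pair (Primrec.const 0))))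
      (Primrec.const 0) (Primrec.const 1)).to₂
  obtain ⟨P, hP⟩ := Prog.exists_search hg
  have hP' : ∀ c : Code, (eval c 0).Dom ↔
      ∃ T, ((Prog.sstep (Encodable.encode c))^[T] ([P], fun _ => 0)).1 = [] := by
    intro c
    rw [hP, Part.dom_iff_mem]
    simp only [evaln_complete, Denumerable.ofNat_encode]
    constructor
    · rintro ⟨x, k, h⟩
      exact ⟨k, by rw [Option.mem_def.mp h]; rfl⟩
    · rintro ⟨k, h⟩
      cases h' : evaln k c 0 with
      | none => simp [h'] at h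
      | some x => exact ⟨x, k, h'⟩
  let := primFin (Sy (Prog.QZ P))
  let := primFin (St (Prog.QZ P) (Prog.nreg P))
  let := primFin (Ltr (Sy (Prog.QZ P)) (St (Prog.QZ P) (Prog.nreg P)))
  have hE := eff_of (Prog.qm P) (fun _ => rfl) (fun _ => rfl)
    (fun a x => by
      change 2 - Prog.qd P a x = 2 - Prog.qd P 0 x
      rcases P.qd_aff x with ⟨c, h⟩ | h
      · rw [h, h]
      · rw [h, h]; omega)
    (Primrec.nat_add.comp Primrec.id (Primrec.const 2))
    (fun x => by
      rcases P.qd_aff x with ⟨c, h⟩ | h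
      · exact ⟨c, 0, fun a => (h a).trans (by omega)⟩
      · exact ⟨2, 1, fun a => (h a).trans (by omega)⟩)
  let e := Finite.equivFin (Ltr (Sy (Prog.QZ P)) (St (Prog.QZ P) (Prog.nreg P)))
  have he : Primrec₂ fun (_ : ℕ) (w : List (Ltr (Sy (Prog.QZ P)) (St (Prog.QZ P) (Prog.nreg P)))) =>
      w.map e :=
    (Primrec.list_map Primrec.snd ((Primrec.dom_finite e).comp Primrec.snd).to₂).to₂
  obtain ⟨fX, x1, x2⟩ := hE.famX.image he
  obtain ⟨fY, y1, y2⟩ := hE.famY.image he
  have x3 : ∀ a, {w | w ∈ fX a} = List.map e '' (Prog.qm P a).sys.X := fun a => Set.ext (x2 a)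
  have y3 : ∀ a, {w | w ∈ fY a} = List.map e '' (Prog.qm P a).sys.Y := fun a => Set.ext (y2 a)
  refine ⟨_, fX, fY, x1, y1, fun a w hw => ?_, fun c => ⟨fun h => ?_, fun h => ?_⟩⟩
  · rcases List.mem_append.mp hw with hw | hw
    · obtain ⟨v, hv, rfl⟩ := (x2 a w).mp hw
      simpa using (Prog.qm P a).sys.Y_ne_nil hv.1
    · obtain ⟨v, hv, rfl⟩ := (y2 a w).mp hw
      simpa using (Prog.qm P a).sys.Y_ne_nil hv
  · obtain ⟨T, hT⟩ := (hP' c).mp h
    obtain ⟨j, V, hV⟩ := P.closed_of_halts hT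
    obtain ⟨b1, b2⟩ := Sys.positive _ hV
    refine ⟨List.map e '' _, (Sys.finite_Sol _ (hE.famY.finite _) hV).image _, b1.image _, ?_⟩
    rw [x3, y3, image2_map, image2_map, b2]
  · by_contra hn
    rw [hP'] at hn
    push Not at hn
    obtain ⟨Z, b1, b2⟩ := h
    have hs : Function.Surjective (List.map e) := e.surjective.list_map
    obtain ⟨Z, rfl⟩ := hs.image_surjective Z
    rw [x3, y3, image2_map, image2_map] at b2
    exact Sys.negative _ (P.attack_of_runs hn) Z (Set.image_nonempty.mp b1)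
      ((e.injective.list_map).image_injective b2)

/-- No computable function separates the pairs with a finite solution from those with none. -/
theorem inseparable : ∃ m : ℕ, ∀ f : List (List (Fin m)) × List (List (Fin m)) → Bool,
    Computable f →
    (∀ X Y : List (List (Fin m)), (∀ w ∈ X ++ Y, w ≠ []) →
      (∃ Z : Set (List (Fin m)), Z.Finite ∧ Z.Nonempty ∧
        Set.image2 (· ++ ·) {w | w ∈ X} Z = Set.image2 (· ++ ·) Z {w | w ∈ Y}) →
      f (X, Y) = true) →
    (∀ X Y : List (List (Fin m)), (∀ w ∈ X ++ Y, w ≠ []) → f (X, Y) = true →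
      ∃ Z : Set (List (Fin m)), Z.Nonempty ∧
        Set.image2 (· ++ ·) {w | w ∈ X} Z = Set.image2 (· ++ ·) Z {w | w ∈ Y}) → False := by
  obtain ⟨m, fX, fY, h1, h2, h3, h4⟩ := reduction
  refine ⟨m, fun f hf a1 a2 => ComputablePred.halting_problem 0 ?_⟩
  refine ComputablePred.computable_iff.mpr ⟨_, hf.comp
    ((h1.comp Primrec.encode).pair (h2.comp Primrec.encode)).to_comp, ?_⟩
  funext c
  exact propext ⟨fun h => a1 _ _ (h3 _) ((h4 c).1 h), fun h => (h4 c).2 (a2 _ _ (h3 _) h)⟩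

end Pool.Agent.Lib.MP_60077b_lc
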