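import Pool.Agent.Lib.MP_60077b_lc.Pos

/-! Layer A, part 3: if the attacker has an escape-free way to a dead symbol for every window
size, there is no solution. -/

namespace Pool.Agent.Lib.MP_60077b_lc

variable {S G : Type}

namespace Sys

variable (D : Sys S G)

lemma t_not_mem_pieces (σ : S) (l : List G) : Ltr.t ∉ D.pieces σ l := by
  intro h
  rcases D.inner_pieces σ l _ h with ⟨_, _, h⟩ | ⟨_, _, h⟩ <;> simp at h

lemma t_not_mem_P (σ : S) : Ltr.t ∉ D.P σ := by simp [P, t_not_mem_pieces]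

lemma t_not_mem_pre (σ : S) (g : G) : Ltr.t ∉ D.pre σ g := by simp [pre, t_not_mem_pieces]

lemma t_not_mem_suf (σ : S) (g : G) (s : ℕ) : Ltr.t ∉ D.suf σ g s := by
  simp [suf, t_not_mem_pieces]

lemma t_not_mem_betas (σ : S) (c : List S) : Ltr.t ∉ D.betas σ c := by
  induction c generalizing σ with
  | nil => simp [betas]
  | cons τ c ih => simp [betas, ih, t_not_mem_P]

lemma t_not_mem_through (σ : S) (w : List S) {u : List (Ltr S G)} (hu : Ltr.t ∉ u) :
    Ltr.t ∉ D.through σ w u := by
  induction w generalizing σ with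
  | nil => simp [through, hu]
  | cons τ c ih => simp [through, ih, t_not_mem_P]

lemma t_not_mem_endW {g : G} {u : List (Ltr S G)} (h : D.EndW g u) : Ltr.t ∉ u := by
  obtain ⟨τ, rfl | ⟨-, rfl⟩⟩ := h
  · exact D.t_not_mem_pre _ _
  · exact D.t_not_mem_P _

lemma t_not_mem_Ps (u : List S) : Ltr.t ∉ D.Ps u := by simp [Ps, t_not_mem_P]

lemma basic_t {y : List (Ltr S G)} (h : D.Basic y) (ht : Ltr.t ∈ y) : y = [Ltr.t] := by
  cases h with
  | t => rfl
  | run => simp at ht
  | alpha => simp [t_not_mem_P] at ht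
  | beta => simp [t_not_mem_P] at ht
  | q => simp at ht
  | sw σ g u _ hu => simp [t_not_mem_P, D.t_not_mem_endW hu] at ht
  | tr g σ w s g' s' u _ _ hu =>
    simp [t_not_mem_suf, D.t_not_mem_through σ w (D.t_not_mem_endW hu)] at ht

lemma junk_prefix {x z C : List (Ltr S G)} {r : ℕ} (hx : D.Junk x) (hC : C.IsChain Adj)
    (h : x ++ z = C ++ List.replicate r Ltr.t) :
    ∃ ρ r', C = D.P ρ ∧ r = r' + 1 ∧ z = List.replicate r' Ltr.t := by
  obtain ⟨u, v, y, -, -, hy, hx, hc⟩ := hx
  rcases List.append_eq_append_iff.mp h with ⟨a, h1, -⟩ | ⟨a, h1, h2⟩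
  · rw [h1] at hC
    exact absurd hC.left_of_append hc
  obtain ⟨ha, hz⟩ := List.replicate_eq_append_iff.mp h2 |>.2
  have hr := (List.replicate_eq_append_iff.mp h2).1
  rcases List.eq_nil_or_concat a with rfl | ⟨a', e, rfl⟩
  · rw [List.append_nil] at h1
    rw [h1] at hc
    exact absurd hC hc
  rw [List.concat_eq_append] at *
  have he : e = Ltr.t := by
    have : e ∈ List.replicate (a' ++ [e]).length (Ltr.t : Ltr S G) := by rw [← ha]; simp
    exact List.eq_of_mem_replicate this
  subst he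
  have hv : v = [] := by
    rcases List.eq_nil_or_concat v with rfl | ⟨v', ρ, rfl⟩
    · rfl
    · have := congrArg List.getLast? (hx.symm.trans h1)
      have e1 : D.Ps u ++ y ++ D.Ps (v'.concat ρ) =
          (D.Ps u ++ y ++ D.Ps v' ++ Ltr.a ρ :: D.pieces ρ D.gl) ++ [Ltr.z ρ] := by
        simp [Ps, P]
      rw [e1, ← List.append_assoc, List.getLast?_concat, List.getLast?_concat] at this
      simp at this
  subst hv
  have hm : Ltr.t ∈ x := by rw [h1]; simp
  have hy' : y = [Ltr.t] := by
    rw [hx] at hm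
    simp only [List.mem_append, t_not_mem_Ps, false_or, or_false] at hm
    rcases hy with rfl | hy
    · simp at hm
    · exact D.basic_t hy hm
  subst hy'
  have h3 : D.Ps u = C ++ a' := by
    have := hx.symm.trans h1
    simpa [Ps, ← List.append_assoc] using this
  have h4 : a' = [] := by
    rcases a' with _ | ⟨e, a'⟩
    · rfl
    · have h5 : e ∈ List.replicate (e :: a' ++ [Ltr.t]).length (Ltr.t : Ltr S G) := by
        rw [← ha]; simp
      have h6 := List.eq_of_mem_replicate h5
      subst h6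
      exact absurd (by rw [h3]; simp) (D.t_not_mem_Ps u)
  subst h4
  rw [List.append_nil] at h3
  rcases u with _ | ⟨ρ, _ | ⟨ρ', u⟩⟩
  · rw [hx] at hc
    simp [Ps] at hc
  · exact ⟨ρ, z.length, by simpa [Ps] using h3.symm, by simp at hr; omega, hz⟩
  · rw [← h3] at hC
    exact absurd (by simpa [Ps] using hC) (D.not_chain_PP [] (D.Ps u) ρ ρ')

lemma P_match {σ ρ : S} {u u' : List (Ltr S G)} (h : D.P σ ++ u = D.P ρ ++ u') :
    σ = ρ ∧ u = u' := by
  have h1 : σ = ρ := by simpa [P] using congrArg List.head? h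
  subst h1
  exact ⟨rfl, List.append_cancel_left h⟩

lemma endW_match {g : G} {u z : List (Ltr S G)} (hu : D.EndW g u) {ρ : S} {u' : List (Ltr S G)}
    (h : u ++ z = D.P ρ ++ u') : z = D.suf ρ g 0 ++ u' ∨ (D.Fn g ρ ∧ z = u') := by
  obtain ⟨τ, rfl | ⟨hf, rfl⟩⟩ := hu
  · have h1 : τ = ρ := by simpa [P, pre] using congrArg List.head? h
    subst h1
    rw [← D.pre_suf τ g, List.append_assoc] at h
    exact Or.inl (List.append_cancel_left h)
  · obtain ⟨rfl, rfl⟩ := D.P_match h
    exact Or.inr ⟨hf, rfl⟩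

lemma b_ne_replicate {σ : S} {l : List (Ltr S G)} {r : ℕ} :
    Ltr.b σ :: l ≠ List.replicate r Ltr.t := by
  cases r <;> simp [List.replicate_succ]

lemma through_match {g : G} {u z : List (Ltr S G)} (hu : D.EndW g u) {r : ℕ} (w : List S)
    (σ : S) (c : List S) (h : D.through σ w u ++ z = D.betas σ c ++ List.replicate r Ltr.t) :
    ∃ τ c', c = w ++ τ :: c' ∧ (z = D.suf τ g 0 ++ D.betas τ c' ++ List.replicate r Ltr.t ∨
      (D.Fn g τ ∧ z = D.betas τ c' ++ List.replicate r Ltr.t)) := by
  induction w generalizing σ c with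
  | nil =>
    rcases c with _ | ⟨τ, c⟩
    · exact absurd h b_ne_replicate
    · simp only [through, betas, List.cons_append, List.cons.injEq, true_and,
        List.append_assoc] at h
      exact ⟨τ, c, rfl, by simpa using D.endW_match hu h⟩
  | cons ρ w ih =>
    rcases c with _ | ⟨τ, c⟩
    · exact absurd h b_ne_replicate
    · simp only [through, betas, List.cons_append, List.cons.injEq, true_and,
        List.append_assoc] at h
      obtain ⟨rfl, h'⟩ := D.P_match h
      obtain ⟨τ, c', rfl, h''⟩ := ih ρ c h'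
      exact ⟨τ, c', rfl, h''⟩

lemma rep_match {σ σ' : S} {g g' : G} {A B : List (Ltr S G)} (m n : ℕ)
    (h : List.replicate m (Ltr.run σ' g') ++ Ltr.sep σ' g' :: A =
      List.replicate n (Ltr.run σ g) ++ Ltr.sep σ g :: B) :
    σ' = σ ∧ g' = g ∧ m = n ∧ A = B := by
  induction m generalizing n with
  | zero =>
    cases n with
    | zero => simpa [and_assoc] using h
    | succ n => simp [List.replicate_succ] at h
  | succ m ih =>
    cases n with
    | zero => simp [List.replicate_succ] at h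
    | succ n =>
      simp only [List.replicate_succ, List.cons_append, List.cons.injEq] at h
      obtain ⟨h1, h2, h3, h4⟩ := ih n h.2
      exact ⟨h1, h2, by omega, h4⟩

lemma suf_match {σ σ' : S} {g g' : G} {s s' : ℕ} {u u' : List (Ltr S G)} (hs : s ≤ D.R)
    (hs' : s' ≤ D.R) (h : D.suf σ' g' s' ++ u = D.suf σ g s ++ u') :
    σ' = σ ∧ g' = g ∧ s' = s ∧ u = u' := by
  simp only [suf, List.append_assoc, List.cons_append] at h
  obtain ⟨rfl, rfl, h3, h4⟩ := rep_match _ _ h
  exact ⟨rfl, rfl, by omega, by simpa using h4⟩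

lemma first_alpha {x z : List (Ltr S G)} (hx : x ∈ D.Y) {σ : S} {c : List S} {r : ℕ}
    (h : x ++ z = D.F σ c ++ List.replicate r Ltr.t) :
    (D.ok σ ∧ ∃ τ c', c = τ :: c' ∧ z = D.F τ c' ++ List.replicate r Ltr.t) ∨
    (∃ g τ c', D.Sw σ g ∧ c = τ :: c' ∧
      (z = D.suf τ g 0 ++ D.betas τ c' ++ List.replicate r Ltr.t ∨
        (D.Fn g τ ∧ z = D.betas τ c' ++ List.replicate r Ltr.t))) ∨
    (c = [] ∧ ∃ r', r = r' + 1 ∧ z = List.replicate r' Ltr.t) := by
  rcases hx with hx | hx
  · cases hx with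
    | t => simp [F, P] at h
    | run => simp [F, P] at h
    | alpha ρ hρ =>
      rw [F, List.append_assoc, List.append_assoc] at h
      obtain ⟨rfl, h'⟩ := D.P_match h
      rcases c with _ | ⟨τ, c⟩
      · exact absurd h' b_ne_replicate
      · exact Or.inl ⟨hρ, τ, c, rfl, by simpa [betas, F] using h'⟩
    | beta => simp [F, P] at h
    | q => simp [F, P] at h
    | sw ρ g u hs hu =>
      rw [F, List.append_assoc, List.append_assoc] at h
      obtain ⟨rfl, h'⟩ := D.P_match h
      obtain ⟨τ, c', rfl, h''⟩ := D.through_match hu [] ρ c h'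
      exact Or.inr (Or.inl ⟨g, τ, c', hs, rfl, h''⟩)
    | tr g ρ w s g' s' u _ _ _ =>
      obtain ⟨y, l, h1, hy⟩ := D.suf_head ρ g s' (D.through ρ w u)
      rw [h1] at h
      rcases hy with rfl | rfl <;> simp [F, P] at h
  · obtain ⟨ρ, r', h1, h2, h3⟩ := D.junk_prefix hx (D.chain_F σ c) h
    refine Or.inr (Or.inr ⟨?_, r', h2, h3⟩)
    have := (D.P_match (u' := []) (by simpa [F] using h1)).2
    cases c with
    | nil => rfl
    | cons => simp [betas] at this

lemma chain_betas (σ : S) (c : List S) : (D.betas σ c).IsChain Adj :=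
  (D.chain_F σ c).right_of_append

lemma chain_suf (σ : S) (g : G) {s : ℕ} (hs : s ≤ D.R) (c : List S) :
    (D.suf σ g s ++ D.betas σ c).IsChain Adj := by
  have := D.chain_F σ c
  rw [F, ← D.pre_suf σ g, ← D.replicate_suf σ g hs, List.append_assoc, List.append_assoc] at this
  exact this.right_of_append.right_of_append

lemma first_beta {x z : List (Ltr S G)} (hx : x ∈ D.Y) {σ : S} {c : List S} {r : ℕ}
    (h : x ++ z = D.betas σ c ++ List.replicate r Ltr.t) :
    (c = [] ∧ ∃ r', r = r' + 1 ∧ z = List.replicate r' Ltr.t) ∨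
    ∃ τ c', c = τ :: c' ∧
      ((x = Ltr.b σ :: D.P τ ∧ z = D.betas τ c' ++ List.replicate r Ltr.t) ∨
        z = D.F τ c' ++ List.replicate r Ltr.t) := by
  rcases hx with hx | hx
  · rcases c with _ | ⟨τ, c⟩
    · left
      have hne := D.basic_ne_nil hx
      rcases r with _ | r
      · simp [betas, hne] at h
      · have ht : Ltr.t ∈ x := by
          rcases x with _ | ⟨e, x⟩
          · exact absurd rfl hne
          · simp only [betas, List.replicate_succ, List.cons_append, List.nil_append,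
              List.cons.injEq] at h
            simp [h.1]
        rw [D.basic_t hx ht] at h
        exact ⟨rfl, r, rfl, by simpa [betas, List.replicate_succ] using h⟩
    · right
      refine ⟨τ, c, rfl, ?_⟩
      have hb : ∀ e ∈ x.head?, e = Ltr.b σ := by
        rcases x with _ | ⟨e, x⟩
        · simp
        · simp only [betas, List.cons_append, List.cons.injEq] at h
          simp [h.1]
      rcases D.basic_head_b hx hb with ⟨ρ, rfl⟩ | ⟨rfl, rfl⟩
      · simp only [betas, List.cons_append, List.cons.injEq, true_and, List.append_assoc] at h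
        obtain ⟨rfl, h'⟩ := D.P_match h
        exact Or.inl ⟨rfl, h'⟩
      · exact Or.inr (by simpa [betas, F] using h)
  · obtain ⟨ρ, r', h1, -, -⟩ := D.junk_prefix hx (D.chain_betas σ c) h
    cases c <;> simp [betas, P] at h1

lemma first_gamma {x z : List (Ltr S G)} (hx : x ∈ D.Y) {σ : S} {c : List S} {r : ℕ} {g : G}
    {s : ℕ} (hs : s ≤ D.R)
    (h : x ++ z = D.suf σ g s ++ D.betas σ c ++ List.replicate r Ltr.t) :
    (s + 1 ≤ D.R ∧ z = D.suf σ g (s + 1) ++ D.betas σ c ++ List.replicate r Ltr.t) ∨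
    ∃ w s0 g' τ c', D.Tr g σ w s0 g' ∧ s ≤ s0 ∧ c = w ++ τ :: c' ∧
      (z = D.suf τ g' 0 ++ D.betas τ c' ++ List.replicate r Ltr.t ∨
        (D.Fn g' τ ∧ z = D.betas τ c' ++ List.replicate r Ltr.t)) := by
  obtain ⟨y, l, h1, hy⟩ := D.suf_head σ g s (D.betas σ c)
  rcases hx with hx | hx
  · cases hx with
    | t => rw [h1] at h; rcases hy with rfl | rfl <;> simp at h
    | run ρ g' =>
      left
      rcases hn : D.R - s with _ | n
      · simp [suf, hn] at h
      · have hn' : D.R - (s + 1) = n := by omega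
        refine ⟨by omega, ?_⟩
        simp only [suf, hn, List.replicate_succ, List.cons_append, List.nil_append,
          List.cons.injEq] at h
        simp only [suf, hn', h.2]
    | alpha => rw [h1] at h; rcases hy with rfl | rfl <;> simp [P] at h
    | beta => rw [h1] at h; rcases hy with rfl | rfl <;> simp at h
    | q => rw [h1] at h; rcases hy with rfl | rfl <;> simp at h
    | sw => rw [h1] at h; rcases hy with rfl | rfl <;> simp [P] at h
    | tr g1 ρ w s0 g' s' u ht hs' hu =>
      rw [List.append_assoc, List.append_assoc] at h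
      obtain ⟨rfl, rfl, rfl, h'⟩ := D.suf_match hs (hs'.trans (D.le_R _ _ _ _ _ ht)) h
      obtain ⟨τ, c', rfl, h''⟩ := D.through_match hu w ρ c h'
      exact Or.inr ⟨w, s0, g', τ, c', ht, hs', rfl, h''⟩
  · obtain ⟨ρ, r', h2, -, -⟩ := D.junk_prefix hx (D.chain_suf σ g hs c) h
    rw [h1] at h2
    rcases hy with rfl | rfl <;> simp [P] at h2

/-- No check succeeds inside `l`. -/
def NoHit (l : List S) : Prop := ∀ p ρ v τ q, l = p ++ ρ :: v ++ τ :: q → ¬ D.Hit ρ v τ

lemma NoHit.suffix {D : Sys S G} {p l : List S} (h : D.NoHit (p ++ l)) : D.NoHit l := by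
  intro p' ρ v τ q e
  exact h (p ++ p') ρ v τ q (by simp [e])

/-- The bound on the number of factors. -/
def Claim (lx : List (List (Ltr S G))) : Prop :=
  ∀ σ c r, D.NoHit (σ :: c) →
    (lx.flatten = D.F σ c ++ List.replicate r Ltr.t → lx.length ≤ r + c.length) ∧
    (lx.flatten = D.betas σ c ++ List.replicate r Ltr.t → lx.length ≤ r + c.length) ∧
    ∀ g s, s ≤ D.R → lx.flatten = D.suf σ g s ++ D.betas σ c ++ List.replicate r Ltr.t →
      ∃ v τ u' g' k, σ :: c = v ++ τ :: u' ∧ D.Path g v k g' ∧ D.Fn g' τ ∧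
        s + lx.length ≤ k + r + u'.length

lemma claim_sw {lx : List (List (Ltr S G))} (hl : D.Claim lx) {σ τ : S} {c : List S} {r : ℕ}
    {g : G} (hn : D.NoHit (σ :: τ :: c)) (hs : D.Sw σ g)
    (h : lx.flatten = D.suf τ g 0 ++ D.betas τ c ++ List.replicate r Ltr.t ∨
      (D.Fn g τ ∧ lx.flatten = D.betas τ c ++ List.replicate r Ltr.t)) :
    lx.length + 1 ≤ r + c.length := by
  rcases h with h | h
  · obtain ⟨v, τ', u', g', k, h1, h2, h3, h4⟩ :=
      (hl τ c r (NoHit.suffix (p := [σ]) hn)).2.2 g 0 (Nat.zero_le _) h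
    have h5 : ¬ v.length ≤ k := fun h5 =>
      hn [] σ v τ' u' (by simp [h1]) ⟨g, g', k, hs, h2, h3, h5⟩
    have := congrArg List.length h1
    simp at this
    omega
  · exact absurd ⟨g, g, 0, hs, Path.nil g, h.1, le_rfl⟩ (hn [] σ [] τ c (by simp))

lemma claim (lx : List (List (Ltr S G))) (hl : ∀ x ∈ lx, x ∈ D.Y) : D.Claim lx := by
  induction lx with
  | nil =>
    intro σ c r _
    refine ⟨by simp, by simp, fun g s _ h => ?_⟩
    obtain ⟨y, l, h1, -⟩ := D.suf_head σ g s (D.betas σ c)
    simp [h1] at h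
  | cons x lx ih =>
    have ih := ih fun y hy => hl y (List.mem_cons_of_mem _ hy)
    have hx := hl x List.mem_cons_self
    intro σ c r hn
    simp only [List.flatten_cons, List.length_cons]
    refine ⟨fun h => ?_, fun h => ?_, fun g s hs h => ?_⟩
    · rcases D.first_alpha hx h with ⟨-, τ, c', rfl, h'⟩ | ⟨g, τ, c', hs, rfl, h'⟩ |
        ⟨rfl, r', rfl, h'⟩
      · have := (ih τ c' r (NoHit.suffix (p := [σ]) hn)).1 h'
        simp; omega
      · have := D.claim_sw ih hn hs h'
        simp; omega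
      · have := (ih σ [] r' hn).2.1 (by simpa [betas] using h')
        simp at this ⊢; omega
    · rcases D.first_beta hx h with ⟨rfl, r', rfl, h'⟩ | ⟨τ, c', rfl, ⟨-, h'⟩ | h'⟩
      · have := (ih σ [] r' hn).2.1 (by simpa [betas] using h')
        simp at this ⊢; omega
      · have := (ih τ c' r (NoHit.suffix (p := [σ]) hn)).2.1 h'
        simp; omega
      · have := (ih τ c' r (NoHit.suffix (p := [σ]) hn)).1 h'
        simp; omega
    · rcases D.first_gamma hx hs h with ⟨hs', h'⟩ | ⟨w, s0, g', τ, c', ht, hs', rfl, h' | h'⟩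
      · obtain ⟨v, τ, u', g', k, h1, h2, h3, h4⟩ := (ih σ c r hn).2.2 g (s + 1) hs' h'
        exact ⟨v, τ, u', g', k, h1, h2, h3, by omega⟩
      · obtain ⟨v, τ', u', g'', k, h1, h2, h3, h4⟩ :=
          (ih τ c' r (NoHit.suffix (p := σ :: w) hn)).2.2 g' 0 (Nat.zero_le _) h'
        exact ⟨σ :: w ++ v, τ', u', g'', _, by simp [h1], Path.cons ht h2, h3, by omega⟩
      · have := (ih τ c' r (NoHit.suffix (p := σ :: w) hn)).2.1 h'.2
        exact ⟨σ :: w, τ, c', g', _, rfl, Path.single ht, h'.1, by omega⟩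

section
variable {Z : Set (List (Ltr S G))}
  (hZ : ∀ z ∈ Z, ∀ y ∈ D.Y, ∃ x ∈ D.X, ∃ z' ∈ Z, x ++ z' = z ++ y)
include hZ

lemma push_t {z : List (Ltr S G)} (hz : z ∈ Z) (n : ℕ) :
    ∃ lx : List (List (Ltr S G)), (∀ x ∈ lx, x ∈ D.Y) ∧ lx.length = n ∧
      ∃ z' ∈ Z, lx.flatten ++ z' = z ++ List.replicate n Ltr.t := by
  induction n with
  | zero => exact ⟨[], by simp, rfl, z, hz, by simp⟩
  | succ n ih =>
    obtain ⟨lx, h1, h2, z', h3, h4⟩ := ih
    obtain ⟨x, hx, z'', h5, h6⟩ := hZ z' h3 _ (D.X_sub_Y D.t_mem_X)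
    refine ⟨lx ++ [x], ?_, by simp [h2], z'', h5, ?_⟩
    · intro y hy
      rcases List.mem_append.mp hy with hy | hy
      · exact h1 y hy
      · rw [List.mem_singleton.mp hy]; exact hx.1
    · rw [List.replicate_succ', ← List.append_assoc, ← h4]
      simp [h6]

omit hZ in
lemma length_le_flatten (lx : List (List (Ltr S G))) (h : ∀ x ∈ lx, x ∈ D.Y) :
    lx.length ≤ lx.flatten.length := by
  induction lx with
  | nil => simp
  | cons x lx ih =>
    have h1 := List.length_pos_iff.mpr (D.Y_ne_nil (h x (by simp)))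
    have h2 := ih fun y hy => h y (by simp [hy])
    simp only [List.flatten_cons, List.length_append, List.length_cons]
    omega

lemma par_t {z : List (Ltr S G)} (hz : z ∈ Z) :
    ∃ (lx : List (List (Ltr S G))) (r i : ℕ), (∀ x ∈ lx, x ∈ D.Y) ∧
      lx.flatten = z ++ List.replicate r Ltr.t ∧ lx.length = r + i ∧
      List.replicate i Ltr.t ∈ Z := by
  obtain ⟨lx, h1, h2, z', h3, h4⟩ := D.push_t hZ hz z.length
  have h5 := D.length_le_flatten lx h1
  rcases List.append_eq_append_iff.mp h4 with ⟨a, h6, h7⟩ | ⟨a, h6, h7⟩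
  · have h8 : a = [] := by
      have := congrArg List.length h6
      simp only [List.length_append] at this
      exact List.length_eq_zero_iff.mp (by omega)
    subst h8
    refine ⟨lx, 0, z.length, h1, by simpa using h6.symm, by simp [h2], ?_⟩
    rw [h7] at h3
    simpa using h3
  · obtain ⟨e1, e2, e3⟩ := List.replicate_eq_append_iff.mp h7
    exact ⟨lx, a.length, z'.length, h1, by rw [← e2, h6], by omega, by rwa [← e3]⟩

lemma t_to_B (i : ℕ) : ∀ m, List.replicate i Ltr.t ++ D.betas D.nu (List.replicate m D.nu) ∈ Z →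
    D.betas D.nu (List.replicate (i + m) D.nu) ∈ Z := by
  have hB : ∀ m, D.betas D.nu (List.replicate m D.nu) ++ D.Bnu =
      D.betas D.nu (List.replicate (m + 1) D.nu) := by
    intro m
    induction m with
    | zero => simp [betas, Bnu]
    | succ m ih =>
      have e1 : D.betas D.nu (List.replicate (m + 1 + 1) D.nu) =
          Ltr.b D.nu :: (D.P D.nu ++ D.betas D.nu (List.replicate (m + 1) D.nu)) := rfl
      have e2 : D.betas D.nu (List.replicate (m + 1) D.nu) =
          Ltr.b D.nu :: (D.P D.nu ++ D.betas D.nu (List.replicate m D.nu)) := rfl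
      rw [e1]
      conv_lhs => rw [e2]
      rw [← ih]
      simp
  induction i with
  | zero => intro m h; simpa using h
  | succ i ih =>
    intro m h
    obtain ⟨x, hx, z', h1, h2⟩ := hZ _ h _ (D.beta_mem_Y D.nu D.nu)
    change _ = _ ++ D.Bnu at h2
    rw [List.append_assoc, hB, List.replicate_succ (n := i), List.cons_append] at h2
    have hne := D.Y_ne_nil hx.1
    have hx1 : x = [Ltr.t] := by
      rcases hx.1 with hb | ⟨u, v, y, -, -, hy, e, hc⟩
      · apply D.basic_t hb
        rcases x with _ | ⟨e, x⟩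
        · exact absurd rfl hne
        · simp only [List.cons_append, List.cons.injEq] at h2
          simp [h2.1]
      · exfalso
        subst e
        have hu : u = [] := by
          rcases u with _ | ⟨ρ, u⟩
          · rfl
          · simp [Ps, P] at h2
        subst hu
        have hy' : y = [Ltr.t] := by
          rcases y with _ | ⟨e, y⟩
          · rcases v with _ | ⟨ρ, v⟩
            · simp [Ps] at hne
            · simp [Ps, P] at h2
          · rcases hy with hy | hy
            · simp at hy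
            · apply D.basic_t hy
              simp only [Ps, List.flatMap_nil, List.nil_append, List.cons_append,
                List.cons.injEq] at h2
              simp [h2.1]
        subst hy'
        rcases v with _ | ⟨ρ, v⟩
        · simp [Ps] at hc
        · cases i <;> simp [Ps, P, List.replicate_succ, betas] at h2
    subst hx1
    simp only [List.cons_append, List.nil_append, List.cons.injEq, true_and] at h2
    have := ih (m + 1) (h2 ▸ h1)
    rwa [show i + (m + 1) = i + 1 + m by omega] at this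

lemma start_mem {j : ℕ} (h : List.replicate j Ltr.t ∈ Z) :
    D.F D.nu (List.replicate j D.nu) ∈ Z := by
  have h1 := D.t_to_B hZ j 0 (by simpa [betas] using h)
  obtain ⟨x, hx, z', h2, h3⟩ := hZ _ h1 _ (D.beta_mem_Y D.nu D.nu)
  have e : D.betas D.nu (List.replicate (j + 0) D.nu) ++ Ltr.b D.nu :: D.P D.nu =
      D.betas D.nu (D.nu :: List.replicate j D.nu) ++ List.replicate 0 Ltr.t := by
    clear h h1 h3
    induction j with
    | zero => simp [betas]
    | succ j ih =>
      simp only [Nat.add_zero, List.replicate_succ, List.replicate_zero, List.append_nil] at ih ⊢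
      rw [betas, betas, List.cons_append, List.append_assoc, ih]
  rw [e] at h3
  rcases D.first_beta hx.1 h3 with ⟨h, -⟩ | ⟨τ, c', h4, ⟨h5, -⟩ | h5⟩
  · simp at h
  · obtain ⟨rfl, -⟩ := List.cons.inj h4
    exact absurd h5 hx.2
  · obtain ⟨rfl, rfl⟩ := List.cons.inj h4
    simpa [h5] using h2

lemma step_mem {j : ℕ} (hj : ∀ i, List.replicate i Ltr.t ∈ Z → j ≤ i) {σ τ : S} {c : List S}
    (hc : c.length = j) (h : D.F σ c ∈ Z) (hn : D.NoHit (σ :: (c ++ [τ]))) :
    D.ok σ ∧ ∀ ρ c', c ++ [τ] = ρ :: c' → D.F ρ c' ∈ Z := by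
  obtain ⟨x, hx, z', h2, h3⟩ := hZ _ h _ (D.beta_mem_Y (lst σ c) τ)
  rw [← F_concat, ← List.append_nil (D.F σ _), ← List.replicate_zero (a := Ltr.t)] at h3
  rcases D.first_alpha hx.1 h3 with ⟨h4, ρ, c', h5, h6⟩ | ⟨g, ρ, c', h4, h5, h6⟩ | ⟨h4, -⟩
  · refine ⟨h4, fun ρ' c'' e => ?_⟩
    obtain ⟨rfl, rfl⟩ := List.cons.inj (h5.symm.trans e)
    simpa [h6] using h2
  · exfalso
    obtain ⟨lx, r, i, a1, a2, a3, a4⟩ := D.par_t hZ h2
    have a5 := hj i a4
    rw [h5] at hn
    have := D.claim_sw (D.claim lx a1) (r := r) hn h4 (by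
      rcases h6 with h6 | h6
      · left; rw [a2, h6]; simp
      · right; exact ⟨h6.1, by rw [a2, h6.2]; simp⟩)
    have h7 := congrArg List.length h5
    simp at h7
    omega
  · simp at h4

end

/-- For window size `j`, an escape-free way from the neutral content to a dead symbol. -/
def Attack (j : ℕ) : Prop :=
  ∃ W w' u σ u', W = List.replicate (j + 1) D.nu ++ w' ∧ W = u ++ σ :: u' ∧ ¬ D.ok σ ∧
    j + 1 ≤ u'.length ∧
    ∀ p ρ v τ q, W = p ++ ρ :: v ++ τ :: q → v.length ≤ j → ¬ D.Hit ρ v τ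

theorem negative (hA : ∀ j, D.Attack j) (Z : Set (List (Ltr S G))) (hne : Z.Nonempty)
    (h : Set.image2 (· ++ ·) D.X Z = Set.image2 (· ++ ·) Z D.Y) : False := by
  classical
  have hZ : ∀ z ∈ Z, ∀ y ∈ D.Y, ∃ x ∈ D.X, ∃ z' ∈ Z, x ++ z' = z ++ y := by
    intro z hz y hy
    have : z ++ y ∈ Set.image2 (· ++ ·) D.X Z := by rw [h]; exact ⟨z, hz, y, hy, rfl⟩
    exact this
  have hex : ∃ i, List.replicate i Ltr.t ∈ Z := by
    obtain ⟨z, hz⟩ := hne
    obtain ⟨_, _, i, -, -, -, h⟩ := D.par_t hZ hz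
    exact ⟨i, h⟩
  have hj : ∀ i, List.replicate i Ltr.t ∈ Z → Nat.find hex ≤ i := fun i hi => Nat.find_min' hex hi
  have h0 := D.start_mem hZ (Nat.find_spec hex)
  generalize Nat.find hex = j at hj h0
  obtain ⟨W, w', u, σ, u', h1, h2, h3, h4, h5⟩ := hA j
  have nohit : ∀ p ρ c τ q, W = p ++ ρ :: (c ++ [τ]) ++ q → c.length = j →
      D.NoHit (ρ :: (c ++ [τ])) := by
    intro p ρ c τ q e hc p' ρ' v τ' q' e'
    refine h5 (p ++ p') ρ' v τ' (q' ++ q) (by rw [e, e']; simp) ?_
    have := congrArg List.length e'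
    simp at this
    omega
  have main : ∀ p ρ c q, W = p ++ ρ :: c ++ q → c.length = j → D.F ρ c ∈ Z := by
    intro p
    induction p using List.reverseRecOn with
    | nil =>
      intro ρ c q e hc
      have := List.append_inj (s₁ := List.replicate (j + 1) D.nu) (s₂ := ρ :: c) (t₁ := w')
        (t₂ := q) (by rw [← h1, e]; simp) (by simp [hc])
      obtain ⟨rfl, rfl⟩ := List.cons.inj this.1
      exact h0
    | append_singleton p μ ih =>
      intro ρ c q e hc
      have e1 := ini_lst ρ c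
      have hl : (ini ρ c).length = j := by rw [length_ini, hc]
      have a1 := ih μ (ini ρ c) (lst ρ c :: q) (by rw [e, e1]; simp) hl
      exact (D.step_mem hZ hj hl a1 (nohit p μ _ _ q (by rw [e, e1]; simp) hl)).2 ρ c e1.symm
  obtain ⟨c, τ, q, rfl, hc⟩ : ∃ c τ q, u' = c ++ τ :: q ∧ c.length = j := by
    refine ⟨u'.take j, u'[j], u'.drop (j + 1), by simp, by simp; omega⟩
  exact h3 (D.step_mem hZ hj hc (main u σ c (τ :: q) (by simp [h2]) hc)
    (nohit u σ c τ q (by simp [h2]) hc)).1

end Sys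

end Pool.Agent.Lib.MP_60077b_lc
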