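import Pool.Agent.Lib.MP_60077b_lc.Words

/-! Layer A, part 2: a closed family of windows gives a finite solution `Z`. -/

namespace Pool.Agent.Lib.MP_60077b_lc

variable {S G : Type}

namespace Sys

variable (D : Sys S G)

/-- `w` is a product of `X`-words followed by `Y`-words, `n` factors in all. -/
def XY (n : ℕ) (w : List (Ltr S G)) : Prop :=
  ∃ lx ly : List (List (Ltr S G)), (∀ x ∈ lx, x ∈ D.X) ∧ (∀ y ∈ ly, y ∈ D.Y) ∧
    w = lx.flatten ++ ly.flatten ∧ lx.length + ly.length = n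

/-- The same with at least one `X`-word. -/
def XY1 (n : ℕ) (w : List (Ltr S G)) : Prop :=
  ∃ lx ly : List (List (Ltr S G)), lx ≠ [] ∧ (∀ x ∈ lx, x ∈ D.X) ∧ (∀ y ∈ ly, y ∈ D.Y) ∧
    w = lx.flatten ++ ly.flatten ∧ lx.length + ly.length = n

lemma XY1.xy {D : Sys S G} {n : ℕ} {w : List (Ltr S G)} (h : D.XY1 n w) : D.XY n w := by
  obtain ⟨lx, ly, -, h⟩ := h
  exact ⟨lx, ly, h⟩

lemma XY.pop_last {D : Sys S G} {n : ℕ} {w : List (Ltr S G)} (h : D.XY (n + 1) w) :
    ∃ z y, D.XY n z ∧ y ∈ D.Y ∧ w = z ++ y := by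
  obtain ⟨lx, ly, h1, h2, rfl, h3⟩ := h
  rcases List.eq_nil_or_concat ly with rfl | ⟨ly', y, rfl⟩
  · rcases List.eq_nil_or_concat lx with rfl | ⟨lx', x, rfl⟩
    · simp at h3
    · refine ⟨lx'.flatten, x, ⟨lx', [], fun x hx => h1 x (by simp [hx]), by simp, by simp, ?_⟩,
        D.X_sub_Y (h1 x (by simp)), by simp⟩
      simpa using h3
  · refine ⟨lx.flatten ++ ly'.flatten, y, ⟨lx, ly', h1, fun x hx => h2 x (by simp [hx]), rfl, ?_⟩,
      h2 y (by simp), by simp⟩
    simp at h3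
    omega

lemma XY1.pop_first {D : Sys S G} {n : ℕ} {w : List (Ltr S G)} (h : D.XY1 (n + 1) w) :
    ∃ x z, x ∈ D.X ∧ D.XY n z ∧ w = x ++ z := by
  obtain ⟨lx, ly, h0, h1, h2, rfl, h3⟩ := h
  rcases lx with _ | ⟨x, lx⟩
  · exact absurd rfl h0
  · refine ⟨x, lx.flatten ++ ly.flatten, h1 x (by simp),
      ⟨lx, ly, fun x hx => h1 x (by simp [hx]), h2, rfl, ?_⟩, by simp⟩
    simp at h3
    omega

lemma XY.cons {D : Sys S G} {n : ℕ} {w x : List (Ltr S G)} (h : D.XY n w) (hx : x ∈ D.X) :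
    D.XY1 (n + 1) (x ++ w) := by
  obtain ⟨lx, ly, h1, h2, rfl, h3⟩ := h
  refine ⟨x :: lx, ly, by simp, ?_, h2, by simp, by simp; omega⟩
  intro y hy
  rcases List.mem_cons.mp hy with rfl | h
  · exact hx
  · exact h1 y h

lemma XY.append {D : Sys S G} {n : ℕ} {w : List (Ltr S G)} (h : D.XY n w)
    (l : List (List (Ltr S G))) (hl : ∀ y ∈ l, y ∈ D.Y) :
    D.XY (n + l.length) (w ++ l.flatten) := by
  obtain ⟨lx, ly, h1, h2, rfl, h3⟩ := h
  refine ⟨lx, ly ++ l, h1, ?_, by simp, by simp; omega⟩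
  intro y hy
  rcases List.mem_append.mp hy with h | h
  · exact h2 y h
  · exact hl y h

lemma replicate_suf (σ : S) (g : G) {s : ℕ} (hs : s ≤ D.R) :
    List.replicate s (Ltr.run σ g) ++ D.suf σ g s = D.suf σ g 0 := by
  simp only [suf, ← List.append_assoc, List.replicate_append_replicate, Nat.sub_zero]
  congr 3
  omega

lemma tr_mem_X {g σ w s g' s' u} (h : D.Tr g σ w s g') (hs : s' ≤ s) (hu : D.EndW g' u) :
    D.suf σ g s' ++ D.through σ w u ∈ D.X := by
  refine ⟨Or.inl (Basic.tr g σ w s g' s' u h hs hu), ?_⟩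
  obtain ⟨x, l, h, hx⟩ := D.suf_head σ g s' (D.through σ w u)
  rw [h, Bnu]
  rcases hx with rfl | rfl <;> simp

lemma path_words {g g' : G} {v : List S} {k : ℕ} (h : D.Path g v k g') {τ : S}
    (hf : D.Fn g' τ) : ∃ m, m ≤ v.length ∧ m ≤ k ∧ ∀ k', m ≤ k' → k' ≤ k →
      ∀ st σ0 w0, (∀ u, D.EndW g u → st ++ D.through σ0 w0 u ∈ D.X) →
        ∃ lx : List (List (Ltr S G)), (∀ x ∈ lx, x ∈ D.X) ∧
          lx.flatten = st ++ D.betas σ0 (w0 ++ (v ++ [τ])) ∧ lx.length = k' + 1 := by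
  induction h with
  | nil g =>
    refine ⟨0, le_rfl, le_rfl, fun k' _ hk st σ0 w0 h => ⟨[st ++ D.through σ0 w0 (D.P τ)], ?_, ?_, ?_⟩⟩
    · simpa using h _ ⟨τ, Or.inr ⟨hf, rfl⟩⟩
    · simp [betas_append, betas]
    · simp; omega
  | @cons g σ w s g1 v k g' ht _ ih =>
    obtain ⟨m, hm1, hm2, ih⟩ := ih hf
    refine ⟨m + 1, by simp; omega, by omega, fun k' hk1 hk2 st σ0 w0 h => ?_⟩
    obtain ⟨lx, h1, h2, h3⟩ := ih (min k (k' - 1)) (by omega) (by omega)
      (D.suf σ g (k' - 1 - min k (k' - 1))) σ w (fun u hu => D.tr_mem_X ht (by omega) hu)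
    have hs : k' - 1 - min k (k' - 1) ≤ D.R := le_trans (by omega) (D.le_R _ _ _ _ _ ht)
    generalize hs' : k' - 1 - min k (k' - 1) = s' at *
    refine ⟨(st ++ D.through σ0 w0 (D.pre σ g)) :: (List.replicate s' [Ltr.run σ g] ++ lx),
      ?_, ?_, ?_⟩
    · intro x hx
      rcases List.mem_cons.mp hx with rfl | hx
      · exact h _ ⟨σ, Or.inl rfl⟩
      · rcases List.mem_append.mp hx with hx | hx
        · rw [List.eq_of_mem_replicate hx]; exact D.run_mem_X σ g
        · exact h1 x hx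
    · rw [List.flatten_cons, List.flatten_append, List.flatten_replicate_singleton, h2,
        ← List.append_assoc (List.replicate _ _), D.replicate_suf σ g hs, List.cons_append,
        List.cons_append, betas_append, ← D.pre_suf σ g, through_append]
      simp
    · simp [h3]; omega

/-- Concatenation of full blocks. -/
def body (u : List S) : List (Ltr S G) := (u.map fun ρ => D.P ρ ++ [Ltr.b ρ]).flatten

lemma F_cons (σ τ : S) (c : List S) : D.F σ (τ :: c) = D.P σ ++ [Ltr.b σ] ++ D.F τ c := by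
  simp [F, betas]

lemma F_append (u : List S) (ρ : S) (c' : List S) (σ : S) (c : List S)
    (h : σ :: c = u ++ ρ :: c') : D.F σ c = D.body u ++ D.F ρ c' := by
  induction u generalizing σ c with
  | nil =>
    simp only [List.nil_append, List.cons.injEq] at h
    simp [h.1, h.2, body]
  | cons μ u ih =>
    simp only [List.cons_append, List.cons.injEq] at h
    obtain ⟨rfl, h⟩ := h
    rcases c with _ | ⟨τ, c⟩
    · simp at h
    · rw [F_cons, ih τ c h]
      simp [body]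

lemma betas_list (σ : S) (c : List S) : ∃ ly : List (List (Ltr S G)), (∀ y ∈ ly, y ∈ D.Y) ∧
    ly.flatten = D.betas σ c ∧ ly.length = c.length := by
  induction c generalizing σ with
  | nil => exact ⟨[], by simp, by simp [betas], rfl⟩
  | cons τ c ih =>
    obtain ⟨ly, h1, h2, h3⟩ := ih τ
    refine ⟨(Ltr.b σ :: D.P τ) :: ly, ?_, by simp [betas, h2], by simp [h3]⟩
    intro y hy
    rcases List.mem_cons.mp hy with rfl | h
    · exact D.beta_mem_Y σ τ
    · exact h1 y h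

lemma esc_XY {σ : S} {c : List S} (h : D.Esc (σ :: c)) : D.XY1 c.length (D.F σ c) := by
  obtain ⟨u, ρ, v, τ, u', h1, h2, g, g', k, h3, h4, h5, h6⟩ := h
  obtain ⟨m, hm1, hm2, hm⟩ := D.path_words h4 h5
  obtain ⟨lx, a1, a2, a3⟩ := hm v.length hm1 h6 (D.P ρ) ρ [] (fun u hu =>
    ⟨Or.inl (Basic.sw ρ g u h3 hu), by simp [P, Bnu]⟩)
  obtain ⟨ly, b1, b2, b3⟩ := D.betas_list τ u'
  refine ⟨(u.map fun ρ => D.P ρ ++ [Ltr.b ρ]) ++ lx, ly, ?_, ?_, b1, ?_, ?_⟩
  · intro h
    have := congrArg List.length h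
    simp [a3] at this
  · intro x hx
    rcases List.mem_append.mp hx with hx | hx
    · obtain ⟨μ, hμ, rfl⟩ := List.mem_map.mp hx
      exact D.alpha_mem_X (h2 μ hμ)
    · exact a1 x hx
  · rw [D.F_append u ρ (v ++ τ :: u') σ c (by simpa using h1), List.flatten_append, a2, b2]
    simp [F, body, betas_append, betas]
  · have := congrArg List.length h1
    simp at this
    simp [a3, b3]
    omega

lemma junk_mk (u v : List S) (y : List (Ltr S G)) (hu : u.length ≤ 3) (hv : v.length ≤ 3)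
    (hy : y = [] ∨ D.Basic y) (h : ¬ (D.Ps u ++ y ++ D.Ps v).IsChain Adj) :
    D.Ps u ++ y ++ D.Ps v ∈ D.X := D.junk_mem_X ⟨u, v, y, hu, hv, hy, rfl, h⟩

lemma right_push {x0 y : List (Ltr S G)} (τ : S) (hb : D.Basic x0) (hx : x0 ∈ D.X)
    (hy : y ∈ D.Y) (hn : ¬ ∃ τ', y = Ltr.b τ :: D.P τ') :
    ∃ x1 x2, x1 ∈ D.X ∧ x2 ∈ D.X ∧ x0 ++ D.P τ ++ y = x1 ++ x2 := by
  rcases hy with hy | ⟨u, v, y0, hu, hv, hy0, rfl, hc⟩
  · by_cases hc : (D.P τ ++ y).IsChain Adj
    · rcases D.basic_head_b hy (D.head_of_chain_P (p := []) (by simpa using hc)) with h | ⟨rfl, rfl⟩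
      · exact absurd h hn
      · exact ⟨x0, _, hx, D.alpha_mem_X D.ok_nu, by simp⟩
    · refine ⟨x0, _, hx, D.junk_mk [τ] [] y (by simp) (by simp) (Or.inr hy) ?_, by simp [Ps]⟩
      simpa [Ps] using hc
  · by_cases h3 : u.length ≤ 2
    · refine ⟨x0, _, hx, D.junk_mk (τ :: u) v y0 (by simp; omega) hv hy0 ?_, by simp [Ps]⟩
      intro h
      apply hc
      have e : D.Ps (τ :: u) ++ y0 ++ D.Ps v = D.P τ ++ (D.Ps u ++ y0 ++ D.Ps v) := by simp [Ps]
      rw [e] at h
      exact h.right_of_append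
    · obtain ⟨u1, u2, u3, rfl⟩ := List.length_eq_three.mp (show u.length = 3 by omega)
      refine ⟨_, _, D.junk_mk [] [τ, u1] x0 (by simp) (by simp) (Or.inr hb) ?_,
        D.junk_mk [u2, u3] v y0 (by simp) hv hy0 ?_, by simp [Ps]⟩
      · simpa [Ps] using D.not_chain_PP x0 [] τ u1
      · simpa [Ps] using D.not_chain_PP [] (y0 ++ D.Ps v) u2 u3

lemma left_push {x : List (Ltr S G)} (σ τ : S) (hx : x ∈ D.X)
    (hn : ¬ ∃ ρ, D.ok ρ ∧ x = D.P ρ ++ [Ltr.b ρ]) :
    ∃ y1 y2, y1 ∈ D.Y ∧ y2 ∈ D.Y ∧ x ++ D.P σ ++ (Ltr.b σ :: D.P τ) = y1 ++ y2 := by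
  rcases hx.1 with hx | ⟨u, v, y0, hu, hv, hy0, rfl, hc⟩
  · by_cases hc : (x ++ D.P σ).IsChain Adj
    · rcases D.basic_last_b hx (D.last_of_chain_P (p := []) (by simpa using hc)) with h | rfl
      · exact absurd h hn
      · exact ⟨_, _, D.beta_mem_Y D.nu σ, D.beta_mem_Y σ τ, by simp⟩
    · refine ⟨_, _, D.X_sub_Y (D.junk_mk [] [σ] x (by simp) (by simp) (Or.inr hx) ?_),
        D.beta_mem_Y σ τ, by simp [Ps]⟩
      simpa [Ps] using hc
  · by_cases h3 : v.length ≤ 2
    · refine ⟨_, _, D.X_sub_Y (D.junk_mk u (v ++ [σ]) y0 hu (by simp; omega) hy0 ?_),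
        D.beta_mem_Y σ τ, by simp [Ps]⟩
      intro h
      apply hc
      have e : D.Ps u ++ y0 ++ D.Ps (v ++ [σ]) = (D.Ps u ++ y0 ++ D.Ps v) ++ D.P σ := by simp [Ps]
      rw [e] at h
      exact h.left_of_append
    · obtain ⟨v1, v2, v3, rfl⟩ := List.length_eq_three.mp (show v.length = 3 by omega)
      refine ⟨_, _, D.X_sub_Y (D.junk_mk u [v1, v2] y0 hu (by simp) hy0 ?_),
        D.X_sub_Y (D.junk_mk [v3, σ] [] _ (by simp) (by simp) (Or.inr (Basic.beta σ τ)) ?_),
        by simp [Ps]⟩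
      · simpa [Ps] using D.not_chain_PP (D.Ps u ++ y0) [] v1 v2
      · simpa [Ps] using D.not_chain_PP [] (Ltr.b σ :: D.P τ) v3 σ

/-- Last symbol of `σ :: c`. -/
def lst : S → List S → S
  | σ, [] => σ
  | _, τ :: c => lst τ c

/-- All but the last symbol of `σ :: c`. -/
def ini : S → List S → List S
  | _, [] => []
  | σ, τ :: c => σ :: ini τ c

lemma ini_lst (σ : S) (c : List S) : σ :: c = ini σ c ++ [lst σ c] := by
  induction c generalizing σ with
  | nil => rfl
  | cons τ c ih => rw [ini, lst, List.cons_append, ← ih]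

lemma length_ini (σ : S) (c : List S) : (ini σ c).length = c.length := by
  have := congrArg List.length (ini_lst σ c)
  simpa using this.symm

lemma F_ini (σ : S) (c : List S) : D.F σ c = D.body (ini σ c) ++ D.P (lst σ c) := by
  rw [D.F_append (ini σ c) (lst σ c) [] σ c (ini_lst σ c)]
  simp [F, betas]

lemma F_concat (σ : S) (c : List S) (τ : S) :
    D.F σ (c ++ [τ]) = D.F σ c ++ Ltr.b (lst σ c) :: D.P τ := by
  induction c generalizing σ with
  | nil => simp [F, betas, lst]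
  | cons ρ c ih => rw [List.cons_append, F_cons, F_cons, ih, lst]; simp

lemma split_Y (σ : S) (ly : List (List (Ltr S G))) (h : ∀ y ∈ ly, y ∈ D.Y) :
    (∃ c, ly.flatten = D.betas σ c ∧ c.length = ly.length) ∨
    ∃ c y rest, ly.flatten = D.betas σ c ++ y ++ List.flatten rest ∧
      c.length + 1 + rest.length = ly.length ∧ y ∈ D.Y ∧ (∀ y ∈ rest, y ∈ D.Y) ∧
      ¬ ∃ τ, y = Ltr.b (lst σ c) :: D.P τ := by
  induction ly generalizing σ with
  | nil => exact Or.inl ⟨[], rfl, rfl⟩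
  | cons y ly ih =>
    have h' : ∀ y ∈ ly, y ∈ D.Y := fun y hy => h y (List.mem_cons_of_mem _ hy)
    by_cases hy : ∃ τ, y = Ltr.b σ :: D.P τ
    · obtain ⟨τ, rfl⟩ := hy
      rcases ih τ h' with ⟨c, h1, h2⟩ | ⟨c, y, rest, h1, h2, h3, h4, h5⟩
      · exact Or.inl ⟨τ :: c, by simp [betas, h1], by simp [h2]⟩
      · exact Or.inr ⟨τ :: c, y, rest, by simp [betas, h1], by simp; omega, h3, h4, h5⟩
    · exact Or.inr ⟨[], y, ly, by simp [betas], by simp; omega, h y (by simp), h', hy⟩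

lemma ext_push (L : List (List (Ltr S G))) (hne : L ≠ []) (hL : ∀ x ∈ L, D.Basic x ∧ x ∈ D.X)
    (τ : S) {y : List (Ltr S G)} (hy : y ∈ D.Y) (hn : ¬ ∃ τ', y = Ltr.b τ :: D.P τ')
    (rest : List (List (Ltr S G))) (hr : ∀ y ∈ rest, y ∈ D.Y) :
    D.XY1 (L.length + rest.length + 1) (L.flatten ++ D.P τ ++ y ++ rest.flatten) := by
  rcases List.eq_nil_or_concat L with rfl | ⟨L', x0, rfl⟩
  · exact absurd rfl hne
  obtain ⟨x1, x2, h1, h2, h3⟩ := D.right_push τ (hL x0 (by simp)).1 (hL x0 (by simp)).2 hy hn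
  refine ⟨L' ++ [x1, x2], rest, by simp, ?_, hr, ?_, by simp; omega⟩
  · intro x hx
    simp only [List.mem_append, List.mem_cons, List.not_mem_nil, or_false] at hx
    rcases hx with hx | rfl | rfl
    · exact (hL x (by simp [hx])).2
    · exact h1
    · exact h2
  · simp only [List.concat_eq_append, List.flatten_append, List.flatten_cons, List.flatten_nil,
      List.append_nil, ← h3, List.append_assoc]

lemma alpha_list (u : List S) (hu : ∀ ρ ∈ u, D.ok ρ) :
    ∀ x ∈ (u.map fun ρ => D.P ρ ++ [Ltr.b ρ]), D.Basic x ∧ x ∈ D.X := by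
  intro x hx
  obtain ⟨ρ, hρ, rfl⟩ := List.mem_map.mp hx
  exact ⟨Basic.alpha ρ (hu ρ hρ), D.alpha_mem_X (hu ρ hρ)⟩

lemma mem_ini {σ : S} {c : List S} {ρ : S} (h : ρ ∈ ini σ c) : ρ ∈ σ :: c := by
  rw [ini_lst σ c]
  exact List.mem_append_left _ h

/-- A closed family of windows. -/
structure Closed (j : ℕ) (V : Set (List S)) : Prop where
  pos : 1 ≤ j
  len : ∀ w ∈ V, w.length = j + 1
  ok : ∀ w ∈ V, ∀ σ ∈ w, D.ok σ
  right : ∀ σ c τ, σ :: c ∈ V → D.Esc (σ :: (c ++ [τ])) ∨ c ++ [τ] ∈ V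
  left : ∀ ρ c τ, c ++ [τ] ∈ V → D.ok ρ → D.Esc (ρ :: (c ++ [τ])) ∨ ρ :: c ∈ V
  start : ∀ c, D.Esc (D.nu :: c) ∨ ((∀ σ ∈ c, D.ok σ) ∧ (c.length = j → D.nu :: c ∈ V))

/-- The solution. -/
def Sol (j : ℕ) (V : Set (List S)) : Set (List (Ltr S G)) :=
  {w | D.XY j w ∨ ∃ σ c, σ :: c ∈ V ∧ w = D.F σ c}

lemma sol_left {j : ℕ} {V : Set (List S)} (hV : D.Closed j V) {x z : List (Ltr S G)}
    (hx : x ∈ D.X) (hz : z ∈ D.Sol j V) : ∃ z' ∈ D.Sol j V, ∃ y ∈ D.Y, z' ++ y = x ++ z := by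
  have fin : D.XY (j + 1) (x ++ z) → ∃ z' ∈ D.Sol j V, ∃ y ∈ D.Y, z' ++ y = x ++ z := by
    intro h
    obtain ⟨z', y, h1, h2, h3⟩ := h.pop_last
    exact ⟨z', Or.inl h1, y, h2, h3.symm⟩
  rcases hz with hz | ⟨σ, c, hc, rfl⟩
  · exact fin (hz.cons hx).xy
  have hl : c.length = j := by simpa using hV.len _ hc
  by_cases ha : ∃ ρ, D.ok ρ ∧ x = D.P ρ ++ [Ltr.b ρ]
  · obtain ⟨ρ, hρ, rfl⟩ := ha
    rw [← F_cons] at fin ⊢
    rcases hV.left ρ (ini σ c) (lst σ c) (by rwa [← ini_lst]) hρ with h | h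
    · rw [← ini_lst] at h
      exact fin (by simpa [hl] using (D.esc_XY h).xy)
    · refine ⟨D.F ρ (ini σ c), Or.inr ⟨ρ, _, h, rfl⟩, _,
        D.beta_mem_Y (lst ρ (ini σ c)) (lst σ c), ?_⟩
      rw [← F_concat, ← ini_lst]
  · rcases c with _ | ⟨τ, c⟩
    · have := hV.pos; simp at hl; omega
    obtain ⟨y1, y2, h1, h2, h3⟩ := D.left_push σ τ hx ha
    obtain ⟨ly, b1, b2, b3⟩ := D.betas_list τ c
    refine fin ⟨[], y1 :: y2 :: ly, by simp, ?_, ?_, by simp at hl ⊢; omega⟩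
    · intro y hy
      simp only [List.mem_cons] at hy
      rcases hy with rfl | rfl | hy
      · exact h1
      · exact h2
      · exact b1 y hy
    · simp only [List.flatten_nil, List.nil_append, List.flatten_cons, b2,
        ← List.append_assoc y1, ← h3]
      simp [F, betas]

lemma sol_right {j : ℕ} {V : Set (List S)} (hV : D.Closed j V) {y z : List (Ltr S G)}
    (hy : y ∈ D.Y) (hz : z ∈ D.Sol j V) : ∃ x ∈ D.X, ∃ z' ∈ D.Sol j V, x ++ z' = z ++ y := by
  have fin : D.XY1 (j + 1) (z ++ y) → ∃ x ∈ D.X, ∃ z' ∈ D.Sol j V, x ++ z' = z ++ y := by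
    intro h
    obtain ⟨x, z', h1, h2, h3⟩ := h.pop_first
    exact ⟨x, h1, z', Or.inl h2, h3.symm⟩
  rcases hz with hz | ⟨σ, c, hc, rfl⟩
  · have h := hz.append [y] (by simpa using hy)
    simp only [List.length_singleton, List.flatten_cons, List.flatten_nil, List.append_nil] at h
    obtain ⟨lx, ly, h1, h2, h3, h4⟩ := h
    by_cases hx : lx = []
    swap
    · exact fin ⟨lx, ly, hx, h1, h2, h3, h4⟩
    subst hx
    rcases ly with _ | ⟨y1, ly⟩
    · simp at h4
    have h2' : ∀ y ∈ ly, y ∈ D.Y := fun y hy => h2 y (List.mem_cons_of_mem _ hy)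
    by_cases hb : y1 = D.Bnu
    swap
    · exact fin ⟨[y1], ly, by simp, by simpa using ⟨h2 y1 (by simp), hb⟩, h2', by simpa using h3,
        by simp at h4 ⊢; omega⟩
    subst hb
    have hj : ly.length = j := by simpa using h4
    have e : z ++ y = [Ltr.b D.nu] ++ (D.P D.nu ++ ly.flatten) := by simpa [Bnu] using h3
    rcases D.split_Y D.nu ly h2' with ⟨c, a1, a2⟩ | ⟨c, y', rest, a1, a2, a3, a4, a5⟩
    · refine ⟨_, D.q_mem_X, D.F D.nu c, ?_, by rw [e, a1, F]⟩
      rcases hV.start c with h | h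
      · exact Or.inl (by simpa [a2, hj] using (D.esc_XY h).xy)
      · exact Or.inr ⟨_, _, h.2 (by omega), rfl⟩
    · rcases hV.start c with h | h
      · refine ⟨_, D.q_mem_X, D.F D.nu c ++ (y' :: rest).flatten, Or.inl ?_, ?_⟩
        · have := (D.esc_XY h).xy.append (y' :: rest) (by
            intro y hy
            rcases List.mem_cons.mp hy with rfl | hy
            · exact a3
            · exact a4 y hy)
          convert this using 1
          simp; omega
        · rw [e, a1]; simp [F]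
      · apply fin
        have hok : ∀ ρ ∈ ini D.nu c, D.ok ρ := by
          intro ρ hρ
          rcases List.mem_cons.mp (mem_ini hρ) with rfl | h'
          · exact D.ok_nu
          · exact h.1 ρ h'
        have := D.ext_push ([Ltr.b D.nu] :: (ini D.nu c).map fun ρ => D.P ρ ++ [Ltr.b ρ])
          (by simp) (by
            intro x hx
            rcases List.mem_cons.mp hx with rfl | hx
            · exact ⟨Basic.q, D.q_mem_X⟩
            · exact D.alpha_list _ hok x hx) (lst D.nu c) a3 a5 rest a4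
        convert this using 1
        · simp [length_ini]; omega
        · have e2 := D.F_ini D.nu c
          rw [F, body] at e2
          rw [e, a1, List.flatten_cons, List.append_assoc [Ltr.b D.nu], ← e2]
          simp
  have hl : c.length = j := by simpa using hV.len _ hc
  by_cases hb : ∃ τ, y = Ltr.b (lst σ c) :: D.P τ
  · obtain ⟨τ, rfl⟩ := hb
    rw [← F_concat] at fin ⊢
    rcases hV.right σ c τ hc with h | h
    · exact fin (by simpa [hl] using D.esc_XY h)
    · rcases hc' : c ++ [τ] with _ | ⟨ρ, c'⟩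
      · simp at hc'
      · rw [hc'] at h
        exact ⟨_, D.alpha_mem_X (hV.ok _ hc σ (by simp)), D.F ρ c', Or.inr ⟨ρ, c', h, rfl⟩,
          (D.F_cons σ ρ c').symm⟩
  · apply fin
    have := D.ext_push ((ini σ c).map fun ρ => D.P ρ ++ [Ltr.b ρ]) (by
        intro h
        have h1 := congrArg List.length h
        have := hV.pos
        simp [length_ini] at h1
        simp [h1] at hl
        omega)
      (D.alpha_list _ fun ρ hρ => hV.ok _ hc ρ (mem_ini hρ)) (lst σ c) hy hb [] (by simp)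
    convert this using 1
    · simp [length_ini, hl]
    · rw [F_ini, body]; simp

theorem positive {j : ℕ} {V : Set (List S)} (hV : D.Closed j V) :
    (D.Sol j V).Nonempty ∧
      Set.image2 (· ++ ·) D.X (D.Sol j V) = Set.image2 (· ++ ·) (D.Sol j V) D.Y := by
  constructor
  · refine ⟨_, Or.inl ⟨List.replicate j [Ltr.t], [], ?_, by simp, rfl, by simp⟩⟩
    intro x hx
    rw [List.eq_of_mem_replicate hx]
    exact D.t_mem_X
  · apply Set.Subset.antisymm
    · rintro _ ⟨x, hx, z, hz, rfl⟩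
      exact D.sol_left hV hx hz
    · rintro _ ⟨z, hz, y, hy, rfl⟩
      exact D.sol_right hV hy hz

lemma finite_XY (hY : D.Y.Finite) (n : ℕ) : {w | D.XY n w}.Finite := by
  induction n with
  | zero =>
    refine (Set.finite_singleton []).subset ?_
    rintro w ⟨lx, ly, -, -, rfl, h⟩
    have h1 : lx = [] := List.length_eq_zero_iff.mp (by omega)
    have h2 : ly = [] := List.length_eq_zero_iff.mp (by omega)
    simp [h1, h2]
  | succ n ih =>
    refine (ih.image2 (· ++ ·) hY).subset ?_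
    intro w hw
    obtain ⟨z, y, h1, h2, rfl⟩ := XY.pop_last hw
    exact ⟨z, h1, y, h2, rfl⟩

theorem finite_Sol [Finite S] (hY : D.Y.Finite) {j : ℕ} {V : Set (List S)}
    (hV : D.Closed j V) : (D.Sol j V).Finite := by
  refine ((D.finite_XY hY j).union
    (((Set.finite_univ (α := S)).image2 D.F (List.finite_length_eq S j)))).subset ?_
  rintro w (h | ⟨σ, c, h, rfl⟩)
  · exact Or.inl h
  · exact Or.inr ⟨σ, trivial, c, by simpa using hV.len _ h, rfl⟩

end Sys

end Pool.Agent.Lib.MP_60077b_lc
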