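import Pool.Agent.Lib.MP_60077b_lc.Queue

/-! Layer B, part 2: an eventually periodic queue machine gives a closed family of windows. -/

namespace Pool.Agent.Lib.MP_60077b_lc

namespace Sys

variable {S G : Type} {D : Sys S G}

lemma NoHit.sub {p l q w : List S} (h : D.NoHit w) (e : w = p ++ l ++ q) : D.NoHit l := by
  intro p' ρ v τ q' e'
  exact h (p ++ p') ρ v τ (q' ++ q) (by simp [e, e'])

lemma noHit_of_not_esc {l : List S} {τ : S} (h : ¬ D.Esc (l ++ [τ])) (hl : ∀ σ ∈ l, D.ok σ) :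
    D.NoHit (l ++ [τ]) := by
  intro p ρ v τ' q e hh
  refine h ⟨p, ρ, v, τ', q, e, fun σ hσ => hl σ ?_, hh⟩
  rcases List.eq_nil_or_concat q with rfl | ⟨q', t, rfl⟩
  · rw [(List.append_inj' e rfl).1]; simp [hσ]
  · have e' : l ++ [τ] = (p ++ ρ :: v ++ τ' :: q') ++ [t] := by simp [e]
    rw [(List.append_inj' e' rfl).1]; simp [hσ]

lemma Esc.append {l : List S} (h : D.Esc l) (q : List S) : D.Esc (l ++ q) := by
  obtain ⟨u, σ, v, τ, u', e, h⟩ := h
  exact ⟨u, σ, v, τ, u' ++ q, by simp [e], h⟩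

end Sys

variable {Z : Type} {n : ℕ}

namespace QM

variable (Q : QM Z n) [Finite Z]

lemma adj {w : List (Sy Z)} (h : Q.sys.NoHit w) (p : List (Sy Z)) {σ τ : Sy Z} {q : List (Sy Z)}
    (e : w = p ++ σ :: τ :: q) : Q.E σ τ := by
  by_contra hE
  exact h p σ [] τ q (by simp [e]) ⟨St.last σ, St.last σ, 0, Sw.last σ, Sys.Path.nil _, hE, le_rfl⟩

lemma path_unit {g : St Z n} {s : ℕ} (x : Z × Bool) (h : Q.Tr g (Sy.A x) [Sy.B x] s g) (i : ℕ) :
    Q.sys.Path g (Us x i) ((s + 1) * i) g := by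
  induction i with
  | zero => exact Sys.Path.nil g
  | succ i ih =>
    have := Sys.Path.cons (D := Q.sys) h ih
    rwa [show s + 1 + (s + 1) * i = (s + 1) * (i + 1) by ring] at this

lemma path_skip (g o f k) (x : Z × Bool) (e : Fin 3) :
    Q.sys.Path (St.C g o e f k) (Us x e.val) (2 * e.val) (St.C g o 0 f k) := by
  have h1 : Q.sys.Path (St.C g o 1 f k) (Us x 1) 2 (St.C g o 0 f k) :=
    Sys.Path.single (D := Q.sys) (Tr.skip g o 1 0 f k x rfl)
  fin_cases e
  · exact Sys.Path.nil _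
  · exact h1
  · exact Sys.Path.cons (D := Q.sys) (Tr.skip g o 2 1 f k x rfl) h1

lemma path_wd (g o) (ps : List ℕ) (z : Z) (f : Bool) (k : Fin (n + 1)) (hk : k.val = ps.length) :
    ∃ f', Q.sys.Path (St.C g o 0 f k) (Q.wd z ps) (Q.wd z ps).length (St.C g o 0 f' 0) := by
  induction ps generalizing z f k with
  | nil =>
    obtain rfl : k = 0 := Fin.ext hk
    exact ⟨f, Sys.Path.nil _⟩
  | cons p ps ih =>
    have hk' : ps.length < n + 1 := by have := k.2; simp at hk; omega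
    obtain ⟨f', h⟩ := ih (Q.nxt (z, fl p)) false ⟨ps.length, hk'⟩ rfl
    have := Sys.Path.cons (D := Q.sys) (Tr.mark g o f k ⟨ps.length, hk'⟩ (z, fl p) hk)
      ((Q.path_unit (z, fl p) (Tr.unit g o false _ _) p).append h)
    refine ⟨f', ?_⟩
    have e : 0 + 1 + ((wt g false + 1) * p + (Q.wd (Q.nxt (z, fl p)) ps).length) =
        (Q.wd z (p :: ps)).length := by simp [wd, wt]; omega
    rwa [e] at this

lemma hitG (x y : Z × Bool) (p : ℕ) (z : Z) (ps : List ℕ) (hps : ps.length = n) (τ : Sy Z) :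
    Q.sys.Hit (Sy.M x) (Us x p ++ Q.wd z ps ++ Sy.M y :: Us y (Q.d x + p)) τ := by
  obtain ⟨f', h⟩ := Q.path_wd true (some x) ps z true (Fin.last n) (by simp [hps])
  have := ((Q.path_unit x (Tr.unit true (some x) true _ x) p).append h).append
    (Sys.Path.cons (D := Q.sys) (Tr.finG (some x) f' y) (Q.path_unit y (Tr.fu true y) p))
  rw [List.cons_append, ← Us_add] at this
  refine ⟨_, _, _, Sw.G x, this, Or.inl rfl, ?_⟩
  simp [wt, dd]; omega

lemma hitL (x y y' : Z × Bool) (p c : ℕ) (z : Z) (ps : List ℕ) (hps : ps.length = n)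
    (hc : c + 2 ≤ p + Q.d x) :
    Q.sys.Hit (Sy.M x) (Us x p ++ Q.wd z ps ++ Sy.M y :: Us y c) (Sy.M y') := by
  obtain ⟨f', h⟩ := Q.path_wd false (some x) ps z true (Fin.last n) (by simp [hps])
  have := (((Q.path_skip false (some x) true _ x ⟨2 - Q.d x, by omega⟩).append
    (Q.path_unit x (Tr.unit false (some x) true _ x) (p - (2 - Q.d x)))).append h).append
    (Sys.Path.cons (D := Q.sys) (Tr.finL (some x) f' y) (Q.path_unit y (Tr.fu false y) c))
  rw [← Us_add, show (2 - Q.d x) + (p - (2 - Q.d x)) = p by omega] at this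
  refine ⟨_, _, _, Sw.L x _ rfl, this, Or.inr ⟨y', rfl⟩, ?_⟩
  simp [wt, dd]; omega

lemma hitLB (x y y' : Z × Bool) (i c : ℕ) (z : Z) (ps : List ℕ) (hps : ps.length = n)
    (hc : c + 1 ≤ i) :
    Q.sys.Hit (Sy.B x) (Us x i ++ Q.wd z ps ++ Sy.M y :: Us y c) (Sy.M y') := by
  obtain ⟨f', h⟩ := Q.path_wd false (some x) ps z true (Fin.last n) (by simp [hps])
  have := (((Q.path_skip false (some x) true _ x 1).append
    (Q.path_unit x (Tr.unit false (some x) true _ x) (i - 1))).append h).append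
    (Sys.Path.cons (D := Q.sys) (Tr.finL (some x) f' y) (Q.path_unit y (Tr.fu false y) c))
  rw [← Us_add, show (1 : Fin 3).val + (i - 1) = i by simp; omega] at this
  refine ⟨_, _, _, Sw.LB x, this, Or.inr ⟨y', rfl⟩, ?_⟩
  simp [wt, dd]; omega

lemma hitI (y : Z × Bool) (z : Z) (ps : List ℕ) (hps : ps.length ≤ n) (τ : Sy Z) :
    Q.sys.Hit Sy.nu (Q.wd z ps ++ Sy.M y :: Us y 1) τ := by
  obtain ⟨f', h⟩ := Q.path_wd true none ps z false ⟨ps.length, by omega⟩ rfl
  have := h.append (Sys.Path.single (D := Q.sys) (Tr.finG none f' y))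
  refine ⟨_, _, _, Sw.I _, this, Or.inl rfl, ?_⟩
  simp [dd]

lemma hitH (x : Z × Bool) (p : ℕ) : Q.sys.Hit (Sy.M x) (Us x p) Sy.h :=
  ⟨_, _, _, Sw.H x, Q.path_unit x (Tr.hu x) p, rfl, by simp⟩

lemma fparse_B (x : Z × Bool) (rest : List (Sy Z)) (h : Q.sys.NoHit (Sy.B x :: rest)) :
    ∃ i tail, rest = Us x i ++ tail ∧ (tail.length ≤ 1 ∨ (∃ b t, tail = Sy.M (Q.nxt x, b) :: t) ∨
      ∃ t, tail = Sy.h :: t) := by
  induction hn : rest.length using Nat.strong_induction_on generalizing rest with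
  | _ m ih =>
    rcases rest with _ | ⟨σ, _ | ⟨τ, rest⟩⟩
    · exact ⟨0, [], rfl, Or.inl (by simp)⟩
    · exact ⟨0, _, rfl, Or.inl (by simp)⟩
    · have h1 := Q.adj h [] rfl
      have h2 := Q.adj h [Sy.B x] rfl
      cases h1 with
      | BA =>
        cases h2 with
        | AB =>
          obtain ⟨i, tail, e, h3⟩ := ih rest.length (by simp at hn; omega) rest
            (h.sub (p := [Sy.B x, Sy.A x]) (q := []) (by simp)) rfl
          exact ⟨i + 1, tail, by simp [Us, e], h3⟩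
      | BM _ b => exact ⟨0, _, rfl, Or.inr (Or.inl ⟨b, _, rfl⟩)⟩
      | Bh => exact ⟨0, _, rfl, Or.inr (Or.inr ⟨_, rfl⟩)⟩

lemma fparse_M (x : Z × Bool) (rest : List (Sy Z)) (h : Q.sys.NoHit (Sy.M x :: rest)) :
    ∃ i tail, rest = Us x i ++ tail ∧
      (tail.length ≤ 1 ∨ (x.2 = fl i ∧ ∃ b t, tail = Sy.M (Q.nxt x, b) :: t)) := by
  rcases rest with _ | ⟨σ, _ | ⟨τ, rest⟩⟩
  · exact ⟨0, [], rfl, Or.inl (by simp)⟩
  · exact ⟨0, _, rfl, Or.inl (by simp)⟩
  · have h1 := Q.adj h [] rfl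
    have h2 := Q.adj h [Sy.M x] rfl
    cases h1 with
    | MA z =>
      cases h2 with
      | AB =>
        obtain ⟨i, tail, e, h3⟩ := Q.fparse_B (z, false) rest
          (h.sub (p := [Sy.M (z, false), Sy.A (z, false)]) (q := []) (by simp))
        refine ⟨i + 1, tail, by simp [Us, e], ?_⟩
        rcases h3 with h3 | h3 | ⟨t, rfl⟩
        · exact Or.inl h3
        · exact Or.inr ⟨by simp [fl], h3⟩
        · exact absurd (Q.hitH (z, false) (i + 1)) (h [] _ _ _ t (by simp [Us, e]))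
    | MM z b => exact ⟨0, _, rfl, Or.inr ⟨rfl, b, _, rfl⟩⟩

lemma too_long {x y : Z × Bool} {p c : ℕ} {z : Z} {ps : List ℕ} (hps : ps.length = n)
    {t : List (Sy Z)} (h : Q.sys.NoHit (Sy.M x :: (Us x p ++ Q.wd z ps ++ Sy.M y :: (Us y c ++ t))))
    (ht : 2 * (p + Q.d x) < 2 * c + t.length) : c < p + Q.d x := by
  by_contra hc
  obtain ⟨τ, q, e⟩ := List.exists_cons_of_length_pos
    (l := Us y (c - (Q.d x + p)) ++ t) (by simp; omega)
  refine h [] _ _ τ q ?_ (Q.hitG x y p z ps hps τ)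
  rw [show c = (Q.d x + p) + (c - (Q.d x + p)) by omega, Us_add, List.append_assoc (Us y _), e]
  simp

lemma block_rel {x y y' : Z × Bool} {p c : ℕ} {z : Z} {ps : List ℕ} (hps : ps.length = n)
    {t : List (Sy Z)}
    (h : Q.sys.NoHit (Sy.M x :: (Us x p ++ Q.wd z ps ++ Sy.M y :: (Us y c ++ Sy.M y' :: t)))) :
    c = p + Q.d x - 1 := by
  have h1 : c < p + Q.d x := by
    by_contra hc
    exact hc (Q.too_long hps h (by simp; omega))
  have h2 : ¬ c + 2 ≤ p + Q.d x := fun hc =>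
    h [] _ _ _ t (by simp) (Q.hitL x y y' p c z ps hps hc)
  omega

omit [Finite Z] in
/-- The window `w` contains a full configuration. -/
def Has (s : Z × List ℕ) (w : List (Sy Z)) : Prop :=
  ∃ a b t, w = a ++ Q.wd s.1 s.2 ++ Sy.M (Q.endz s.1 s.2, b) :: t

lemma fwd {z : Z} {p : ℕ} {ps : List ℕ} (hps : ps.length = n) {b : Bool} {rest : List (Sy Z)}
    {σ : Sy Z} {c : List (Sy Z)}
    (e : σ :: c = Q.wd z (p :: ps) ++ Sy.M (Q.endz z (p :: ps), b) :: rest)
    (h : Q.sys.NoHit (σ :: c)) (hl : 2 * (p + Q.Dm) + 2 ≤ rest.length) :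
    Q.Has (Q.step (z, p :: ps)) c := by
  obtain ⟨i, tail, rfl, h1⟩ := Q.fparse_M _ rest (h.sub (q := []) (by rw [e, List.append_nil]))
  have hd := Q.d_le (z, fl p)
  simp only [wd, List.cons_append, List.cons.injEq] at e
  obtain ⟨rfl, rfl⟩ := e
  simp only [List.length_append, length_Us] at hl
  have h2 := Q.too_long hps h (by omega)
  rcases h1 with h1 | ⟨h1, b', t, rfl⟩
  · omega
  have h3 := Q.block_rel hps h
  simp only at h1
  subst h1
  refine ⟨Us (z, fl p) p, b', t, ?_⟩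
  simp only [step, ← h3, wd_append, endz_append, wd, endz]
  simp

lemma bparse (x : Z × Bool) (l : List (Sy Z)) (h : Q.sys.NoHit (l ++ [Sy.B x])) :
    ∃ i, l ++ [Sy.B x] = Us x i ∨ l ++ [Sy.B x] = Sy.B x :: Us x i ∨
      ∃ l', l ++ [Sy.B x] = l' ++ Sy.M x :: Us x i ∧ x.2 = false ∧ 1 ≤ i := by
  induction hn : l.length using Nat.strong_induction_on generalizing l with
  | _ m ih =>
    rcases List.eq_nil_or_concat' l with rfl | ⟨l1, σ, rfl⟩
    · exact ⟨0, Or.inr (Or.inl rfl)⟩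
    have h1 := Q.adj h l1 (σ := σ) (τ := Sy.B x) (q := []) (by simp)
    cases h1 with
    | AB =>
    rcases List.eq_nil_or_concat' l1 with rfl | ⟨l2, σ, rfl⟩
    · exact ⟨1, Or.inl rfl⟩
    have h2 := Q.adj h l2 (σ := σ) (τ := Sy.A x) (q := [Sy.B x]) (by simp)
    cases h2 with
    | MA z => exact ⟨1, Or.inr (Or.inr ⟨l2, by simp [Us], rfl, le_rfl⟩)⟩
    | BA =>
      obtain ⟨i, h3⟩ := ih l2.length (by simp at hn; omega) l2
        (h.sub (p := []) (q := [Sy.A x, Sy.B x]) (by simp)) rfl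
      refine ⟨i + 1, ?_⟩
      rcases h3 with h3 | h3 | ⟨l', h3, h4, h5⟩
      · left; rw [h3, Us_add]; simp [Us]
      · right; left; rw [h3, Us_add]; simp [Us]
      · right; right; exact ⟨l', by rw [h3, Us_add]; simp [Us], h4, by omega⟩

omit [Finite Z] in
lemma mem_Us {x : Z × Bool} {i : ℕ} {σ : Sy Z} (h : σ ∈ Us x i) : σ = Sy.A x ∨ σ = Sy.B x := by
  induction i with
  | zero => simp [Us] at h
  | succ i ih =>
    simp only [Us, List.mem_cons] at h
    tauto

lemma before_h {l : List (Sy Z)} (h : Q.sys.NoHit (l ++ [Sy.h])) (hl : ∀ σ ∈ l, σ ≠ Sy.h) :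
    ∀ σ ∈ l, ∃ x, σ = Sy.A x ∨ σ = Sy.B x := by
  rcases List.eq_nil_or_concat' l with rfl | ⟨l1, σ, rfl⟩
  · simp
  have h1 := Q.adj h l1 (σ := σ) (τ := Sy.h) (q := []) (by simp)
  cases h1 with
  | hh => exact absurd rfl (hl _ (by simp))
  | Bh x =>
    obtain ⟨i, h2 | h2 | ⟨l', h2, -⟩⟩ := Q.bparse x l1 (h.sub (p := []) (q := [Sy.h]) (by simp))
    · rw [h2]; exact fun σ hσ => ⟨x, mem_Us hσ⟩
    · rw [h2]
      intro σ hσ
      rcases List.mem_cons.mp hσ with rfl | hσ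
      · exact ⟨x, Or.inr rfl⟩
      · exact ⟨x, mem_Us hσ⟩
    · exact absurd (Q.hitH x i) (h l' _ _ _ [] (by rw [h2]))

lemma before_nu (l : List (Sy Z)) (h : Q.sys.NoHit (l ++ [Sy.nu])) :
    ∃ l', l ++ [Sy.nu] = Sy.nu :: l' := by
  induction l with
  | nil => exact ⟨[], rfl⟩
  | cons ρ l ih =>
    obtain ⟨l', e⟩ := ih (h.sub (p := [ρ]) (q := []) (by simp))
    have := Q.adj h [] (σ := ρ) (τ := Sy.nu) (q := l') (by simp [e])
    cases this with
    | nn => exact ⟨_, rfl⟩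

lemma bwd {z : Z} {p' : ℕ} {ps : List ℕ} (hps : ps.length = n) {y : Z × Bool} {a : List (Sy Z)}
    (h : Q.sys.NoHit (a ++ Q.wd z (ps ++ [p']) ++ [Sy.M y])) (hl : 2 * p' + 4 ≤ a.length) :
    (∃ l, a = Sy.nu :: l) ∨ ∃ z1 p, Q.step (z1, p :: ps) = (z, ps ++ [p']) ∧
      Q.Has (z1, p :: ps) (a ++ Q.wd z (ps ++ [p'])) := by
  obtain ⟨b0, t0, e0⟩ : ∃ b t, Q.wd z (ps ++ [p']) = Sy.M (z, b) :: t := by
    cases ps with
    | nil => exact ⟨_, _, rfl⟩
    | cons => exact ⟨_, _, rfl⟩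
  have e1 : Q.wd z (ps ++ [p']) = Q.wd z ps ++ Sy.M (Q.endz z ps, fl p') ::
      Us (Q.endz z ps, fl p') p' := by simp [wd_append, wd]
  have key : ∀ a' z1 p, a = a' ++ Sy.M (z1, fl p) :: Us (z1, fl p) p → Q.nxt (z1, fl p) = z →
      ∃ z1 p, Q.step (z1, p :: ps) = (z, ps ++ [p']) ∧
        Q.Has (z1, p :: ps) (a ++ Q.wd z (ps ++ [p'])) := by
    intro a' z1 p ea ez
    have := Q.block_rel (x := (z1, fl p)) (p := p) (z := z) (y' := y) (t := [])
      (y := (Q.endz z ps, fl p')) (c := p') hps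
      (h.sub (p := a') (q := []) (by rw [ea, e1]; simp))
    refine ⟨z1, p, by simp [step, ez, this], a', fl p', Us (Q.endz z ps, fl p') p', ?_⟩
    simp [ea, e1, wd, endz, ez]
  rcases List.eq_nil_or_concat' a with rfl | ⟨a0, σ, rfl⟩
  · simp at hl
  have h1 := Q.adj h a0 (σ := σ) (τ := Sy.M (z, b0)) (q := t0 ++ [Sy.M y]) (by simp [e0])
  generalize hτ : Sy.M (z, b0) = τ at h1
  cases h1 with
  | nn => simp at hτ
  | nM => exact Or.inl (Q.before_nu a0 (h.sub (p := []) (by rw [List.nil_append, List.append_assoc])))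
  | hh => simp at hτ
  | MA => simp at hτ
  | AB => simp at hτ
  | BA => simp at hτ
  | MM z1 b =>
    simp only [Sy.M.injEq, Prod.mk.injEq] at hτ
    exact Or.inr (key a0 z1 0 rfl hτ.1.symm)
  | Bh => simp at hτ
  | BM x b =>
    simp only [Sy.M.injEq, Prod.mk.injEq] at hτ
    obtain ⟨i, h2 | h2 | ⟨l', h2, h3, h4⟩⟩ := Q.bparse x a0
      (h.sub (p := []) (by rw [List.nil_append, List.append_assoc]))
    · rw [h2] at h hl
      simp only [length_Us] at hl
      obtain ⟨i, rfl⟩ : ∃ i', i = i' + 1 := ⟨i - 1, by omega⟩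
      exact absurd (Q.hitLB x (Q.endz z ps, fl p') y i p' z ps hps (by omega))
        (h [Sy.A x] _ _ _ [] (by rw [e1]; simp [Us]))
    · rw [h2] at h hl
      simp only [List.length_cons, length_Us] at hl
      exact absurd (Q.hitLB x (Q.endz z ps, fl p') y i p' z ps hps (by omega))
        (h [] _ _ _ [] (by rw [e1]; simp))
    · obtain ⟨z1, b1⟩ := x
      have : b1 = fl i := by simp only at h3; simp [h3, fl]; omega
      subst this
      exact Or.inr (key l' z1 i h2 hτ.1.symm)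

lemma ini_has {y : Z × Bool} {rest : List (Sy Z)} (h : Q.sys.NoHit (Sy.nu :: Sy.M y :: rest))
    (hl : n + 4 ≤ rest.length) (k : ℕ) (hk : k ≤ n + 1) : ∃ b t, Sy.M y :: rest =
      Q.wd Q.z0 (List.replicate k 0) ++ Sy.M (Q.endz Q.z0 (List.replicate k 0), b) :: t := by
  induction k with
  | zero =>
    have := Q.adj h [] rfl
    cases this with
    | nM b => exact ⟨b, rest, rfl⟩
  | succ k ih =>
    obtain ⟨b, t, e⟩ := ih (by omega)
    have hlen := congrArg List.length e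
    simp [length_wd] at hlen
    obtain ⟨i, tail, rfl, h1⟩ := Q.fparse_M (Q.endz Q.z0 (List.replicate k 0), b) t
      (h.sub (p := Sy.nu :: Q.wd Q.z0 (List.replicate k 0)) (q := []) (by rw [e]; simp))
    cases i with
    | succ i =>
      obtain ⟨τ, q, e'⟩ := List.exists_cons_of_length_pos
        (l := Us (Q.endz Q.z0 (List.replicate k 0), b) i ++ tail) (by simp at hlen ⊢; omega)
      exact absurd (Q.hitI (Q.endz Q.z0 (List.replicate k 0), b) Q.z0 (List.replicate k 0)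
        (by simp; omega) τ) (h [] _ _ _ q (by rw [e]; simp [Us, e']))
    | zero =>
      rcases h1 with h1 | ⟨h1, b', t', rfl⟩
      · simp at hlen; omega
      simp only at h1
      subst h1
      refine ⟨b', t', ?_⟩
      rw [e, List.replicate_succ', wd_append, endz_append]
      simp [wd, endz]

theorem closed_of (C : Set (Z × List ℕ)) (K : ℕ) (h0 : Q.init ∈ C)
    (h1 : ∀ s ∈ C, s.2.length = n + 1 ∧ s.2.sum ≤ K) (h2 : ∀ s ∈ C, Q.step s ∈ C)
    (h3 : ∀ s, s.2.length = n + 1 → Q.step s ∈ C → s ∈ C) : ∃ j V, Q.sys.Closed j V := by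
  refine ⟨n + 4 * K + 2 * Q.Dm + 10, {w | w.length = n + 4 * K + 2 * Q.Dm + 10 + 1 ∧
    (∀ σ ∈ w, σ ≠ Sy.h) ∧ ((∃ l, w = Sy.nu :: l) ∨ ∃ s ∈ C, Q.Has s w)}, by omega,
    fun w hw => hw.1, fun w hw => hw.2.1, ?_, ?_, ?_⟩
  · rintro σ c τ ⟨a1, a2, a3⟩
    by_cases hE : Q.sys.Esc (σ :: (c ++ [τ]))
    · exact Or.inl hE
    right
    have hn : Q.sys.NoHit (σ :: c ++ [τ]) := Sys.noHit_of_not_esc hE a2
    simp only [List.length_cons] at a1
    refine ⟨by simp; omega, ?_, ?_⟩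
    · intro ρ hρ
      rcases List.mem_append.mp hρ with hρ | hρ
      · exact a2 ρ (by simp [hρ])
      · rw [List.mem_singleton.mp hρ]
        rintro rfl
        have := Q.before_h hn a2
        rcases a3 with ⟨l, e⟩ | ⟨s, -, a, b, t, e⟩
        · obtain ⟨x, hx | hx⟩ := this Sy.nu (by simp [e]) <;> simp at hx
        · obtain ⟨x, hx | hx⟩ := this (Sy.M (Q.endz s.1 s.2, b)) (by simp [e]) <;> simp at hx
    · rcases a3 with ⟨l, e⟩ | ⟨⟨z, ps⟩, hs, a, b, t, e⟩
      · obtain ⟨rfl, rfl⟩ := List.cons.inj e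
        rcases c with _ | ⟨ρ, c⟩
        · simp at a1
        have := Q.adj hn [] (σ := Sy.nu) (τ := ρ) (q := c ++ [τ]) rfl
        cases this with
        | nn => exact Or.inl ⟨_, rfl⟩
        | nM b =>
          obtain ⟨b', t, e'⟩ := Q.ini_has hn (by simp at a1 ⊢; omega) (n + 1) le_rfl
          exact Or.inr ⟨Q.init, h0, [], b', t, e'⟩
      · right
        rcases a with _ | ⟨ρ, a⟩
        · obtain ⟨b1, b2⟩ := h1 _ hs
          rcases ps with _ | ⟨p, ps⟩
          · simp at b1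
          have hlen := congrArg List.length e
          simp [length_wd] at hlen b1 b2
          exact ⟨_, h2 _ hs, Q.fwd (b := b) (rest := t ++ [τ]) (by omega)
            (by rw [← List.cons_append, e]; simp) hn (by simp; omega)⟩
        · simp only [List.cons_append, List.cons.injEq] at e
          exact ⟨_, hs, a, b, t ++ [τ], by simp [e.2]⟩
  · rintro ρ c τ ⟨a1, a2, a3⟩ hρ
    by_cases hE : Q.sys.Esc (ρ :: (c ++ [τ]))
    · exact Or.inl hE
    right
    have a2' : ∀ σ ∈ ρ :: c, σ ≠ Sy.h := by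
      intro σ hσ
      rcases List.mem_cons.mp hσ with rfl | hσ
      · exact hρ
      · exact a2 σ (by simp [hσ])
    have hn : Q.sys.NoHit (ρ :: c ++ [τ]) := Sys.noHit_of_not_esc hE a2'
    refine ⟨by simpa using a1, a2', ?_⟩
    rcases a3 with ⟨l, e⟩ | ⟨⟨z, ps⟩, hs, a, b, t, e⟩
    · have := Q.adj hn [] (σ := ρ) (τ := Sy.nu) (q := l) (by simp [e])
      cases this with
      | nn => exact Or.inl ⟨_, rfl⟩
    · rcases List.eq_nil_or_concat' t with rfl | ⟨t', μ, rfl⟩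
      · obtain ⟨b1, b2⟩ := h1 _ hs
        rcases List.eq_nil_or_concat' ps with rfl | ⟨ps', p', rfl⟩
        · simp at b1
        obtain ⟨rfl, e'⟩ := List.append_inj' e rfl
        obtain ⟨rfl, -⟩ := List.cons.inj e'
        simp [length_wd] at a1 b1 b2
        rcases Q.bwd (a := ρ :: a) (ps := ps') (by omega) hn (by simp; omega) with
          ⟨l, e⟩ | ⟨z1, p, c1, c2⟩
        · exact Or.inl ⟨_, by rw [← List.cons_append, e]; rfl⟩
        · exact Or.inr ⟨_, h3 _ (by simp; omega) (c1 ▸ hs), c2⟩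
      · have e' : c ++ [τ] = (a ++ Q.wd z ps ++ Sy.M (Q.endz z ps, b) :: t') ++ [μ] := by
          simp [e]
        exact Or.inr ⟨_, hs, ρ :: a, b, t', by simp [(List.append_inj' e' rfl).1]⟩
  · intro c
    by_cases hc : ∀ σ ∈ c, σ ≠ Sy.h
    · refine Or.inr ⟨hc, fun hl => ⟨by simp [hl], ?_, Or.inl ⟨c, rfl⟩⟩⟩
      intro σ hσ
      rcases List.mem_cons.mp hσ with rfl | hσ
      · simp [sys]
      · exact hc σ hσ
    · left
      have hm : Sy.h ∈ c := by simpa using hc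
      obtain ⟨l, l', rfl, hl⟩ := List.eq_append_cons_of_mem hm
      have hl' : ∀ σ ∈ Sy.nu :: l, σ ≠ Sy.h := by
        intro σ hσ
        rcases List.mem_cons.mp hσ with rfl | hσ
        · simp
        · rintro rfl; exact hl hσ
      by_contra hE
      have hn : Q.sys.NoHit (Sy.nu :: l ++ [Sy.h]) := Sys.noHit_of_not_esc
        (fun h => hE (by simpa [sys] using h.append l')) hl'
      obtain ⟨x, hx | hx⟩ := Q.before_h hn hl' Sy.nu (by simp) <;> simp at hx

omit [Finite Z] in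
lemma length_iter (s : Z × List ℕ) (i : ℕ) : (Q.step^[i] s).2.length = s.2.length := by
  induction i generalizing s with
  | zero => rfl
  | succ i ih =>
    rw [Function.iterate_succ_apply, ih]
    obtain ⟨z, _ | ⟨p, ps⟩⟩ := s <;> simp [step]

omit [Finite Z] in
lemma pot_iter (s : Z × List ℕ) (i : ℕ) :
    s.2.sum + Q.w (Q.step^[i] s).1 ≤ (Q.step^[i] s).2.sum + Q.w s.1 := by
  induction i generalizing s with
  | zero => exact le_rfl
  | succ i ih =>
    rw [Function.iterate_succ_apply]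
    have := ih (Q.step s)
    obtain ⟨z, _ | ⟨p, ps⟩⟩ := s
    · exact this
    · have h1 := Q.hw (z, fl p)
      have h2 := Q.d_add z p
      simp [step] at this h1 ⊢
      omega

theorem closed_of_periodic {T P : ℕ} (hP : 0 < P)
    (h : Q.step^[P] (Q.step^[T] Q.init) = Q.step^[T] Q.init) : ∃ j V, Q.sys.Closed j V := by
  refine Q.closed_of {s | s.2.length = n + 1 ∧ ∃ i, Q.step^[i] s = Q.step^[T] Q.init}
    ((Q.step^[T] Q.init).2.sum + 1) ⟨by simp [init], T, rfl⟩ ?_ ?_ ?_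
  · rintro s ⟨h1, i, h2⟩
    have := Q.pot_iter s i
    have := Q.w_le s.1
    rw [h2] at *
    exact ⟨h1, by omega⟩
  · rintro s ⟨h1, i, h2⟩
    refine ⟨(Q.length_iter s 1).trans h1, P - 1 + i, ?_⟩
    rw [← Function.iterate_succ_apply, show (P - 1 + i).succ = P + i by omega,
      Function.iterate_add_apply, h2, h]
  · rintro s h1 ⟨-, i, h2⟩
    exact ⟨h1, i + 1, h2⟩

end QM

end Pool.Agent.Lib.MP_60077b_lc
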