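import Pool.Agent.Lib.MP_60077b_lc.Neg

/-! Layer B, part 1: queue machines and their checking automaton; the unbounded case. -/

namespace Pool.Agent.Lib.MP_60077b_lc

/-- A machine working on a queue of `n + 1` counters. -/
structure QM (Z : Type) (n : ℕ) where
  z0 : Z
  nxt : Z × Bool → Z
  d : Z × Bool → ℕ
  Dm : ℕ
  d_le : ∀ x, d x ≤ Dm
  d_pos : ∀ z, 1 ≤ d (z, true)
  w : Z → ℕ
  w_le : ∀ z, w z ≤ 1
  hw : ∀ x, w (nxt x) + 1 ≤ w x.1 + d x

/-- Symbols. -/
inductive Sy (Z : Type) where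
  | nu : Sy Z
  | h : Sy Z
  | M : Z × Bool → Sy Z
  | A : Z × Bool → Sy Z
  | B : Z × Bool → Sy Z

/-- Checking states. -/
inductive St (Z : Type) (n : ℕ) where
  | last : Sy Z → St Z n
  | C : Bool → Option (Z × Bool) → Fin 3 → Bool → Fin (n + 1) → St Z n
  | F : Bool → St Z n
  | Hc : St Z n

variable {Z : Type} {n : ℕ}

instance [Finite Z] : Finite (Sy Z) := by
  refine Finite.of_surjective (α := Bool ⊕ (Z × Bool) ⊕ (Z × Bool) ⊕ (Z × Bool))
    (Sum.elim (fun b => if b then Sy.nu else Sy.h) (Sum.elim Sy.M (Sum.elim Sy.A Sy.B))) ?_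
  rintro (_ | _ | x | x | x)
  · exact ⟨Sum.inl true, rfl⟩
  · exact ⟨Sum.inl false, rfl⟩
  · exact ⟨Sum.inr (Sum.inl x), rfl⟩
  · exact ⟨Sum.inr (Sum.inr (Sum.inl x)), rfl⟩
  · exact ⟨Sum.inr (Sum.inr (Sum.inr x)), rfl⟩

instance [Finite Z] : Finite (St Z n) := by
  refine Finite.of_surjective
    (α := Sy Z ⊕ (Bool × Option (Z × Bool) × Fin 3 × Bool × Fin (n + 1)) ⊕ Option Bool)
    (Sum.elim St.last (Sum.elim (fun x => St.C x.1 x.2.1 x.2.2.1 x.2.2.2.1 x.2.2.2.2)
      (fun o => o.elim St.Hc St.F))) ?_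
  rintro (x | ⟨a, b, c, d, e⟩ | x | _)
  · exact ⟨Sum.inl x, rfl⟩
  · exact ⟨Sum.inr (Sum.inl (a, b, c, d, e)), rfl⟩
  · exact ⟨Sum.inr (Sum.inr (some x)), rfl⟩
  · exact ⟨Sum.inr (Sum.inr none), rfl⟩

/-- Unary counters. -/
def Us (x : Z × Bool) : ℕ → List (Sy Z)
  | 0 => []
  | i + 1 => Sy.A x :: Sy.B x :: Us x i

@[simp] lemma length_Us (x : Z × Bool) (i : ℕ) : (Us x i).length = 2 * i := by
  induction i with
  | zero => rfl
  | succ i ih => simp [Us, ih]; omega

lemma Us_add (x : Z × Bool) (i k : ℕ) : Us x (i + k) = Us x i ++ Us x k := by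
  induction i with
  | zero => simp [Us]
  | succ i ih => rw [Nat.add_right_comm]; simp [Us, ih]

def fl (p : ℕ) : Bool := decide (p = 0)

def wt (g f : Bool) : ℕ := if f then (if g then 0 else 2) else 1

namespace QM

variable (Q : QM Z n)

def wd : Z → List ℕ → List (Sy Z)
  | _, [] => []
  | z, p :: ps => Sy.M (z, fl p) :: (Us (z, fl p) p ++ wd (Q.nxt (z, fl p)) ps)

def endz : Z → List ℕ → Z
  | z, [] => z
  | z, p :: ps => endz (Q.nxt (z, fl p)) ps

def step : Z × List ℕ → Z × List ℕ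
  | (z, []) => (z, [])
  | (z, p :: ps) => (Q.nxt (z, fl p), ps ++ [p + Q.d (z, fl p) - 1])

def init : Z × List ℕ := (Q.z0, List.replicate (n + 1) 0)

def dd : Option (Z × Bool) → ℕ
  | none => 1
  | some x => Q.d x

inductive E : Sy Z → Sy Z → Prop
  | nn : E Sy.nu Sy.nu
  | nM (b) : E Sy.nu (Sy.M (Q.z0, b))
  | hh : E Sy.h Sy.h
  | MA (z) : E (Sy.M (z, false)) (Sy.A (z, false))
  | AB (x) : E (Sy.A x) (Sy.B x)
  | BA (x) : E (Sy.B x) (Sy.A x)
  | MM (z b) : E (Sy.M (z, true)) (Sy.M (Q.nxt (z, true), b))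
  | BM (x b) : E (Sy.B x) (Sy.M (Q.nxt x, b))
  | Bh (x) : E (Sy.B x) Sy.h

inductive Sw : Sy Z → St Z n → Prop
  | last (σ) : Sw σ (St.last σ)
  | G (x) : Sw (Sy.M x) (St.C true (some x) 0 true (Fin.last n))
  | L (x) (e : Fin 3) : e.val = 2 - Q.d x → Sw (Sy.M x) (St.C false (some x) e true (Fin.last n))
  | LB (x) : Sw (Sy.B x) (St.C false (some x) 1 true (Fin.last n))
  | I (k) : Sw Sy.nu (St.C true none 0 false k)
  | H (x) : Sw (Sy.M x) St.Hc

inductive Tr : St Z n → Sy Z → List (Sy Z) → ℕ → St Z n → Prop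
  | skip (g o) (e e' : Fin 3) (f k y) : e.val = e'.val + 1 →
      Tr (St.C g o e f k) (Sy.A y) [Sy.B y] 1 (St.C g o e' f k)
  | unit (g o f k y) : Tr (St.C g o 0 f k) (Sy.A y) [Sy.B y] (wt g f) (St.C g o 0 f k)
  | mark (g o f) (k k' : Fin (n + 1)) (y) : k.val = k'.val + 1 →
      Tr (St.C g o 0 f k) (Sy.M y) [] 0 (St.C g o 0 false k')
  | finG (o f y) : Tr (St.C true o 0 f 0) (Sy.M y) (Us y (Q.dd o)) (2 * Q.dd o) (St.F true)
  | finL (o f y) : Tr (St.C false o 0 f 0) (Sy.M y) [] (Q.dd o - 2) (St.F false)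
  | fu (g y) : Tr (St.F g) (Sy.A y) [Sy.B y] (if g then 2 else 0) (St.F g)
  | hu (y) : Tr St.Hc (Sy.A y) [Sy.B y] 1 St.Hc

def Fn : St Z n → Sy Z → Prop
  | St.last σ, τ => ¬ Q.E σ τ
  | St.C .., _ => False
  | St.F g, τ => g = true ∨ ∃ y, τ = Sy.M y
  | St.Hc, τ => τ = Sy.h

lemma dd_le (o) : Q.dd o ≤ Q.Dm + 1 := by
  cases o with
  | none => simp [dd]
  | some x => have := Q.d_le x; simp only [dd]; omega

lemma tr_le {g σ w s g'} (h : Q.Tr g σ w s g') : s ≤ 2 * Q.Dm + 2 := by
  cases h with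
  | skip => omega
  | unit g o f => cases g <;> cases f <;> simp [wt]
  | mark => omega
  | finG o => have := Q.dd_le o; omega
  | finL o => have := Q.dd_le o; omega
  | fu g => cases g <;> simp
  | hu => omega

lemma exists_split (G : Type) [Finite G] : ∃ (gl : List G) (bef aft : G → List G),
    ∀ g, gl = bef g ++ g :: aft g := by
  classical
  have := Fintype.ofFinite G
  have h : ∀ g : G, ∃ s t, (Finset.univ : Finset G).toList = s ++ g :: t :=
    fun g => List.append_of_mem (by simp)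
  choose bef aft h using h
  exact ⟨_, bef, aft, h⟩

/-- The checking automaton of a queue machine. -/
noncomputable def sys [Finite Z] : Sys (Sy Z) (St Z n) where
  nu := Sy.nu
  ok := fun σ => σ ≠ Sy.h
  Sw := Q.Sw
  Tr := Q.Tr
  Fn := Q.Fn
  R := 2 * Q.Dm + 2
  gl := (exists_split (St Z n)).choose
  bef := (exists_split (St Z n)).choose_spec.choose
  aft := (exists_split (St Z n)).choose_spec.choose_spec.choose
  split := (exists_split (St Z n)).choose_spec.choose_spec.choose_spec
  ok_nu := by simp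
  le_R := fun _ _ _ _ _ h => Q.tr_le h

lemma wd_append (z : Z) (ps qs : List ℕ) :
    Q.wd z (ps ++ qs) = Q.wd z ps ++ Q.wd (Q.endz z ps) qs := by
  induction ps generalizing z with
  | nil => rfl
  | cons p ps ih => simp [wd, endz, ih]

lemma endz_append (z : Z) (ps qs : List ℕ) :
    Q.endz z (ps ++ qs) = Q.endz (Q.endz z ps) qs := by
  induction ps generalizing z with
  | nil => rfl
  | cons p ps ih => simp [endz, ih]

lemma length_wd (z : Z) (ps : List ℕ) : (Q.wd z ps).length = ps.length + 2 * ps.sum := by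
  induction ps generalizing z with
  | nil => rfl
  | cons p ps ih => simp [wd, ih]; omega

/-! ### The unbounded case -/

lemma headU {x y : Z × Bool} {i : ℕ} {z : Z} {ps : List ℕ} {tl rest : List (Sy Z)}
    (h : Us x i ++ (Q.wd z ps ++ Sy.h :: tl) = Sy.A y :: Sy.B y :: rest) :
    ∃ i', i = i' + 1 ∧ Us x i' ++ (Q.wd z ps ++ Sy.h :: tl) = rest := by
  cases i with
  | zero => cases ps <;> simp [Us, wd] at h
  | succ i =>
    simp only [Us, List.cons_append, List.cons.injEq] at h
    exact ⟨i, rfl, h.2.2⟩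

lemma headUs {x y : Z × Bool} {z : Z} {ps : List ℕ} {tl rest : List (Sy Z)} (c : ℕ) {i : ℕ}
    (h : Us x i ++ (Q.wd z ps ++ Sy.h :: tl) = Us y c ++ rest) :
    c ≤ i ∧ Us x (i - c) ++ (Q.wd z ps ++ Sy.h :: tl) = rest := by
  induction c generalizing i with
  | zero => exact ⟨Nat.zero_le _, h⟩
  | succ c ih =>
    obtain ⟨i', rfl, h'⟩ := Q.headU h
    obtain ⟨h1, h2⟩ := ih h'
    exact ⟨by omega, by rwa [Nat.add_sub_add_right]⟩

lemma headM {x y : Z × Bool} {i : ℕ} {z : Z} {ps : List ℕ} {tl rest : List (Sy Z)}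
    (h : Us x i ++ (Q.wd z ps ++ Sy.h :: tl) = Sy.M y :: rest) :
    i = 0 ∧ ∃ p ps', ps = p :: ps' ∧
      Us (z, fl p) p ++ (Q.wd (Q.nxt (z, fl p)) ps' ++ Sy.h :: tl) = rest := by
  cases i with
  | succ i => simp [Us] at h
  | zero =>
    cases ps with
    | nil => simp [Us, wd] at h
    | cons p ps =>
      simp only [Us, wd, List.nil_append, List.cons_append, List.cons.injEq,
        List.append_assoc] at h
      exact ⟨rfl, p, ps, rfl, h.2⟩

variable [Finite Z]

lemma pathF {g0 g' : St Z n} {v : List (Sy Z)} {K : ℕ} (hp : Q.sys.Path g0 v K g') {g : Bool}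
    (hg : g0 = St.F g) {τ : Sy Z} (hf : Q.Fn g' τ) {x : Z × Bool} {z : Z} {ps : List ℕ}
    {tl q : List (Sy Z)} {i : ℕ} (h : Us x i ++ (Q.wd z ps ++ Sy.h :: tl) = v ++ τ :: q) :
    (g = true → K ≤ v.length + i) ∧ (g = false → K + i ≤ v.length) := by
  induction hp generalizing i with
  | nil g0 =>
    subst hg
    refine ⟨fun _ => Nat.zero_le _, fun hg => ?_⟩
    subst hg
    rcases hf with hf | ⟨y, rfl⟩
    · simp at hf
    · simp [(Q.headM h).1]
  | @cons g0 σ w s g1 v k g' ht _ ih =>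
    subst hg
    cases ht with
    | fu g y =>
      obtain ⟨i', rfl, h'⟩ := Q.headU h
      have := ih rfl hf h'
      cases g <;> simp at this ⊢ <;> omega

lemma pathH {g0 g' : St Z n} {v : List (Sy Z)} {K : ℕ} (hp : Q.sys.Path g0 v K g')
    (hg : g0 = St.Hc) {τ : Sy Z} (hf : Q.Fn g' τ) {x : Z × Bool} {z : Z} {ps : List ℕ}
    {tl q : List (Sy Z)} {i : ℕ} (h : Us x i ++ (Q.wd z ps ++ Sy.h :: tl) = v ++ τ :: q) :
    ps = [] ∧ v.length = 2 * i := by
  induction hp generalizing i with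
  | nil g0 =>
    subst hg
    obtain rfl : τ = Sy.h := hf
    cases i with
    | succ i => simp [Us] at h
    | zero => cases ps <;> simp [Us, wd] at h ⊢
  | @cons g0 σ w s g1 v k g' ht _ ih =>
    subst hg
    cases ht with
    | hu y =>
      obtain ⟨i', rfl, h'⟩ := Q.headU h
      have := ih rfl hf h'
      simp [this.1, this.2]; omega

lemma pathC {g0 g' : St Z n} {v : List (Sy Z)} {K : ℕ} (hp : Q.sys.Path g0 v K g') {g f : Bool}
    {o : Option (Z × Bool)} {e : Fin 3} {k : Fin (n + 1)}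
    (hg : g0 = St.C g o e f k) {τ : Sy Z} (hf : Q.Fn g' τ) {x : Z × Bool} {z : Z} {ps : List ℕ}
    {tl q : List (Sy Z)} {i : ℕ} (h : Us x i ++ (Q.wd z ps ++ Sy.h :: tl) = v ++ τ :: q) :
    ∃ p', ps[k.val]? = some p' ∧ e.val ≤ i ∧
      (g = true → K + (if f then i - e.val else 0) + Q.dd o ≤ v.length + p') ∧
      (g = false → K + p' ≤ v.length + (if f then i - e.val else 0) + (Q.dd o - 2)) := by
  induction hp generalizing i e f k x z ps with
  | nil g0 => subst hg; exact hf.elim
  | @cons g0 σ w s g1 v K g' ht hp ih =>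
    subst hg
    cases ht with
    | skip g o e e' f k y he =>
      obtain ⟨i', rfl, h'⟩ := Q.headU h
      obtain ⟨p', h1, h2, h3, h4⟩ := ih rfl hf h'
      refine ⟨p', h1, by omega, fun hg => ?_, fun hg => ?_⟩
      · have := h3 hg
        cases f <;> simp at this ⊢ <;> omega
      · have := h4 hg
        cases f <;> simp at this ⊢ <;> omega
    | unit g o f k y =>
      obtain ⟨i', rfl, h'⟩ := Q.headU h
      obtain ⟨p', h1, h2, h3, h4⟩ := ih rfl hf h'
      refine ⟨p', h1, by simp, fun hg => ?_, fun hg => ?_⟩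
      · have := h3 hg
        subst hg
        cases f <;> simp [wt] at this ⊢ <;> omega
      · have := h4 hg
        subst hg
        cases f <;> simp [wt] at this ⊢ <;> omega
    | mark g o f k k' y hk =>
      obtain ⟨rfl, p, ps', rfl, h'⟩ := Q.headM h
      obtain ⟨p', h1, h2, h3, h4⟩ := ih rfl hf h'
      refine ⟨p', by simpa [hk] using h1, by simp, fun hg => ?_, fun hg => ?_⟩
      · have := h3 hg
        simp at this ⊢; omega
      · have := h4 hg
        simp at this ⊢; omega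
    | finG o f y =>
      obtain ⟨rfl, p, ps', rfl, h'⟩ := Q.headM h
      obtain ⟨h1, h2⟩ := Q.headUs _ (h'.trans (List.append_assoc _ _ _))
      have := (Q.pathF hp rfl hf h2).1 rfl
      refine ⟨p, by simp, by simp, fun _ => ?_, by simp⟩
      simp; omega
    | finL o f y =>
      obtain ⟨rfl, p, ps', rfl, h'⟩ := Q.headM h
      have := (Q.pathF hp rfl hf h').2 rfl
      refine ⟨p, by simp, by simp, by simp, fun _ => ?_⟩
      simp; omega

lemma pathL {g' : St Z n} {v : List (Sy Z)} {K : ℕ} {σ τ : Sy Z}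
    (hp : Q.sys.Path (St.last σ) v K g') (hf : Q.Fn g' τ) : v = [] ∧ ¬ Q.E σ τ := by
  cases hp with
  | nil => exact ⟨rfl, hf⟩
  | cons ht => cases ht

/-- No short check succeeds from `ρ`. -/
def Good (j : ℕ) (ρ : Sy Z) (rest : List (Sy Z)) : Prop :=
  ∀ v τ q, rest = v ++ τ :: q → v.length ≤ j → ¬ Q.sys.Hit ρ v τ

def AllGood (j : ℕ) (W : List (Sy Z)) : Prop :=
  ∀ p ρ v τ q, W = p ++ ρ :: v ++ τ :: q → v.length ≤ j → ¬ Q.sys.Hit ρ v τ

lemma AllGood.cons {Q : QM Z n} {j : ℕ} {ρ : Sy Z} {W : List (Sy Z)} (h1 : Q.Good j ρ W)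
    (h2 : Q.AllGood j W) : Q.AllGood j (ρ :: W) := by
  intro p ρ' v τ q e
  cases p with
  | nil =>
    simp only [List.nil_append, List.cons_append, List.cons.injEq] at e
    obtain ⟨rfl, e⟩ := e
    exact h1 v τ q e
  | cons a p =>
    simp only [List.cons_append, List.cons.injEq] at e
    exact h2 p ρ' v τ q (by simp [e.2])

lemma allGood_h (j k : ℕ) : Q.AllGood j (List.replicate k Sy.h) := by
  induction k with
  | zero => intro p ρ v τ q e; simp at e
  | succ k ih =>
    refine AllGood.cons ?_ ih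
    rintro v τ q e - ⟨g, g', K, h1, h2, h3, -⟩
    cases h1 with
    | last =>
      obtain ⟨rfl, h4⟩ := Q.pathL h2 h3
      have : τ ∈ List.replicate k (Sy.h : Sy Z) := by rw [e]; simp
      rw [List.eq_of_mem_replicate this] at h4
      exact h4 E.hh

omit [Finite Z] in
/-- The recurrence of a history. -/
def Rec (j : ℕ) : Z → List ℕ → Prop
  | _, [] => True
  | z, p :: ps => (∀ p', ps[n]? = some p' → p' + 1 = p + Q.d (z, fl p)) ∧ (ps = [] → j < 2 * p) ∧
      Rec j (Q.nxt (z, fl p)) ps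

lemma allGood_Us {j : ℕ} {x : Z × Bool} {ps : List ℕ} {p : ℕ} {tl : List (Sy Z)}
    (hr : ∀ p', ps[n]? = some p' → p' + 1 = p + Q.d x)
    (h : Q.AllGood j (Q.wd (Q.nxt x) ps ++ Sy.h :: tl)) (i : ℕ) (hi : i ≤ p) :
    Q.AllGood j (Us x i ++ (Q.wd (Q.nxt x) ps ++ Sy.h :: tl)) := by
  induction i with
  | zero => exact h
  | succ i ih =>
    refine AllGood.cons ?_ (AllGood.cons ?_ (ih (by omega)))
    · rintro v τ q e - ⟨g, g', K, h1, h2, h3, -⟩
      cases h1 with
      | last =>
        obtain ⟨rfl, h4⟩ := Q.pathL h2 h3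
        obtain ⟨rfl, -⟩ := List.cons.inj e
        exact h4 (E.AB x)
    · rintro v τ q e - ⟨g, g', K, h1, h2, h3, h5⟩
      cases h1 with
      | last =>
        obtain ⟨rfl, h4⟩ := Q.pathL h2 h3
        apply h4
        cases i with
        | succ i => obtain ⟨rfl, -⟩ := List.cons.inj e; exact E.BA x
        | zero =>
          cases ps with
          | nil => obtain ⟨rfl, -⟩ := List.cons.inj e; exact E.Bh x
          | cons p ps => obtain ⟨rfl, -⟩ := List.cons.inj e; exact E.BM x _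
      | LB =>
        obtain ⟨p', a1, a2, -, a4⟩ := Q.pathC h2 rfl h3 e
        have a5 := hr p' a1
        have a6 := a4 rfl
        simp [dd] at a2 a6
        omega

lemma allGood_wd {j : ℕ} {tl : List (Sy Z)} (h : Q.AllGood j (Sy.h :: tl)) (ps : List ℕ) (z : Z)
    (hr : Q.Rec j z ps) : Q.AllGood j (Q.wd z ps ++ Sy.h :: tl) := by
  induction ps generalizing z with
  | nil => exact h
  | cons p ps ih =>
    obtain ⟨r1, r2, r3⟩ := hr
    rw [wd, List.cons_append, List.append_assoc]
    refine AllGood.cons ?_ (Q.allGood_Us r1 (ih _ r3) p le_rfl)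
    rintro v τ q e hv ⟨g, g', K, h1, h2, h3, h5⟩
    cases h1 with
    | last =>
      obtain ⟨rfl, h4⟩ := Q.pathL h2 h3
      apply h4
      cases p with
      | succ p => obtain ⟨rfl, -⟩ := List.cons.inj e; exact E.MA z
      | zero =>
        cases ps with
        | nil => simp at r2
        | cons p ps => obtain ⟨rfl, -⟩ := List.cons.inj e; exact E.MM z _
    | G =>
      obtain ⟨p', a1, -, a3, -⟩ := Q.pathC h2 rfl h3 e
      have a5 := r1 p' a1
      have a6 := a3 rfl
      simp [dd] at a6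
      omega
    | L _ e' he =>
      obtain ⟨p', a1, a2, -, a4⟩ := Q.pathC h2 rfl h3 e
      have a5 := r1 p' a1
      have a6 := a4 rfl
      simp [dd] at a6
      omega
    | H =>
      obtain ⟨a1, a2⟩ := Q.pathH h2 rfl h3 e
      have := r2 a1
      omega

lemma allGood_nu {j : ℕ} {tl : List (Sy Z)} (h : Q.AllGood j (Sy.h :: tl)) (ps : List ℕ)
    (hr : Q.Rec j Q.z0 ps) (hne : ps ≠ []) (h0 : ∀ k p, k ≤ n → ps[k]? = some p → p = 0) (m : ℕ) :
    Q.AllGood j (List.replicate m Sy.nu ++ (Q.wd Q.z0 ps ++ Sy.h :: tl)) := by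
  induction m with
  | zero => exact Q.allGood_wd h ps _ hr
  | succ m ih =>
    refine AllGood.cons ?_ ih
    rintro v τ q e hv ⟨g, g', K, h1, h2, h3, h5⟩
    cases h1 with
    | last =>
      obtain ⟨rfl, h4⟩ := Q.pathL h2 h3
      apply h4
      cases m with
      | succ m => obtain ⟨rfl, -⟩ := List.cons.inj e; exact E.nn
      | zero =>
        cases ps with
        | nil => simp at hne
        | cons p ps => obtain ⟨rfl, -⟩ := List.cons.inj e; exact E.nM _
    | I k =>
      cases m with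
      | succ m =>
        cases h2 with
        | nil => exact h3
        | cons ht => cases ht <;> simp [List.replicate_succ] at e
      | zero =>
        obtain ⟨p', a1, -, a3, -⟩ := Q.pathC h2 rfl h3 (x := (Q.z0, true)) (i := 0) e
        have a5 := h0 k p' (by omega) a1
        have a6 := a3 rfl
        simp [dd] at a6
        omega

omit [Finite Z] in
/-- The heads of the queue along a run. -/
def hist : Z × List ℕ → ℕ → List ℕ
  | _, 0 => []
  | s, T + 1 => s.2.headD 0 :: hist (Q.step s) T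

omit [Finite Z] in
lemma hist_get (T : ℕ) (s : Z × List ℕ) (k p : ℕ) (hk : k < s.2.length)
    (h : (Q.hist s T)[k]? = some p) : s.2[k]? = some p := by
  induction T generalizing s k with
  | zero => simp [hist] at h
  | succ T ih =>
    obtain ⟨z, _ | ⟨a, ps⟩⟩ := s
    · simp at hk
    cases k with
    | zero => simpa [hist] using h
    | succ k =>
      simp only [hist, List.getElem?_cons_succ] at h ⊢
      simp only [List.length_cons] at hk
      have := ih (Q.step (z, a :: ps)) k (by simp [step]; omega) h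
      simp only [step] at this
      rwa [List.getElem?_append_left (by omega)] at this

omit [Finite Z] in
lemma d_add (z : Z) (p : ℕ) : 1 ≤ p + Q.d (z, fl p) := by
  cases p with
  | zero => simpa [fl] using Q.d_pos z
  | succ p => omega

omit [Finite Z] in
lemma rec_hist (j T : ℕ) (s : Z × List ℕ) (hs : s.2.length = n + 1)
    (h : j < 2 * (Q.step^[T] s).2.headD 0) : Q.Rec j s.1 (Q.hist s (T + 1)) := by
  induction T generalizing s with
  | zero => exact ⟨by simp [hist], fun _ => h, trivial⟩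
  | succ T ih =>
    obtain ⟨z, _ | ⟨a, ps⟩⟩ := s
    · simp at hs
    simp only [List.length_cons, Nat.add_right_cancel_iff] at hs
    refine ⟨fun p' hp => ?_, by simp [hist], ih (Q.step (z, a :: ps)) (by simp [step, hs]) h⟩
    have := Q.hist_get (T + 1) (Q.step (z, a :: ps)) n p' (by simp [step, hs]) hp
    simp only [step] at this
    rw [List.getElem?_append_right (by omega)] at this
    have h1 := Q.d_add z a
    simp [hs] at this ⊢
    omega

theorem attack (h : ∀ N, ∃ T, N ≤ (Q.step^[T] Q.init).2.headD 0) (j : ℕ) : Q.sys.Attack j := by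
  obtain ⟨T, hT⟩ := h (j + 1)
  have hr := Q.rec_hist j T Q.init (by simp [init]) (by omega)
  have := Q.allGood_nu (Q.allGood_h j (j + 2)) (Q.hist Q.init (T + 1)) hr (by simp [hist])
    (fun k p hk hp => by
      have := Q.hist_get (T + 1) Q.init k p (by simp [init]; omega) hp
      simp only [init, List.getElem?_replicate] at this
      split_ifs at this
      exact (Option.some.inj this).symm) (j + 1)
  exact ⟨_, _, List.replicate (j + 1) Sy.nu ++ Q.wd Q.z0 (Q.hist Q.init (T + 1)), Sy.h,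
    List.replicate (j + 1) Sy.h, rfl, by simp [sys], by simp [sys], by simp, this⟩

end QM

end Pool.Agent.Lib.MP_60077b_lc
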