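import Mathlib

/-! Layer C, part 1: while-programs on counters compute all primitive recursive functions. -/

namespace Pool.Agent.Lib.MP_60077b_lc

open Function

/-- While-programs; `inp r` adds the input plus one to register `r`. -/
inductive Prog where
  | inc : ℕ → Prog
  | dec : ℕ → Prog
  | inp : ℕ → Prog
  | seq : Prog → Prog → Prog
  | loop : ℕ → Prog → Prog

namespace Prog

/-- Big-step semantics. -/
inductive Exec (a : ℕ) : Prog → (ℕ → ℕ) → (ℕ → ℕ) → Prop
  | inc (r p) : Exec a (inc r) p (update p r (p r + 1))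
  | dec (r p) : Exec a (dec r) p (update p r (p r - 1))
  | inp (r p) : Exec a (inp r) p (update p r (p r + a + 1))
  | seq {A B p p1 p2} : Exec a A p p1 → Exec a B p1 p2 → Exec a (seq A B) p p2
  | loop0 {r A p} : p r = 0 → Exec a (loop r A) p p
  | loopS {r A p p1 p2} : p r ≠ 0 → Exec a A p p1 → Exec a (loop r A) p1 p2 →
      Exec a (loop r A) p p2

lemma loop_inv {a r : ℕ} {A : Prog} (I : ℕ → (ℕ → ℕ) → Prop)
    (h1 : ∀ m p, I (m + 1) p → p r ≠ 0 ∧ ∃ p', Exec a A p p' ∧ I m p')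
    (h0 : ∀ p, I 0 p → p r = 0) (m : ℕ) (p : ℕ → ℕ) (h : I m p) :
    ∃ p', Exec a (loop r A) p p' ∧ I 0 p' := by
  induction m generalizing p with
  | zero => exact ⟨p, Exec.loop0 (h0 p h), h⟩
  | succ m ih =>
    obtain ⟨h2, p1, h3, h4⟩ := h1 m p h
    obtain ⟨p2, h5, h6⟩ := ih p1 h4
    exact ⟨p2, Exec.loopS h2 h3 h5, h6⟩

def clear (r : ℕ) : Prog := loop r (dec r)

lemma exec_clear (a r : ℕ) (p : ℕ → ℕ) : Exec a (clear r) p (update p r 0) := by
  obtain ⟨p', h1, h2⟩ := loop_inv (a := a) (r := r) (A := dec r) (fun m q => q = update p r m)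
    (by
      rintro m q rfl
      exact ⟨by simp, _, Exec.dec _ _, by simp⟩) (by rintro q rfl; simp) (p r) p (by simp)
  exact h2 ▸ h1

/-- Move register `s` into `t` and `u`. -/
lemma exec_move2 (a : ℕ) {s t u : ℕ} (h1 : s ≠ t) (h2 : s ≠ u) (h3 : t ≠ u) (p : ℕ → ℕ) :
    ∃ p', Exec a (loop s (seq (dec s) (seq (inc t) (inc u)))) p p' ∧ p' s = 0 ∧
      p' t = p t + p s ∧ p' u = p u + p s ∧ ∀ r, r ≠ s → r ≠ t → r ≠ u → p' r = p r := by
  obtain ⟨p', h4, h5⟩ := loop_inv (a := a) (r := s) (A := seq (dec s) (seq (inc t) (inc u)))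
    (fun m q => q s = m ∧ q t + m = p t + p s ∧ q u + m = p u + p s ∧
      ∀ r, r ≠ s → r ≠ t → r ≠ u → q r = p r)
    (by
      rintro m q ⟨a1, a2, a3, a4⟩
      refine ⟨by omega, _, Exec.seq (Exec.dec _ _) (Exec.seq (Exec.inc _ _) (Exec.inc _ _)),
        ?_, ?_, ?_, ?_⟩
      · simp [h1, h2, a1]
      · simp [h1.symm, h3]; omega
      · simp [h2.symm, h3.symm]; omega
      · intro r b1 b2 b3
        simp [b1, b2, b3, a4 r b1 b2 b3])
    (fun q h => h.1) (p s) p ⟨rfl, rfl, rfl, fun _ _ _ _ => rfl⟩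
  exact ⟨p', h4, h5⟩

lemma exec_move (a : ℕ) {s t : ℕ} (h1 : s ≠ t) (p : ℕ → ℕ) :
    ∃ p', Exec a (loop s (seq (dec s) (inc t))) p p' ∧
      p' t = p t + p s ∧ ∀ r, r ≠ s → r ≠ t → p' r = p r := by
  obtain ⟨p', h4, h5⟩ := loop_inv (a := a) (r := s) (A := seq (dec s) (inc t))
    (fun m q => q s = m ∧ q t + m = p t + p s ∧ ∀ r, r ≠ s → r ≠ t → q r = p r)
    (by
      rintro m q ⟨a1, a2, a4⟩
      refine ⟨by omega, _, Exec.seq (Exec.dec _ _) (Exec.inc _ _), ?_, ?_, ?_⟩
      · simp [h1, a1]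
      · simp [h1.symm]; omega
      · intro r b1 b2
        simp [b1, b2, a4 r b1 b2])
    (fun q h => h.1) (p s) p ⟨rfl, rfl, fun _ _ _ => rfl⟩
  exact ⟨p', h4, h5.2⟩

def copy (s t u : ℕ) : Prog :=
  seq (clear t) (seq (clear u) (seq (loop s (seq (dec s) (seq (inc t) (inc u))))
    (loop u (seq (dec u) (inc s)))))

lemma exec_copy (a : ℕ) {s t u : ℕ} (h1 : s ≠ t) (h2 : s ≠ u) (h3 : t ≠ u) (p : ℕ → ℕ) :
    ∃ p', Exec a (copy s t u) p p' ∧ p' t = p s ∧ ∀ r, r ≠ t → r ≠ u → p' r = p r := by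
  obtain ⟨p1, a1, a2, a3, a4, a5⟩ := exec_move2 a h1 h2 h3 (update (update p t 0) u 0)
  obtain ⟨p2, b1, b2, b3⟩ := exec_move a h2.symm p1
  refine ⟨p2, Exec.seq (exec_clear _ _ _) (Exec.seq (exec_clear _ _ _) (Exec.seq a1 b1)), ?_, ?_⟩
  · rw [b3 t h3 h1.symm, a3]; simp [h1, h2, h3]
  · intro r c1 c2
    by_cases hr : r = s
    · subst hr
      rw [b2, a2, a4]; simp [h1, h2]
    · rw [b3 r c2 hr, a5 r hr c1 c2]; simp [c1, c2]

/-- Computability by while-programs, with arbitrary register allocation. -/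
def WC {n : ℕ} (f : List.Vector ℕ n → ℕ) : Prop :=
  ∀ (ins : Fin n → ℕ) (out base : ℕ), (∀ i, ins i < base) → out < base → (∀ i, ins i ≠ out) →
    ∃ P : Prog, ∀ a p, ∃ p', Exec a P p p' ∧ p' out = f (List.Vector.ofFn fun i => p (ins i)) ∧
      ∀ r, r < base → r ≠ out → p' r = p r

lemma wc_seq {m n : ℕ} {g : Fin n → List.Vector ℕ m → ℕ} (hg : ∀ i, WC (g i))
    (ins : Fin m → ℕ) (base : ℕ) (h : ∀ i, ins i < base) (k : ℕ) (hk : k ≤ n) :
    ∃ P : Prog, ∀ a p, ∃ p', Exec a P p p' ∧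
      (∀ i : Fin n, i.val < k → p' (base + i) = g i (List.Vector.ofFn fun i => p (ins i))) ∧
      ∀ r, r < base → p' r = p r := by
  induction k with
  | zero =>
    refine ⟨clear base, fun a p => ⟨_, exec_clear a base p, by simp, fun r hr => ?_⟩⟩
    simp [hr.ne]
  | succ k ih =>
    obtain ⟨P, hP⟩ := ih (by omega)
    obtain ⟨P', hP'⟩ := hg ⟨k, hk⟩ ins (base + k) (base + n) (fun i => by have := h i; omega)
      (by omega) (fun i => by have := h i; omega)
    refine ⟨seq P P', fun a p => ?_⟩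
    obtain ⟨p1, a1, a2, a3⟩ := hP a p
    obtain ⟨p2, b1, b2, b3⟩ := hP' a p1
    refine ⟨p2, Exec.seq a1 b1, fun i hi => ?_, fun r hr => ?_⟩
    · by_cases hik : i.val = k
      · obtain rfl : i = ⟨k, hk⟩ := Fin.ext hik
        rw [b2]
        simp only [a3 _ (h _)]
      · rw [b3 _ (by omega) (by omega), a2 i (by omega)]
    · rw [b3 r (by omega) (by omega), a3 r hr]

theorem wc_of_prim {n : ℕ} {f : List.Vector ℕ n → ℕ} (hf : Nat.Primrec' f) : WC f := by
  induction hf with
  | zero =>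
    intro ins out base _ _ _
    exact ⟨clear out, fun a p => ⟨_, exec_clear a out p, by simp, fun r _ hr => by simp [hr]⟩⟩
  | succ =>
    intro ins out base h1 h2 h3
    refine ⟨seq (copy (ins 0) out base) (inc out), fun a p => ?_⟩
    obtain ⟨p1, a1, a2, a3⟩ := exec_copy a (h3 0) (h1 0).ne h2.ne p
    refine ⟨_, Exec.seq a1 (Exec.inc _ _), by simp [a2], fun r b1 b2 => ?_⟩
    simp [b2, a3 r b2 b1.ne]
  | get i =>
    intro ins out base h1 h2 h3
    refine ⟨copy (ins i) out base, fun a p => ?_⟩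
    obtain ⟨p1, a1, a2, a3⟩ := exec_copy a (h3 i) (h1 i).ne h2.ne p
    exact ⟨_, a1, by simp [a2], fun r b1 b2 => a3 r b2 b1.ne⟩
  | @comp m n f g _ _ ihf ihg =>
    intro ins out base h1 h2 h3
    obtain ⟨P, hP⟩ := wc_seq ihg ins base h1 n le_rfl
    obtain ⟨P', hP'⟩ := ihf (fun i => base + i) out (base + n) (fun i => by simp) (by omega)
      (fun i => by omega)
    refine ⟨seq P P', fun a p => ?_⟩
    obtain ⟨p1, a1, a2, a3⟩ := hP a p
    obtain ⟨p2, b1, b2, b3⟩ := hP' a p1
    refine ⟨p2, Exec.seq a1 b1, ?_, fun r c1 c2 => ?_⟩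
    · rw [b2]
      simp only [a2 _ (Fin.is_lt _)]
    · rw [b3 r (by omega) c2, a3 r c1]
  | @prec n f g _ _ ihf ihg =>
    intro ins out base h1 h2 h3
    obtain ⟨Pf, hf⟩ := ihf (fun i => ins i.succ) out base (fun i => h1 _) h2 (fun i => h3 _)
    obtain ⟨Pg, hg⟩ := ihg (Fin.cons (base + 1) (Fin.cons out fun i => ins i.succ)) (base + 2)
      (base + 3)
      (fun i => by
        refine Fin.cases (by simp) (fun i => Fin.cases (by simp; omega) (fun i => ?_) i) i
        have := h1 i.succ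
        simp; omega)
      (by omega)
      (fun i => by
        refine Fin.cases (by simp) (fun i => Fin.cases (by simp; omega) (fun i => ?_) i) i
        have := h1 i.succ
        simp; omega)
    refine ⟨seq Pf (seq (copy (ins 0) base (base + 3)) (seq (clear (base + 1))
      (loop base (seq (dec base) (seq Pg (seq (copy (base + 2) out (base + 3))
        (inc (base + 1)))))))), fun a p => ?_⟩
    obtain ⟨p1, a1, a2, a3⟩ := hf a p
    obtain ⟨p2, b1, b2, b3⟩ := exec_copy a (s := ins 0) (t := base) (u := base + 3) (h1 0).ne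
      (by have := h1 0; omega) (by omega) p1
    set v : List.Vector ℕ n := List.Vector.ofFn fun i => p (ins i.succ) with hv
    obtain ⟨p3, c1, c2⟩ := loop_inv (a := a) (r := base) (A := seq (dec base) (seq Pg
      (seq (copy (base + 2) out (base + 3)) (inc (base + 1)))))
      (fun m q => q base = m ∧ q (base + 1) + m = p (ins 0) ∧
        q out = Nat.rec (f v) (fun y IH => g (y ::ᵥ IH ::ᵥ v)) (q (base + 1)) ∧
        ∀ r, r < base → r ≠ out → q r = p r)
      (by
        rintro m q ⟨d1, d2, d3, d4⟩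
        obtain ⟨q1, e1, e2, e3⟩ := hg a (update q base (q base - 1))
        obtain ⟨q2, f1, f2, f3⟩ := exec_copy a (s := base + 2) (t := out) (u := base + 3)
          (by omega) (by omega) (by omega) q1
        have g1 : q2 (base + 1) = q (base + 1) := by
          rw [f3 _ (by omega) (by omega), e3 _ (by omega) (by omega)]; simp
        refine ⟨by omega, _, Exec.seq (Exec.dec _ _) (Exec.seq e1 (Exec.seq f1 (Exec.inc _ _))),
          ?_, ?_, ?_, ?_⟩
        · rw [update_of_ne (by omega), f3 _ (by omega) (by omega), e3 _ (by omega) (by omega)]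
          simp [d1]
        · simp [g1]; omega
        · rw [update_of_ne (by omega), update_self, f2, e2, g1]
          change _ = g (q (base + 1) ::ᵥ Nat.rec (f v) (fun y IH => g (y ::ᵥ IH ::ᵥ v))
            (q (base + 1)) ::ᵥ v)
          rw [← d3]
          congr 1
          apply List.Vector.ext
          intro i
          refine Fin.cases ?_ (fun i => Fin.cases ?_ (fun i => ?_) i) i
          · simp
          · rw [List.Vector.get_cons_succ]
            simp [h2.ne]
          · simp [hv, (h1 i.succ).ne, d4 _ (h1 _) (h3 _)]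
        · intro r i1 i2
          rw [update_of_ne (by omega), f3 _ i2 (by omega), e3 _ (by omega) (by omega),
            update_of_ne (by omega), d4 r i1 i2])
      (fun q h => h.1) (p (ins 0)) (update p2 (base + 1) 0)
      ⟨by simp [b2, a3 _ (h1 0) (h3 0)], by simp,
        by rw [update_of_ne (by omega), update_self, b3 _ (by omega) (by omega), a2]; rfl,
        fun r i1 i2 => by rw [update_of_ne (by omega), b3 _ (by omega) (by omega), a3 r i1 i2]⟩
    refine ⟨p3, Exec.seq a1 (Exec.seq b1 (Exec.seq (exec_clear _ _ _) c1)), ?_, c2.2.2.2⟩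
    have : p3 (base + 1) = p (ins 0) := c2.2.1
    rw [c2.2.2.1, this]
    simp [hv]

/-! ### Small-step semantics on continuations -/

def reg : List Prog → ℕ
  | inc r :: _ => r
  | dec r :: _ => r
  | inp r :: _ => r
  | loop r _ :: _ => r
  | _ => 0

def nx : List Prog → Bool → List Prog
  | [], _ => []
  | seq A B :: k, _ => A :: B :: k
  | loop r A :: k, b => if b then k else A :: loop r A :: k
  | _ :: k, _ => k

def dl (a : ℕ) : List Prog → Bool → ℕ
  | inc _ :: _, _ => 2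
  | dec _ :: _, b => if b then 1 else 0
  | inp _ :: _, _ => a + 2
  | _, _ => 1

def sstep (a : ℕ) (s : List Prog × (ℕ → ℕ)) : List Prog × (ℕ → ℕ) :=
  (nx s.1 (decide (s.2 (reg s.1) = 0)),
    update s.2 (reg s.1) (s.2 (reg s.1) + dl a s.1 (decide (s.2 (reg s.1) = 0)) - 1))

lemma exec_steps {a : ℕ} {P : Prog} {p p' : ℕ → ℕ} (h : Exec a P p p') (k : List Prog) :
    ∃ T, (sstep a)^[T] (P :: k, p) = (k, p') := by
  induction h generalizing k with
  | inc r p => exact ⟨1, rfl⟩
  | dec r p =>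
    refine ⟨1, ?_⟩
    by_cases h : p r = 0 <;> simp [sstep, nx, reg, dl, h]
  | inp r p => exact ⟨1, rfl⟩
  | @seq A B p p1 p2 _ _ ih1 ih2 =>
    obtain ⟨T1, h1⟩ := ih1 (B :: k)
    obtain ⟨T2, h2⟩ := ih2 k
    refine ⟨T2 + T1 + 1, ?_⟩
    rw [iterate_succ_apply, iterate_add_apply, ← h2, ← h1]
    simp [sstep, nx, reg, dl]
  | @loop0 r A p h => exact ⟨1, by simp [sstep, nx, reg, dl, h]⟩
  | @loopS r A p p1 p2 h _ _ ih1 ih2 =>
    obtain ⟨T1, h1⟩ := ih1 (loop r A :: k)
    obtain ⟨T2, h2⟩ := ih2 k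
    refine ⟨T2 + T1 + 1, ?_⟩
    rw [iterate_succ_apply, iterate_add_apply, ← h2, ← h1]
    simp [sstep, nx, reg, dl, h]

lemma halted_iter {a : ℕ} {s : List Prog × (ℕ → ℕ)} (h : s.1 = []) (T : ℕ) :
    (sstep a)^[T] s = s := by
  apply iterate_fixed
  obtain ⟨k, p⟩ := s
  simp only at h
  subst h
  simp [sstep, nx, reg, dl]

lemma not_halted_of {a : ℕ} {s : List Prog × (ℕ → ℕ)} {T T' : ℕ} (h : T ≤ T')
    (h' : ((sstep a)^[T'] s).1 ≠ []) : ((sstep a)^[T] s).1 ≠ [] := by
  intro h0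
  apply h'
  rw [show T' = (T' - T) + T by omega, iterate_add_apply, halted_iter h0, h0]

lemma loop_forever {a r : ℕ} {A : Prog} (I : (ℕ → ℕ) → Prop)
    (h : ∀ p, I p → p r ≠ 0 ∧ ∃ p', Exec a A p p' ∧ I p') (T : ℕ) (p : ℕ → ℕ) (hp : I p) :
    ((sstep a)^[T] ([loop r A], p)).1 ≠ [] := by
  induction T generalizing p with
  | zero => simp
  | succ T ih =>
    obtain ⟨h1, p', h2, h3⟩ := h p hp
    obtain ⟨T1, h4⟩ := exec_steps h2 [loop r A]
    apply not_halted_of (T' := T + T1 + 1) (by omega)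
    have : sstep a ([loop r A], p) = ([A, loop r A], p) := by simp [sstep, nx, reg, dl, h1]
    rw [iterate_succ_apply, iterate_add_apply, this, h4]
    exact ih p' h3

/-- A program searching for a zero of a primitive recursive function. -/
theorem exists_search {g : ℕ → ℕ → ℕ} (hg : Primrec₂ g) : ∃ P : Prog, ∀ a,
    (∃ T, ((sstep a)^[T] ([P], fun _ => 0)).1 = []) ↔ ∃ k, g a k = 0 := by
  obtain ⟨Pg, hP⟩ := wc_of_prim (Nat.Primrec'.prim_iff₂.mpr hg) ![0, 2] 1 3
    (fun i => by fin_cases i <;> simp) (by omega) (fun i => by fin_cases i <;> simp)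
  have body : ∀ a p, ∃ p', Exec a (seq Pg (inc 2)) p p' ∧ p' 0 = p 0 ∧ p' 1 = g (p 0) (p 2) ∧
      p' 2 = p 2 + 1 := by
    intro a p
    obtain ⟨p1, a1, a2, a3⟩ := hP a p
    refine ⟨_, Exec.seq a1 (Exec.inc _ _), ?_, ?_, ?_⟩
    · simp [a3 0]
    · simpa using a2
    · simp [a3 2]
  refine ⟨seq (seq (inp 0) (seq (dec 0) (inc 1))) (loop 1 (seq Pg (inc 2))), fun a => ?_⟩
  obtain ⟨p0, h0, h1, h2, h3⟩ : ∃ p0, Exec a (seq (inp 0) (seq (dec 0) (inc 1))) (fun _ => 0) p0 ∧
      p0 0 = a ∧ p0 1 = 1 ∧ p0 2 = 0 :=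
    ⟨_, Exec.seq (Exec.inp _ _) (Exec.seq (Exec.dec _ _) (Exec.inc _ _)), by simp, by simp,
      by simp⟩
  constructor
  · rintro ⟨T, hT⟩
    by_contra hne
    push Not at hne
    obtain ⟨T1, h4⟩ := exec_steps h0 [loop 1 (seq Pg (inc 2))]
    refine not_halted_of (T' := T + T1 + 1) (by omega) ?_ hT
    have : sstep a ([seq (seq (inp 0) (seq (dec 0) (inc 1))) (loop 1 (seq Pg (inc 2)))],
        fun _ => 0) = ([seq (inp 0) (seq (dec 0) (inc 1)), loop 1 (seq Pg (inc 2))],
          fun _ => 0) := by simp [sstep, nx, reg, dl]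
    rw [iterate_succ_apply, iterate_add_apply, this, h4]
    refine loop_forever (fun p => p 0 = a ∧ p 1 ≠ 0) ?_ T p0 ⟨h1, by omega⟩
    rintro p ⟨b1, b2⟩
    obtain ⟨p', c1, c2, c3, -⟩ := body a p
    exact ⟨b2, p', c1, by omega, by rw [c3, b1]; exact hne _⟩
  · intro hex
    classical
    obtain ⟨p', h4, -⟩ := loop_inv (a := a) (r := 1) (A := seq Pg (inc 2))
      (fun m p => p 0 = a ∧ p 2 + m = Nat.find hex + 1 ∧ (p 1 = 0 ↔ m = 0))
      (by
        rintro m p ⟨b1, b2, b3⟩
        obtain ⟨p', c1, c2, c3, c4⟩ := body a p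
        refine ⟨by simpa using b3, p', c1, by omega, by omega, ?_⟩
        rw [c3, b1]
        constructor
        · intro h
          have := Nat.find_min' hex h
          omega
        · intro h
          rw [show p 2 = Nat.find hex by omega]
          exact Nat.find_spec hex)
      (fun p h => h.2.2.mpr rfl) (Nat.find hex + 1) p0 ⟨h1, by omega, by omega⟩
    obtain ⟨T, hT⟩ := exec_steps (Exec.seq h0 h4) []
    exact ⟨T, by rw [hT]⟩

/-- The continuations reachable while running `P` before `k`. -/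
def subs : Prog → List Prog → List (List Prog)
  | seq A B, k => (seq A B :: k) :: (subs A (B :: k) ++ subs B k)
  | loop r A, k => (loop r A :: k) :: subs A (loop r A :: k)
  | P, k => [P :: k]

lemma mem_subs (P : Prog) (k : List Prog) : P :: k ∈ subs P k := by
  cases P <;> simp [subs]

lemma nx_subs (P : Prog) (k : List Prog) (b : Bool) :
    ∀ s ∈ subs P k, nx s b ∈ subs P k ∨ nx s b = k := by
  induction P generalizing k with
  | inc r => simp [subs, nx]
  | dec r => simp [subs, nx]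
  | inp r => simp [subs, nx]
  | seq A B ihA ihB =>
    intro s hs
    simp only [subs, List.mem_cons, List.mem_append] at hs ⊢
    rcases hs with rfl | hs | hs
    · exact Or.inl (Or.inr (Or.inl (mem_subs _ _)))
    · rcases ihA _ s hs with h | h
      · exact Or.inl (Or.inr (Or.inl h))
      · exact Or.inl (Or.inr (Or.inr (h ▸ mem_subs _ _)))
    · rcases ihB _ s hs with h | h
      · exact Or.inl (Or.inr (Or.inr h))
      · exact Or.inr h
  | loop r A ihA =>
    intro s hs
    simp only [subs, List.mem_cons] at hs ⊢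
    rcases hs with rfl | hs
    · cases b
      · exact Or.inl (Or.inr (mem_subs _ _))
      · exact Or.inr rfl
    · rcases ihA _ s hs with h | h
      · exact Or.inl (Or.inr h)
      · exact Or.inl (Or.inl h)

end Prog

end Pool.Agent.Lib.MP_60077b_lc
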