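import Pool.Agent.Lib.MP_60077b_lc.QPos
import Pool.Agent.Lib.MP_60077b_lc.While

/-! Layer C, part 2: a queue machine simulating a while-program with a clock. -/

namespace Pool.Agent.Lib.MP_60077b_lc

open Function

namespace Prog

variable (P : Prog)

/-- The finite control. -/
def Ctl : Type := {k : List Prog // k ∈ [] :: subs P []}

instance : Finite (Ctl P) := (List.finite_toSet ([] :: subs P [])).to_subtype

def nxC {P : Prog} (k : Ctl P) (b : Bool) : Ctl P :=
  ⟨nx k.1 b, by
    rcases List.mem_cons.mp k.2 with h | h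
    · rw [h]; exact List.mem_cons_self
    · rcases nx_subs P [] b _ h with h | h
      · exact List.mem_cons_of_mem _ h
      · rw [h]; exact List.mem_cons_self⟩

def nreg : ℕ := (([] :: subs P []).map reg).sum + 1

lemma reg_lt (k : Ctl P) : reg k.1 < nreg P :=
  Nat.lt_succ_of_le (List.single_le_sum (by simp) _ (List.mem_map_of_mem k.2))

def pos (N i : ℕ) : Fin (N + 1) := ⟨i % (N + 1), Nat.mod_lt _ (Nat.succ_pos _)⟩

lemma dl_le (a : ℕ) (k : List Prog) (b : Bool) : dl a k b ≤ a + 2 := by
  unfold dl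
  split <;> (try split_ifs) <;> omega

lemma dl_pos (a : ℕ) (k : List Prog) : 1 ≤ dl a k true := by
  unfold dl
  split <;> simp

abbrev QZ : Type := Ctl P × Fin (nreg P + 1) × Bool

def qnxt (x : QZ P × Bool) : QZ P :=
  if x.1.2.1.val = 0 then (x.1.1, pos _ 1, false)
  else if x.1.2.2 = false ∧ x.1.2.1.val = reg x.1.1.1 + 1 then
    (nxC x.1.1 x.2, pos _ (x.1.2.1.val + 1), true)
  else (x.1.1, pos _ (x.1.2.1.val + 1), x.1.2.2)

def qd (a : ℕ) (x : QZ P × Bool) : ℕ :=
  if x.1.2.1.val = 0 then (if x.1.1.1 = [] then 1 else 2)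
  else if x.1.2.2 = false ∧ x.1.2.1.val = reg x.1.1.1 + 1 then dl a x.1.1.1 x.2 else 1

/-- The queue machine of a program with input `a`. -/
def qm (a : ℕ) : QM (QZ P) (nreg P) where
  z0 := (⟨[P], List.mem_cons_of_mem _ (mem_subs P [])⟩, 0, true)
  nxt := qnxt P
  d := qd P a
  Dm := a + 2
  d_le := fun x => by
    have := dl_le a x.1.1.1 x.2
    unfold qd
    split_ifs <;> omega
  d_pos := fun z => by
    have := dl_pos a z.1.1
    unfold qd
    split_ifs <;> first | omega | exact this
  w := fun z => if z.2.1.val ≠ 0 ∧ z.2.2 = false ∧ z.1.1 ≠ [] then 1 else 0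
  w_le := fun z => by split_ifs <;> omega
  hw := by
    rintro ⟨⟨k, i, dn⟩, b⟩
    unfold qnxt qd
    by_cases h1 : i.val = 0
    · by_cases h2 : k.1 = []
      · simp [h1, h2]
      · simp only [h1, h2, if_true, if_false]
        split_ifs <;> omega
    · by_cases h2 : dn = false ∧ i.val = reg k.1 + 1
      · by_cases h3 : k.1 = []
        · simp only [h1, h2, h3, if_true, if_false]
          simp [dl]
        · simp only [h1, if_false, if_pos h2]
          simp [h2.1, h3, h1]
      · simp only [h1, if_false, if_neg h2]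
        simp only [h1, ne_eq, not_false_eq_true, true_and]
        split_ifs with h3 h4
        · omega
        · exact absurd h3.2 h4
        · omega
        · omega

def enc (k : Ctl P) (p : ℕ → ℕ) (t : ℕ) : QZ P × List ℕ :=
  ((k, 0, true), t :: (List.range (nreg P)).map p)

lemma round_aux (a : ℕ) (k : Ctl P) (p : ℕ → ℕ) (t i : ℕ) (hi : i ≤ nreg P) :
    (qm P a).step^[i + 1] (enc P k p t) =
      ((if reg k.1 < i then nxC k (fl (p (reg k.1))) else k, pos _ (i + 1), decide (reg k.1 < i)),
        (List.range' i (nreg P - i)).map p ++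
          (t + if k.1 = [] then 0 else 1) :: (List.range i).map (sstep a (k.1, p)).2) := by
  induction i with
  | zero =>
    simp only [zero_add, iterate_one, enc, QM.step, qm, qnxt, qd, Fin.val_zero, if_true,
      List.range_eq_range']
    split_ifs <;> simp_all
  | succ i ih =>
    rw [iterate_succ_apply', ih (by omega)]
    obtain ⟨m, hm⟩ : ∃ m, nreg P - i = m + 1 := ⟨nreg P - i - 1, by omega⟩
    have hm' : nreg P - (i + 1) = m := by omega
    have hp : (pos (nreg P) (i + 1)).val = i + 1 := Nat.mod_eq_of_lt (by omega)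
    rw [hm, hm', List.range'_succ, List.map_cons, List.cons_append, QM.step, List.range_succ]
    simp only [qm, qnxt, qd, hp, Nat.add_one_ne_zero, if_false]
    rcases lt_trichotomy (reg k.1) i with h | h | h
    · have h' : reg k.1 < i + 1 := by omega
      simp [h, h', sstep, h.ne']
    · subst h
      simp [sstep, fl]
    · have h1 : ¬ reg k.1 < i := by omega
      have h2 : ¬ reg k.1 < i + 1 := by omega
      simp [h1, h2, sstep, h.ne]

lemma round (a : ℕ) (k : Ctl P) (p : ℕ → ℕ) (t : ℕ) :
    (qm P a).step^[nreg P + 1] (enc P k p t) =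
      enc P (nxC k (fl (p (reg k.1)))) (sstep a (k.1, p)).2 (t + if k.1 = [] then 0 else 1) := by
  rw [round_aux P a k p t _ le_rfl]
  simp [reg_lt P k, enc, pos]

lemma rounds (a T : ℕ) : ∃ (k : Ctl P) (t : ℕ),
    (qm P a).step^[(nreg P + 1) * T] (qm P a).init =
      enc P k ((sstep a)^[T] ([P], fun _ => 0)).2 t ∧
    k.1 = ((sstep a)^[T] ([P], fun _ => 0)).1 ∧ (k.1 ≠ [] → t = T) := by
  induction T with
  | zero =>
    refine ⟨(qm P a).z0.1, 0, ?_, rfl, fun _ => rfl⟩
    simp [QM.init, enc, qm, List.replicate_succ]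
  | succ T ih =>
    obtain ⟨k, t, h1, h2, h3⟩ := ih
    refine ⟨nxC k (fl (((sstep a)^[T] ([P], fun _ => 0)).2 (reg k.1))),
      t + if k.1 = [] then 0 else 1, ?_, ?_, ?_⟩
    · rw [Nat.mul_succ, Nat.add_comm, iterate_add_apply, h1, round, iterate_succ_apply', h2]
    · rw [iterate_succ_apply']
      simp [nxC, sstep, h2, fl]
    · intro h
      have h4 : k.1 ≠ [] := by
        intro h5
        apply h
        simp [nxC, h5, nx]
      simp [h4, h3 h4]

theorem closed_of_halts {a T : ℕ} (h : ((sstep a)^[T] ([P], fun _ => 0)).1 = []) :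
    ∃ j V, (qm P a).sys.Closed j V := by
  obtain ⟨k, t, h1, h2, -⟩ := rounds P a T
  refine (qm P a).closed_of_periodic (T := (nreg P + 1) * T) (P := nreg P + 1) (by omega) ?_
  rw [h] at h2
  rw [h1, round]
  have e1 : nxC k (fl (((sstep a)^[T] ([P], fun _ => 0)).2 (reg k.1))) = k :=
    Subtype.ext (by simp [nxC, h2, nx])
  have e2 := halted_iter (a := a) (s := (k.1, ((sstep a)^[T] ([P], fun _ => 0)).2)) h2 1
  rw [iterate_one] at e2
  rw [e1, e2]
  simp [h2]

theorem attack_of_runs {a : ℕ} (h : ∀ T, ((sstep a)^[T] ([P], fun _ => 0)).1 ≠ []) (j : ℕ) :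
    (qm P a).sys.Attack j := by
  refine (qm P a).attack (fun N => ?_) j
  obtain ⟨k, t, h1, h2, h3⟩ := rounds P a N
  refine ⟨(nreg P + 1) * N, ?_⟩
  rw [h1, h3 (h2 ▸ h N)]
  simp [enc]

end Prog

end Pool.Agent.Lib.MP_60077b_lc
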