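import Mathlib

/-!
Layer A, part 1: from a weighted checking automaton (`Sys`) to two finite sets of words `X ⊆ Y`.
-/

namespace Pool.Agent.Lib.MP_60077b_lc

/-- Letters. -/
inductive Ltr (S G : Type) where
  | t : Ltr S G
  | a : S → Ltr S G
  | run : S → G → Ltr S G
  | sep : S → G → Ltr S G
  | z : S → Ltr S G
  | b : S → Ltr S G

/-- A checking automaton over symbols `S` with states `G`. -/
structure Sys (S G : Type) where
  nu : S
  ok : S → Prop
  Sw : S → G → Prop
  Tr : G → S → List S → ℕ → G → Prop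
  Fn : G → S → Prop
  R : ℕ
  bef : G → List G
  aft : G → List G
  gl : List G
  split : ∀ g, gl = bef g ++ g :: aft g
  ok_nu : ok nu
  le_R : ∀ g σ w s g', Tr g σ w s g' → s ≤ R

variable {S G : Type}

namespace Sys

variable (D : Sys S G)

def piece (σ : S) (g : G) : List (Ltr S G) :=
  List.replicate D.R (Ltr.run σ g) ++ [Ltr.sep σ g]

def pieces (σ : S) (l : List G) : List (Ltr S G) := l.flatMap (D.piece σ)

def P (σ : S) : List (Ltr S G) := Ltr.a σ :: (D.pieces σ D.gl ++ [Ltr.z σ])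

def pre (σ : S) (g : G) : List (Ltr S G) := Ltr.a σ :: D.pieces σ (D.bef g)

def suf (σ : S) (g : G) (s : ℕ) : List (Ltr S G) :=
  List.replicate (D.R - s) (Ltr.run σ g) ++ Ltr.sep σ g :: (D.pieces σ (D.aft g) ++ [Ltr.z σ])

def betas : S → List S → List (Ltr S G)
  | _, [] => []
  | σ, τ :: c => Ltr.b σ :: (D.P τ ++ betas τ c)

def through : S → List S → List (Ltr S G) → List (Ltr S G)
  | σ, [], u => Ltr.b σ :: u
  | σ, ρ :: w, u => Ltr.b σ :: (D.P ρ ++ through ρ w u)

/-- The free state with content `σ :: c`. -/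
def F (σ : S) (c : List S) : List (Ltr S G) := D.P σ ++ D.betas σ c

/-- Possible ends of a long word whose transition has target `g`. -/
def EndW (g : G) (u : List (Ltr S G)) : Prop :=
  ∃ τ, u = D.pre τ g ∨ (D.Fn g τ ∧ u = D.P τ)

/-- The basic words. -/
inductive Basic : List (Ltr S G) → Prop
  | t : Basic [Ltr.t]
  | run (σ g) : Basic [Ltr.run σ g]
  | alpha (σ) : D.ok σ → Basic (D.P σ ++ [Ltr.b σ])
  | beta (σ τ) : Basic (Ltr.b σ :: D.P τ)
  | q : Basic [Ltr.b D.nu]
  | sw (σ g u) : D.Sw σ g → D.EndW g u → Basic (D.P σ ++ Ltr.b σ :: u)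
  | tr (g σ w s g' s' u) : D.Tr g σ w s g' → s' ≤ s → D.EndW g' u →
      Basic (D.suf σ g s' ++ D.through σ w u)

/-- Adjacency of letters in well-formed words. -/
def Adj (x y : Ltr S G) : Prop :=
  x ≠ Ltr.t ∧ y ≠ Ltr.t ∧ (∀ σ, x = Ltr.z σ → y = Ltr.b σ) ∧
    (∀ τ, y = Ltr.a τ → ∃ σ, x = Ltr.b σ)

def Ps (l : List S) : List (Ltr S G) := l.flatMap D.P

/-- The junction words. -/
def Junk (w : List (Ltr S G)) : Prop :=
  ∃ u v y, u.length ≤ 3 ∧ v.length ≤ 3 ∧ (y = [] ∨ D.Basic y) ∧ w = D.Ps u ++ y ++ D.Ps v ∧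
    ¬ w.IsChain Adj

/-- The special word. -/
def Bnu : List (Ltr S G) := Ltr.b D.nu :: D.P D.nu

def Y : Set (List (Ltr S G)) := {w | D.Basic w ∨ D.Junk w}

def X : Set (List (Ltr S G)) := {w | w ∈ D.Y ∧ w ≠ D.Bnu}

/-- Sequences of transitions, with their maximal number of words. -/
inductive Path : G → List S → ℕ → G → Prop
  | nil (g) : Path g [] 0 g
  | cons {g σ w s g1 v k g'} : D.Tr g σ w s g1 → Path g1 v k g' →
      Path g (σ :: w ++ v) (s + 1 + k) g'

/-- A successful check starting at the first symbol. -/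
def Hit (σ : S) (v : List S) (τ : S) : Prop :=
  ∃ g g' k, D.Sw σ g ∧ D.Path g v k g' ∧ D.Fn g' τ ∧ v.length ≤ k

/-- An escape inside the content `w`. -/
def Esc (w : List S) : Prop :=
  ∃ u σ v τ u', w = u ++ σ :: v ++ τ :: u' ∧ (∀ ρ ∈ u, D.ok ρ) ∧ D.Hit σ v τ

lemma pre_suf (σ : S) (g : G) : D.pre σ g ++ D.suf σ g 0 = D.P σ := by
  conv_rhs => rw [P, D.split g]
  simp [pre, suf, pieces, piece]

lemma betas_append (σ : S) (w : List S) (τ : S) (c : List S) :
    D.betas σ (w ++ τ :: c) = D.through σ w (D.P τ) ++ D.betas τ c := by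
  induction w generalizing σ with
  | nil => simp [betas, through]
  | cons ρ w ih => simp [betas, through, ih]

lemma through_append (σ : S) (w : List S) (u u' : List (Ltr S G)) :
    D.through σ w (u ++ u') = D.through σ w u ++ u' := by
  induction w generalizing σ with
  | nil => simp [through]
  | cons ρ w ih => simp [through, ih]

lemma Path.append {D : Sys S G} {g g1 g2 : G} {v v' : List S} {k k' : ℕ} (h : D.Path g v k g1)
    (h' : D.Path g1 v' k' g2) : D.Path g (v ++ v') (k + k') g2 := by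
  induction h with
  | nil g => simpa using h'
  | cons ht _ ih =>
    have := Path.cons ht (ih h')
    simpa [Nat.add_assoc] using this

lemma Path.single {D : Sys S G} {g g1 : G} {σ : S} {w : List S} {s : ℕ}
    (h : D.Tr g σ w s g1) : D.Path g (σ :: w) (s + 1) g1 := by
  simpa using Path.cons h (Path.nil g1)

/-! ### Chains -/

/-- Letters inside a block. -/
def Inner (x : Ltr S G) : Prop := (∃ σ g, x = Ltr.run σ g) ∨ ∃ σ g, x = Ltr.sep σ g

lemma inner_pieces (σ : S) (l : List G) : ∀ x ∈ D.pieces σ l, Inner x := by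
  intro x hx
  simp only [pieces, piece, List.mem_flatMap, List.mem_append, List.mem_replicate,
    List.mem_singleton] at hx
  obtain ⟨g, -, h | h⟩ := hx
  · exact Or.inl ⟨σ, g, h.2⟩
  · exact Or.inr ⟨σ, g, h⟩

lemma chain_inner (m : List (Ltr S G)) (hm : ∀ x ∈ m, Inner x) (σ : S) (rest : List (Ltr S G))
    (hr : (Ltr.z σ :: rest).IsChain Adj) (x : Ltr S G) (h1 : x ≠ Ltr.t)
    (h2 : ∀ ρ, x ≠ Ltr.z ρ) : (x :: (m ++ Ltr.z σ :: rest)).IsChain Adj := by
  induction m generalizing x with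
  | nil =>
    refine List.isChain_cons_cons.mpr ⟨⟨h1, by simp, fun ρ h => absurd h (h2 ρ), by simp⟩, hr⟩
  | cons y m ih =>
    have hy := hm y List.mem_cons_self
    refine List.isChain_cons_cons.mpr ⟨⟨h1, ?_, fun ρ h => absurd h (h2 ρ), ?_⟩, ?_⟩
    · rcases hy with ⟨_, _, rfl⟩ | ⟨_, _, rfl⟩ <;> simp
    · rcases hy with ⟨_, _, rfl⟩ | ⟨_, _, rfl⟩ <;> simp
    · apply ih (fun x hx => hm x (List.mem_cons_of_mem _ hx))
      · rcases hy with ⟨_, _, rfl⟩ | ⟨_, _, rfl⟩ <;> simp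
      · rcases hy with ⟨_, _, rfl⟩ | ⟨_, _, rfl⟩ <;> simp

lemma chain_F (σ : S) (c : List S) : (D.F σ c).IsChain Adj := by
  induction c generalizing σ with
  | nil =>
    have := chain_inner (D.pieces σ D.gl) (D.inner_pieces σ _) σ [] (by simp) (Ltr.a σ)
      (by simp) (by simp)
    simpa [F, P, betas] using this
  | cons τ c ih =>
    have h1 : (Ltr.z σ :: Ltr.b σ :: D.F τ c).IsChain Adj := by
      refine List.isChain_cons_cons.mpr ⟨⟨by simp, by simp, by simp, by simp⟩, ?_⟩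
      have := ih τ
      unfold F P at this ⊢
      exact List.isChain_cons_cons.mpr ⟨⟨by simp, by simp, by simp, by simp⟩, this⟩
    have := chain_inner (D.pieces σ D.gl) (D.inner_pieces σ _) σ _ h1 (Ltr.a σ)
      (by simp) (by simp)
    simpa [F, P, betas] using this

lemma head_of_chain_P {σ : S} {y : List (Ltr S G)} {p : List (Ltr S G)}
    (h : (p ++ D.P σ ++ y).IsChain Adj) : ∀ x ∈ y.head?, x = Ltr.b σ := by
  rw [List.isChain_append] at h
  intro x hx
  have := h.2.2 (Ltr.z σ) (by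
    rw [P, ← List.cons_append, ← List.append_assoc, List.getLast?_concat]; rfl) x hx
  exact this.2.2.1 σ rfl

lemma last_of_chain_P {τ : S} {x : List (Ltr S G)} {p : List (Ltr S G)}
    (h : (x ++ (D.P τ ++ p)).IsChain Adj) : ∀ y ∈ x.getLast?, ∃ σ, y = Ltr.b σ := by
  rw [List.isChain_append] at h
  intro y hy
  have := h.2.2 y hy (Ltr.a τ) (by simp [P])
  exact this.2.2.2 τ rfl

lemma not_chain_PP (p q : List (Ltr S G)) (σ τ : S) :
    ¬ (p ++ D.P σ ++ (D.P τ ++ q)).IsChain Adj := by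
  intro h
  have := D.head_of_chain_P h (Ltr.a τ) (by simp [P])
  simp at this

lemma chain_Bnu : D.Bnu.IsChain Adj := by
  have := D.chain_F D.nu [D.nu]
  simp only [F, betas, List.append_nil] at this
  exact this.right_of_append

lemma junk_mem_X {w : List (Ltr S G)} (h : D.Junk w) : w ∈ D.X := by
  refine ⟨Or.inr h, ?_⟩
  rintro rfl
  obtain ⟨_, _, _, _, _, _, _, h⟩ := h
  exact h D.chain_Bnu

lemma X_sub_Y {w : List (Ltr S G)} (h : w ∈ D.X) : w ∈ D.Y := h.1

lemma alpha_mem_X {σ : S} (h : D.ok σ) : D.P σ ++ [Ltr.b σ] ∈ D.X :=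
  ⟨Or.inl (Basic.alpha σ h), by simp [P, Bnu]⟩

lemma q_mem_X : [Ltr.b D.nu] ∈ D.X := ⟨Or.inl Basic.q, by simp [P, Bnu]⟩

lemma t_mem_X : [Ltr.t] ∈ D.X := ⟨Or.inl Basic.t, by simp [Bnu]⟩

lemma run_mem_X (σ : S) (g : G) : [Ltr.run σ g] ∈ D.X :=
  ⟨Or.inl (Basic.run σ g), by simp [Bnu]⟩

lemma beta_mem_Y (σ τ : S) : Ltr.b σ :: D.P τ ∈ D.Y := Or.inl (Basic.beta σ τ)

lemma suf_head (σ : S) (g : G) (s : ℕ) (u : List (Ltr S G)) :
    ∃ x l, D.suf σ g s ++ u = x :: l ∧ (x = Ltr.run σ g ∨ x = Ltr.sep σ g) := by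
  unfold suf
  rcases h : D.R - s with _ | n
  · exact ⟨_, _, rfl, Or.inr rfl⟩
  · exact ⟨_, _, rfl, Or.inl rfl⟩

lemma basic_ne_nil {w : List (Ltr S G)} (h : D.Basic w) : w ≠ [] := by
  cases h with
  | tr g σ w s g' s' u _ _ _ =>
    obtain ⟨x, l, h, -⟩ := D.suf_head σ g s' (D.through σ w u)
    simp [h]
  | _ => simp [P]

lemma Y_ne_nil {w : List (Ltr S G)} (h : w ∈ D.Y) : w ≠ [] := by
  rcases h with h | ⟨_, _, _, _, _, _, _, h⟩
  · exact D.basic_ne_nil h
  · rintro rfl
    exact h (by simp)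

lemma through_last (σ : S) (w : List S) (u : List (Ltr S G)) (hu : u ≠ []) :
    (D.through σ w u).getLast? = u.getLast? := by
  induction w generalizing σ with
  | nil =>
    rw [through, ← List.singleton_append, List.getLast?_append_of_ne_nil _ hu]
  | cons ρ w ih =>
    have h : D.through ρ w u ≠ [] := by cases w <;> simp [through]
    rw [through, ← List.cons_append, List.getLast?_append_of_ne_nil _ h, ih]

lemma endW_last {g : G} {u : List (Ltr S G)} (h : D.EndW g u) :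
    u ≠ [] ∧ ∀ y ∈ u.getLast?, ∀ σ, y ≠ Ltr.b σ := by
  obtain ⟨τ, rfl | ⟨-, rfl⟩⟩ := h
  · refine ⟨by simp [pre], fun y hy σ => ?_⟩
    have := List.mem_of_mem_getLast? hy
    rw [pre, List.mem_cons] at this
    rcases this with rfl | h
    · simp
    · rcases D.inner_pieces _ _ y h with ⟨_, _, rfl⟩ | ⟨_, _, rfl⟩ <;> simp
  · refine ⟨by simp [P], fun y hy σ => ?_⟩
    rw [P, ← List.cons_append, List.getLast?_concat] at hy
    simp only [Option.mem_def, Option.some.injEq] at hy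
    subst hy
    simp

/-- Basic words beginning with a `b` letter. -/
lemma basic_head_b {y : List (Ltr S G)} (h : D.Basic y) {σ : S}
    (hb : ∀ x ∈ y.head?, x = Ltr.b σ) :
    (∃ τ, y = Ltr.b σ :: D.P τ) ∨ (σ = D.nu ∧ y = [Ltr.b D.nu]) := by
  cases h with
  | t => simp at hb
  | run => simp at hb
  | alpha => simp [P] at hb
  | beta ρ τ =>
    simp only [List.head?_cons, Option.mem_def, Option.some.injEq, forall_eq',
      Ltr.b.injEq] at hb
    subst hb
    exact Or.inl ⟨τ, rfl⟩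
  | q =>
    simp only [List.head?_cons, Option.mem_def, Option.some.injEq, forall_eq',
      Ltr.b.injEq] at hb
    exact Or.inr ⟨hb.symm, rfl⟩
  | sw => simp [P] at hb
  | tr g ρ w s g' s' u _ _ _ =>
    obtain ⟨x, l, h, hx⟩ := D.suf_head ρ g s' (D.through ρ w u)
    rw [h] at hb
    rcases hx with rfl | rfl <;> simp at hb

/-- Basic words ending with a `b` letter. -/
lemma basic_last_b {x : List (Ltr S G)} (h : D.Basic x)
    (hb : ∀ y ∈ x.getLast?, ∃ σ, y = Ltr.b σ) :
    (∃ σ, D.ok σ ∧ x = D.P σ ++ [Ltr.b σ]) ∨ x = [Ltr.b D.nu] := by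
  cases h with
  | t => simp at hb
  | run => simp at hb
  | alpha σ h => exact Or.inl ⟨σ, h, rfl⟩
  | beta ρ τ =>
    rw [P, ← List.cons_append, ← List.cons_append, List.getLast?_concat] at hb
    simp at hb
  | q => exact Or.inr rfl
  | sw σ g u _ hu =>
    obtain ⟨h1, h2⟩ := D.endW_last hu
    rw [← List.singleton_append, ← List.append_assoc, List.getLast?_append_of_ne_nil _ h1] at hb
    obtain ⟨y, hy⟩ := Option.ne_none_iff_exists'.mp (mt List.getLast?_eq_none_iff.mp h1)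
    obtain ⟨ρ, hρ⟩ := hb y hy
    exact absurd hρ (h2 y hy ρ)
  | tr g ρ w s g' s' u _ _ hu =>
    obtain ⟨h1, h2⟩ := D.endW_last hu
    have h3 : D.through ρ w u ≠ [] := by cases w <;> simp [through]
    rw [List.getLast?_append_of_ne_nil _ h3, D.through_last _ _ _ h1] at hb
    obtain ⟨y, hy⟩ := Option.ne_none_iff_exists'.mp (mt List.getLast?_eq_none_iff.mp h1)
    obtain ⟨ρ, hρ⟩ := hb y hy
    exact absurd hρ (h2 y hy ρ)

end Sys

end Pool.Agent.Lib.MP_60077b_lc
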